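import Pool.Agent.H567R2.MO.Stubs

/-! CF: relations give collisions. -/

namespace H567MM.P

open MeasureTheory Filter Topology

theorem CF_aux_iter {X : Type*} {s : ℕ} (S : X → X) (t : ℕ) (y : Fin s → X) (j : Fin s) :
    ((fun (y : Fin s → X) j => S (y j))^[t] y) j = S^[t] (y j) := by
  induction t generalizing y with
  | zero => rfl
  | succ t ih => rw [Function.iterate_succ_apply, Function.iterate_succ_apply, ih]

theorem coll_of_rel {X K V : Type*} [MeasurableSpace X] (μ : Measure X) [IsProbabilityMeasure μ]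
    (S : X → X) (hS : MeasurePreserving S μ μ) (hmix : MixOrd μ S 1) [Field K]
    [AddCommGroup V] [Module K V]
    [FiniteDimensional K V] [Countable V] (φ : X → (V ≃ₗ[K] V))
    (hφ : ∀ v v' : V, MeasurableSet {x | φ x v = v'}) (k : ℕ) (hk : MixOrd μ S k)
    (m : Fin (k + 1) → V) (A : Fin (k + 1) → Set X) (hA : ∀ j, MeasurableSet (A j)) (δ : ℝ)
    (hδ : 0 < δ) (h : ∀ G : ℕ, ∃ n : Fin (k + 1) → ℕ, n 0 = 0 ∧
      (∀ j : Fin k, n j.castSucc + G ≤ n j.succ) ∧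
      δ ≤ μ.real {x | (∀ j, S^[n j] x ∈ A j) ∧ ∑ j, coc S φ (n j) x (m j) = 0})
    (j₀ : Fin (k + 1)) : ∃ c : ℝ, 0 < c ∧ ∀ N₀ : ℕ, ∃ N ≥ N₀, c * N ≤
      ∑ t ∈ Finset.range N, (μ.prod μ).real {z | coc S φ t z.1 (m j₀) = coc S φ t z.2 (m j₀) ∧
        S^[t] z.1 ∈ A j₀ ∧ S^[t] z.2 ∈ A j₀} := by
  have hA' : MeasurableSet {y : Fin (k + 1) → X | ∀ j, y j ∈ A j} := by
    have : {y : Fin (k + 1) → X | ∀ j, y j ∈ A j} = ⋂ j, (fun y : Fin (k + 1) → X => y j) ⁻¹' A j := by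
      ext y
      simp
    rw [this]
    exact MeasurableSet.iInter fun j => measurable_pi_apply j (hA j)
  have herg := pi_ergodic μ S hS hmix (k + 1)
  obtain ⟨B, f, hB, hBG, W₁, hu, h1⟩ := gr_family (Measure.pi fun _ : Fin (k + 1) => μ)
    (fun (y : Fin (k + 1) → X) j => S (y j)) herg (piC φ) (piC_meas φ hφ (k + 1))
    {y : Fin (k + 1) → X | ∀ j, y j ∈ A j} hA' m (GP (K := K) (V := V) (k + 1))
    (GP_props (K := K) (V := V) φ (k + 1)).1 (GP_props (K := K) (V := V) φ (k + 1)).2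
    (δ / 2) (by positivity)
    (fun M₀ => ⟨M₀, le_rfl, prod_hits μ S hS φ hφ k hk m A hA δ hδ h M₀⟩)
  obtain ⟨W₀, hne, c, hc, hrec⟩ := khin (Measure.pi fun _ : Fin (k + 1) => μ)
    (fun (y : Fin (k + 1) → X) j => S (y j)) herg.toMeasurePreserving (piC φ)
    (piC_meas φ hφ (k + 1)) {y : Fin (k + 1) → X | ∀ j, y j ∈ A j} hA' m B f hB W₁ hu h1
  have hW₀ : W₀ ∈ GP (K := K) (V := V) (k + 1) := by
    by_contra hcon
    rw [hBG W₀ hcon] at hne
    exact Set.not_nonempty_empty hne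
  refine ⟨c ^ 2, by positivity, fun N₀ => ?_⟩
  obtain ⟨N, hN, hcN⟩ := hrec (N₀ + 1)
  refine ⟨N, by omega, ?_⟩
  set p : ℕ → ℝ := fun t => (Measure.pi fun _ : Fin (k + 1) => μ).real
    {y | (fun j => coc S φ t (y j) (m j)) ∈ W₀ ∧ ∀ j, S^[t] (y j) ∈ A j} with hp
  have e1 : ∑ t ∈ Finset.range N, (Measure.pi fun _ : Fin (k + 1) => μ).real
      {ω | coc (fun (y : Fin (k + 1) → X) j => S (y j)) (piC φ) t ω m ∈ W₀ ∧
        (fun (y : Fin (k + 1) → X) j => S (y j))^[t] ω ∈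
          {y : Fin (k + 1) → X | ∀ j, y j ∈ A j}} = ∑ t ∈ Finset.range N, p t := by
    refine Finset.sum_congr rfl fun t _ => ?_
    rw [hp]
    congr 1
    ext y
    have h2 : coc (fun (y : Fin (k + 1) → X) j => S (y j)) (piC φ) t y m =
        fun j => coc S φ t (y j) (m j) := by
      funext j
      exact piC_coc S φ (k + 1) t y m j
    simp only [Set.mem_ofPred_eq, h2, CF_aux_iter]
  rw [e1] at hcN
  have hN0 : (0 : ℝ) < N := by exact_mod_cast (by omega : 0 < N)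
  have h3 : (∑ t ∈ Finset.range N, p t) ^ 2 ≤ N * ∑ t ∈ Finset.range N, p t ^ 2 := by
    have := sq_sum_le_card_mul_sum_sq (s := Finset.range N) (f := p)
    rwa [Finset.card_range] at this
  have h4 : (c * N) ^ 2 ≤ (∑ t ∈ Finset.range N, p t) ^ 2 :=
    pow_le_pow_left₀ (by positivity) hcN 2
  have h5 : c ^ 2 * N ≤ ∑ t ∈ Finset.range N, p t ^ 2 := by
    have h6 : N * (c ^ 2 * N) ≤ N * ∑ t ∈ Finset.range N, p t ^ 2 := by
      calc (N : ℝ) * (c ^ 2 * N) = (c * N) ^ 2 := by ring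
        _ ≤ _ := h4.trans h3
    exact le_of_mul_le_mul_left h6 hN0
  refine h5.trans (Finset.sum_le_sum fun t _ => ?_)
  exact cs_pi μ S hS φ hφ k m A hA W₀ hW₀ t j₀

end H567MM.P
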