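import Pool.Agent.H567R2.MO.Stubs

/-! Task CL2: close pairs (author helper171). -/

namespace H567MM.P

open MeasureTheory Filter Topology

universe u v

/-- sets of `X × X` which depend on the second coordinate only through a finite measurable
partition -/
def CL2_alg (X : Type*) [MeasurableSpace X] : Set (Set (X × X)) :=
  {E | MeasurableSet E ∧ ∃ (n : ℕ) (q : X → Fin n), Measurable q ∧
    ∀ a c c', q c = q c' → ((a, c) ∈ E ↔ (a, c') ∈ E)}

theorem CL2_aux_alg (X : Type*) [MeasurableSpace X] : IsSetAlgebra (CL2_alg X) where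
  empty_mem := ⟨MeasurableSet.empty, 1, fun _ => 0, measurable_const, by simp⟩
  compl_mem := by
    rintro s ⟨hs, n, q, hq, h⟩
    exact ⟨hs.compl, n, q, hq, fun a c c' hc => not_congr (h a c c' hc)⟩
  union_mem := by
    rintro s t ⟨hs, n, q, hq, h⟩ ⟨ht, m, r, hr, h'⟩
    refine ⟨hs.union ht, n * m, fun c => finProdFinEquiv (q c, r c), ?_, ?_⟩
    · exact (measurable_of_finite _).comp (hq.prodMk hr)
    · intro a c c' hc
      have := finProdFinEquiv.injective hc
      simp only [Prod.mk.injEq] at this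
      exact or_congr (h a c c' this.1) (h' a c c' this.2)

theorem CL2_aux_gen (X : Type*) [i : MeasurableSpace X] :
    (Prod.instMeasurableSpace : MeasurableSpace (X × X)) =
      MeasurableSpace.generateFrom (CL2_alg X) := by
  classical
  apply le_antisymm
  · rw [← generateFrom_prod]
    apply MeasurableSpace.generateFrom_mono
    rintro _ ⟨A, hA, B, hB, rfl⟩
    refine ⟨hA.prod hB, 2, fun c => if c ∈ B then 0 else 1, ?_, ?_⟩
    · exact Measurable.ite hB measurable_const measurable_const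
    · intro a c c' hc
      have : c ∈ B ↔ c' ∈ B := by
        by_cases h1 : c ∈ B <;> by_cases h2 : c' ∈ B <;> simp_all
      simp [Set.mem_prod, this]
  · apply MeasurableSpace.generateFrom_le
    rintro s ⟨hs, -⟩
    exact hs

theorem CL2_aux_approx {X : Type u} {κ : Type v} [MeasurableSpace X] (μ : Measure X) [IsProbabilityMeasure μ]
    [Countable κ] (F : X × X → κ) (hF : ∀ w, MeasurableSet {z | F z = w}) (ε : ℝ)
    (hε : 0 < ε) : ∃ (Bad : Set (X × X)) (ι : Type v) (_ : Fintype ι) (q : X → ι),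
      MeasurableSet Bad ∧ (μ.prod μ) Bad < ENNReal.ofReal ε ∧
      (∀ i, MeasurableSet (q ⁻¹' {i})) ∧ ∀ a c c', q c = q c' → (a, c) ∉ Bad → (a, c') ∉ Bad →
        F (a, c) = F (a, c') := by
  classical
  -- the tail
  have htail : ∃ k0 : Finset κ, (μ.prod μ) {z | F z ∉ k0} < ENNReal.ofReal (ε / 2) := by
    obtain ⟨e, he⟩ := exists_injective_nat κ
    have hm : ∀ N : ℕ, MeasurableSet {z | N ≤ e (F z)} := by
      intro N
      have : {z | N ≤ e (F z)} = ⋃ w ∈ {w : κ | N ≤ e w}, {z | F z = w} := by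
        ext z; simp
      rw [this]
      exact MeasurableSet.biUnion (Set.to_countable _) fun w _ => hF w
    have h0 : Tendsto (fun N : ℕ => (μ.prod μ) {z | N ≤ e (F z)}) atTop
        (𝓝 ((μ.prod μ) (⋂ N : ℕ, {z | N ≤ e (F z)}))) := by
      apply tendsto_measure_iInter_atTop
      · intro N; exact (hm N).nullMeasurableSet
      · intro N M hNM z hz
        exact le_trans hNM hz
      · exact ⟨0, measure_ne_top _ _⟩
    have h1 : (⋂ N : ℕ, {z : X × X | N ≤ e (F z)}) = ∅ := by
      ext z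
      simp only [Set.mem_iInter, Set.mem_ofPred_eq, Set.mem_empty_iff_false, iff_false, not_forall,
        not_le]
      exact ⟨e (F z) + 1, Nat.lt_succ_self _⟩
    rw [h1, measure_empty] at h0
    have h2 := (tendsto_order.1 h0).2 (ENNReal.ofReal (ε / 2)) (by
      exact ENNReal.ofReal_pos.2 (by positivity))
    obtain ⟨N, hN⟩ := h2.exists
    have hfin : {w : κ | e w < N}.Finite := by
      apply Set.Finite.of_finite_image (f := e) _ he.injOn
      exact (Set.finite_lt_nat N).subset (by rintro _ ⟨w, hw, rfl⟩; exact hw)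
    refine ⟨hfin.toFinset, lt_of_le_of_lt (measure_mono ?_) hN⟩
    intro z hz
    simpa using hz
  obtain ⟨k0, hk0⟩ := htail
  have hd : (μ.prod μ).MeasureDense (CL2_alg X) :=
    Measure.MeasureDense.of_generateFrom_isSetAlgebra_finite _ (CL2_aux_alg X) (CL2_aux_gen X)
  have hη : 0 < ε / 2 / (k0.card + 1) := by positivity
  have happ : ∀ w : κ, ∃ t ∈ CL2_alg X, (μ.prod μ) (symmDiff {z | F z = w} t) <
      ENNReal.ofReal (ε / 2 / (k0.card + 1)) := fun w =>
    hd.approx _ (hF w) (measure_ne_top _ _) _ hη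
  choose E hE hEm using happ
  choose hE1 n q hq hEq using hE
  refine ⟨{z | F z ∉ k0} ∪ ⋃ w ∈ k0, symmDiff {z | F z = w} (E w), (w : k0) → Fin (n w.1),
    inferInstance, fun c w => q w.1 c, ?_, ?_, ?_, ?_⟩
  · apply MeasurableSet.union
    · have : {z | F z ∉ k0} = (⋃ w ∈ k0, {z | F z = w})ᶜ := by ext z; simp
      rw [this]
      exact (Finset.measurableSet_biUnion _ fun w _ => hF w).compl
    · exact Finset.measurableSet_biUnion _ fun w _ => (hF w).symmDiff (hE1 w)
  · have h3 : (μ.prod μ) (⋃ w ∈ k0, symmDiff {z | F z = w} (E w)) ≤ ENNReal.ofReal (ε / 2) := by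
      calc (μ.prod μ) (⋃ w ∈ k0, symmDiff {z | F z = w} (E w))
          ≤ ∑ w ∈ k0, (μ.prod μ) (symmDiff {z | F z = w} (E w)) :=
            measure_biUnion_finset_le _ _
        _ ≤ ∑ w ∈ k0, ENNReal.ofReal (ε / 2 / (k0.card + 1)) :=
            Finset.sum_le_sum fun w _ => (hEm w).le
        _ = ENNReal.ofReal (k0.card * (ε / 2 / (k0.card + 1))) := by
            rw [Finset.sum_const, nsmul_eq_mul, ENNReal.ofReal_mul (by positivity)]
            simp
        _ ≤ ENNReal.ofReal (ε / 2) := by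
            apply ENNReal.ofReal_le_ofReal
            rw [mul_div_assoc', div_le_iff₀ (by positivity)]
            nlinarith
    calc (μ.prod μ) ({z | F z ∉ k0} ∪ ⋃ w ∈ k0, symmDiff {z | F z = w} (E w))
        ≤ (μ.prod μ) {z | F z ∉ k0} + (μ.prod μ) (⋃ w ∈ k0, symmDiff {z | F z = w} (E w)) :=
          measure_union_le _ _
      _ < ENNReal.ofReal (ε / 2) + ENNReal.ofReal (ε / 2) :=
          ENNReal.add_lt_add_of_lt_of_le (ne_top_of_le_ne_top ENNReal.ofReal_ne_top h3) hk0 h3
      _ = ENNReal.ofReal ε := by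
          rw [← ENNReal.ofReal_add (by positivity) (by positivity)]
          congr 1; ring
  · intro i
    have : (fun c (w : k0) => q w.1 c) ⁻¹' {i} = ⋂ w : k0, (q w.1) ⁻¹' {i w} := by
      ext c
      simp only [Set.mem_preimage, Set.mem_singleton_iff, Set.mem_iInter]
      exact funext_iff
    rw [this]
    exact MeasurableSet.iInter fun w => hq w.1 (measurableSet_singleton _)
  · intro a c c' hc h1 h2
    simp only [Set.mem_union, Set.mem_ofPred_eq, Set.mem_iUnion, not_or, not_not, not_exists] at h1 h2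
    obtain ⟨h1a, h1b⟩ := h1
    obtain ⟨h2a, h2b⟩ := h2
    have hin : (a, c) ∈ E (F (a, c)) := by
      by_contra hcon
      apply h1b _ h1a
      left
      exact ⟨rfl, hcon⟩
    have hqc : q (F (a, c)) c = q (F (a, c)) c' := congrFun hc ⟨F (a, c), h1a⟩
    have hin' : (a, c') ∈ E (F (a, c)) := (hEq _ a c c' hqc).1 hin
    by_contra hne
    apply h2b _ h1a
    right
    exact ⟨hin', fun h => hne h.symm⟩

/-- CL2 -/
theorem close_pairs {X κ : Type*} [MeasurableSpace X] (μ : Measure X) [IsProbabilityMeasure μ]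
    [Countable κ] (F : X × X → κ) (hF : ∀ w, MeasurableSet {z | F z = w}) (ε : ℝ)
    (hε : 0 < ε) :
    (μ.prod μ) {p : X × X | μ.real {a | F (a, p.1) ≠ F (a, p.2)} < ε} ≠ 0 := by
  classical
  obtain ⟨Bad, ι, _, q, hBad, hBm, hq, hF'⟩ := CL2_aux_approx μ F hF (ε / 4) (by positivity)
  -- the good part
  set b : X → ENNReal := fun c => μ {a | (a, c) ∈ Bad} with hb
  have hbm : Measurable b := measurable_measure_prodMk_right hBad
  have hint : ∫⁻ c, b c ∂μ = (μ.prod μ) Bad := by
    rw [Measure.prod_apply_symm hBad]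
    rfl
  have hmarkov : μ {c | ENNReal.ofReal (ε / 2) ≤ b c} < 1 := by
    have h1 := mul_meas_ge_le_lintegral (μ := μ) hbm (ENNReal.ofReal (ε / 2))
    rw [hint] at h1
    by_contra hcon
    push Not at hcon
    have h2 : ENNReal.ofReal (ε / 2) ≤ (μ.prod μ) Bad := by
      calc ENNReal.ofReal (ε / 2) = ENNReal.ofReal (ε / 2) * 1 := by rw [mul_one]
        _ ≤ _ := mul_le_mul_right hcon _
        _ ≤ _ := h1
    have h3 : (μ.prod μ) Bad < ENNReal.ofReal (ε / 2) :=
      lt_of_lt_of_le hBm (ENNReal.ofReal_le_ofReal (by linarith))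
    exact absurd (lt_of_le_of_lt h2 h3) (lt_irrefl _)
  have hG : μ {c | b c < ENNReal.ofReal (ε / 2)} ≠ 0 := by
    intro h0
    have h1 : μ Set.univ ≤ μ {c | b c < ENNReal.ofReal (ε / 2)} +
        μ {c | ENNReal.ofReal (ε / 2) ≤ b c} := by
      refine le_trans (measure_mono ?_) (measure_union_le _ _)
      intro c _
      rcases lt_or_ge (b c) (ENNReal.ofReal (ε / 2)) with h | h
      · left; exact h
      · right; exact h
    rw [h0, zero_add, measure_univ] at h1
    exact absurd (lt_of_le_of_lt h1 hmarkov) (lt_irrefl _)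
  have hv : ∃ v : ι, μ ({c | b c < ENNReal.ofReal (ε / 2)} ∩ q ⁻¹' {v}) ≠ 0 := by
    by_contra hcon
    push Not at hcon
    apply hG
    have : {c | b c < ENNReal.ofReal (ε / 2)} ⊆
        ⋃ v : ι, ({c | b c < ENNReal.ofReal (ε / 2)} ∩ q ⁻¹' {v}) := by
      intro c hc
      simp only [Set.mem_iUnion]
      exact ⟨q c, hc, rfl⟩
    exact measure_mono_null this (measure_iUnion_null hcon)
  obtain ⟨v, hv⟩ := hv
  set Q := {c | b c < ENNReal.ofReal (ε / 2)} ∩ q ⁻¹' {v} with hQ
  have hsub : Q ×ˢ Q ⊆ {p : X × X | μ.real {a | F (a, p.1) ≠ F (a, p.2)} < ε} := by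
    rintro ⟨c, c'⟩ ⟨⟨hc1, hc2⟩, ⟨hc1', hc2'⟩⟩
    simp only [Set.mem_preimage, Set.mem_singleton_iff, Set.mem_ofPred_eq] at hc1 hc2 hc1' hc2' ⊢
    have h1 : {a | F (a, c) ≠ F (a, c')} ⊆ {a | (a, c) ∈ Bad} ∪ {a | (a, c') ∈ Bad} := by
      intro a ha
      by_contra hcon
      simp only [Set.mem_union, Set.mem_ofPred_eq, not_or] at hcon
      exact ha (hF' a c c' (hc2.trans hc2'.symm) hcon.1 hcon.2)
    have h2 : μ {a | F (a, c) ≠ F (a, c')} < ENNReal.ofReal ε := by
      calc μ {a | F (a, c) ≠ F (a, c')} ≤ b c + b c' :=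
            le_trans (measure_mono h1) (measure_union_le _ _)
        _ < ENNReal.ofReal (ε / 2) + ENNReal.ofReal (ε / 2) := ENNReal.add_lt_add hc1 hc1'
        _ = ENNReal.ofReal ε := by
            rw [← ENNReal.ofReal_add (by positivity) (by positivity)]
            congr 1; ring
    rw [Measure.real]
    exact (ENNReal.toReal_lt_of_lt_ofReal h2)
  intro h0
  have h4 := measure_mono_null hsub h0
  rw [Measure.prod_prod] at h4
  exact hv (by simpa using h4)

end H567MM.P
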