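import Pool.Agent.H567R2.MO.Stubs

/-! CP: collisions from relations (helper493) -/

namespace H567MM.P

open MeasureTheory Filter Topology H567MM

theorem cs_pi {X K V : Type*} [MeasurableSpace X] (μ : Measure X) [IsProbabilityMeasure μ]
    (S : X → X) (hS : MeasurePreserving S μ μ) [Field K] [AddCommGroup V] [Module K V]
    [FiniteDimensional K V] [Countable V] (φ : X → (V ≃ₗ[K] V))
    (hφ : ∀ v v' : V, MeasurableSet {x | φ x v = v'}) (k : ℕ) (m : Fin (k + 1) → V)
    (A : Fin (k + 1) → Set X) (hA : ∀ j, MeasurableSet (A j))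
    (W : Submodule K (Fin (k + 1) → V)) (hW : W ∈ GP (K := K) (V := V) (k + 1)) (t : ℕ)
    (j₀ : Fin (k + 1)) :
    ((Measure.pi fun _ : Fin (k + 1) => μ).real {y | (fun j => coc S φ t (y j) (m j)) ∈ W ∧
      ∀ j, S^[t] (y j) ∈ A j}) ^ 2 ≤
    (μ.prod μ).real {z | coc S φ t z.1 (m j₀) = coc S φ t z.2 (m j₀) ∧ S^[t] z.1 ∈ A j₀ ∧
      S^[t] z.2 ∈ A j₀} := by
  set E : Set (Fin (k + 1) → X) := {y | (fun j => coc S φ t (y j) (m j)) ∈ W ∧
      ∀ j, S^[t] (y j) ∈ A j} with hE
  set Z : Set (X × X) := {z | coc S φ t z.1 (m j₀) = coc S φ t z.2 (m j₀) ∧ S^[t] z.1 ∈ A j₀ ∧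
      S^[t] z.2 ∈ A j₀} with hZ
  have hco := (coc_meas S hS.measurable φ hφ t).1
  have hEm : MeasurableSet E := by
    have h1 : E = (⋃ w : W, ⋂ j, {y | coc S φ t (y j) (m j) = (w : Fin (k + 1) → V) j}) ∩
        ⋂ j, {y | S^[t] (y j) ∈ A j} := by
      ext y
      simp only [hE, Set.mem_ofPred_eq, Set.mem_inter_iff, Set.mem_iUnion, Set.mem_iInter]
      constructor
      · rintro ⟨h1, h2⟩
        exact ⟨⟨⟨_, h1⟩, fun j => rfl⟩, h2⟩
      · rintro ⟨⟨w, hw⟩, h2⟩
        refine ⟨?_, h2⟩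
        have : (fun j => coc S φ t (y j) (m j)) = (w : Fin (k + 1) → V) := funext hw
        rw [this]
        exact w.2
    rw [h1]
    refine MeasurableSet.inter ?_ ?_
    · refine MeasurableSet.iUnion fun w => MeasurableSet.iInter fun j => ?_
      have hp : Measurable fun y : Fin (k + 1) → X => y j := measurable_pi_apply j
      exact hp (hco (m j) ((w : Fin (k + 1) → V) j))
    · refine MeasurableSet.iInter fun j => ?_
      have hp : Measurable fun y : Fin (k + 1) → X => y j := measurable_pi_apply j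
      exact hp ((hS.iterate t).measurable (hA j))
  have hmp := measurePreserving_piFinSuccAbove (fun _ : Fin (k + 1) => μ) j₀
  set e := MeasurableEquiv.piFinSuccAbove (fun _ : Fin (k + 1) => X) j₀ with he
  have hPE : (Measure.pi fun _ : Fin (k + 1) => μ) E =
      (μ.prod (Measure.pi fun _ : Fin k => μ)) (e.symm ⁻¹' E) := by
    have h1 := hmp.symm.measure_preimage_equiv E
    exact h1.symm
  have hsec : ∀ y' : Fin k → X, ∀ a : X, a ∈ ((fun x => (x, y')) ⁻¹' (e.symm ⁻¹' E)) →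
      (fun j => coc S φ t ((j₀.insertNth a y' : Fin (k + 1) → X) j) (m j)) ∈ W ∧
      S^[t] a ∈ A j₀ := by
    intro y' a ha
    have h1 : (j₀.insertNth a y' : Fin (k + 1) → X) ∈ E := ha
    refine ⟨h1.1, ?_⟩
    have h2 := h1.2 j₀
    rwa [Fin.insertNth_apply_same] at h2
  have hbd : ∀ y' : Fin k → X, μ.real ((fun x => (x, y')) ⁻¹' (e.symm ⁻¹' E)) ≤
      Real.sqrt ((μ.prod μ).real Z) := by
    intro y'
    set Gy := (fun x => (x, y')) ⁻¹' (e.symm ⁻¹' E) with hG
    apply Real.le_sqrt_of_sq_le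
    have h1 : Gy ×ˢ Gy ⊆ Z := by
      rintro ⟨a, b⟩ ⟨ha, hb⟩
      obtain ⟨ha1, ha2⟩ := hsec y' a ha
      obtain ⟨hb1, hb2⟩ := hsec y' b hb
      refine ⟨?_, ha2, hb2⟩
      have h2 := W.sub_mem ha1 hb1
      have h3 : ((fun j => coc S φ t ((j₀.insertNth a y' : Fin (k + 1) → X) j) (m j)) -
          fun j => coc S φ t ((j₀.insertNth b y' : Fin (k + 1) → X) j) (m j)) =
          Pi.single j₀ (coc S φ t a (m j₀) - coc S φ t b (m j₀)) := by
        funext j
        rw [Pi.sub_apply]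
        rcases Fin.eq_self_or_eq_succAbove j₀ j with rfl | ⟨i, rfl⟩
        · rw [Fin.insertNth_apply_same, Fin.insertNth_apply_same, Pi.single_eq_same]
        · rw [Fin.insertNth_apply_succAbove, Fin.insertNth_apply_succAbove, sub_self,
            Pi.single_eq_of_ne (Fin.succAbove_ne j₀ i)]
      rw [h3] at h2
      exact sub_eq_zero.1 (hW j₀ _ h2)
    have h2 : (μ.prod μ).real (Gy ×ˢ Gy) = μ.real Gy * μ.real Gy := by
      unfold Measure.real
      rw [Measure.prod_prod, ENNReal.toReal_mul]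
    rw [sq, ← h2]
    exact measureReal_mono h1 (measure_ne_top _ _)
  have hle : (Measure.pi fun _ : Fin (k + 1) => μ) E ≤
      ENNReal.ofReal (Real.sqrt ((μ.prod μ).real Z)) := by
    rw [hPE, Measure.prod_apply_symm (e.symm.measurable hEm)]
    calc ∫⁻ y', μ ((fun x => (x, y')) ⁻¹' (e.symm ⁻¹' E)) ∂(Measure.pi fun _ : Fin k => μ)
        ≤ ∫⁻ _ : Fin k → X, ENNReal.ofReal (Real.sqrt ((μ.prod μ).real Z))
            ∂(Measure.pi fun _ : Fin k => μ) := by
          refine lintegral_mono fun y' => ?_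
          rw [← ENNReal.ofReal_toReal (measure_ne_top μ _)]
          exact ENNReal.ofReal_le_ofReal (hbd y')
      _ = ENNReal.ofReal (Real.sqrt ((μ.prod μ).real Z)) := by
          rw [lintegral_const, measure_univ, mul_one]
  have hle' : (Measure.pi fun _ : Fin (k + 1) => μ).real E ≤
      Real.sqrt ((μ.prod μ).real Z) := by
    have := ENNReal.toReal_mono ENNReal.ofReal_ne_top hle
    rwa [ENNReal.toReal_ofReal (Real.sqrt_nonneg _)] at this
  calc ((Measure.pi fun _ : Fin (k + 1) => μ).real E) ^ 2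
      ≤ (Real.sqrt ((μ.prod μ).real Z)) ^ 2 :=
        pow_le_pow_left₀ measureReal_nonneg hle' 2
    _ = (μ.prod μ).real Z := Real.sq_sqrt measureReal_nonneg

end H567MM.P
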