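import Pool.Agent.H567R2.MMF.Base

/-!
Multiple mixing of skew products with non-commuting automorphisms: definitions.
-/

namespace H567MM

open MeasureTheory

noncomputable section

/-- the automorphism of the dual group of `M` which is dual to the automorphism `g` of `M`:
`(nact g y) m = y (g m)` -/
def nact {R M : Type*} [CommRing R] [AddCommGroup M] [Module R M] (g : M ≃ₗ[R] M)
    (y : Dual M) : Dual M := y.compAddMonoidHom (g : M →ₗ[R] M).toAddMonoidHom

/-- the skew product `(x, y) ↦ (S x, y ∘ φ(x))` -/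
def nskew {X R M : Type*} [CommRing R] [AddCommGroup M] [Module R M] (S : X → X)
    (φ : X → (M ≃ₗ[R] M)) (z : X × Dual M) : X × Dual M := (S z.1, nact (φ z.1) z.2)

/-- transient elements -/
def NTrans {X R M : Type*} [MeasurableSpace X] [CommRing R] [AddCommGroup M] [Module R M]
    (μ : Measure X) (S : X → X) (φ : X → (M ≃ₗ[R] M)) (m : M) : Prop :=
  ∀ m' : M, ∀ c : ℝ, 0 < c → ∃ N₀ : ℕ, ∀ N : ℕ, N₀ ≤ N →
    ∑ n ∈ Finset.range N, μ.real {x | coc S φ n x m = m'} < c * N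

/-- number of times `t < M` with `S^t ω ∈ A` and `C_t(ω) u ∈ W` -/
def hits {Ω K U : Type*} [Field K] [AddCommGroup U] [Module K U] (S : Ω → Ω)
    (C : Ω → (U ≃ₗ[K] U)) (A : Set Ω) (u : U) (W : Submodule K U) (M : ℕ) (ω : Ω) : ℕ :=
  Set.ncard {t : ℕ | t < M ∧ S^[t] ω ∈ A ∧ coc S C t ω u ∈ W}

/-- a random finite set of subspaces (`ω ∈ B W` means: `W` belongs to the set at `ω`) which is
equivariant under the cocycle -/
def IsFam {Ω K U : Type*} [MeasurableSpace Ω] [Field K] [AddCommGroup U] [Module K U]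
    (P : Measure Ω) (S : Ω → Ω) (C : Ω → (U ≃ₗ[K] U)) (B : Submodule K U → Set Ω) (f : ℕ) :
    Prop :=
  (∀ W, MeasurableSet (B W)) ∧
    (∀ᵐ ω ∂P, ∀ W : Submodule K U, (ω ∈ B (W.map (C ω : U →ₗ[K] U)) ↔ S ω ∈ B W)) ∧
    (∀ᵐ ω ∂P, {W | ω ∈ B W}.encard ≤ f)

/-- the span of the vectors `C_t(ω) u`, `t ∈ a` -/
def wsp {Ω K U : Type*} [Field K] [AddCommGroup U] [Module K U] (S : Ω → Ω)
    (C : Ω → (U ≃ₗ[K] U)) (u : U) (a : Finset ℕ) (ω : Ω) : Submodule K U :=
  Submodule.span K ((fun t => coc S C t ω u) '' (a : Set ℕ))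

/-- see `wsp` -/
def Esp {Ω K U : Type*} [Field K] [AddCommGroup U] [Module K U] (S : Ω → Ω)
    (C : Ω → (U ≃ₗ[K] U)) (A : Set Ω) (u : U) (G : Set (Submodule K U)) (a : Finset ℕ) : Set Ω :=
  {ω | wsp S C u a ω ∈ G ∧ ∀ t ∈ a, S^[t] ω ∈ A}

/-- the diagonal cocycle on the power -/
def piC {X K V : Type*} [Field K] [AddCommGroup V] [Module K V] {s : ℕ}
    (φ : X → (V ≃ₗ[K] V)) (y : Fin s → X) : (Fin s → V) ≃ₗ[K] (Fin s → V) :=
  LinearEquiv.piCongrRight fun j => φ (y j)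

/-- the diagonal cocycle on the square -/
def prC {X K V : Type*} [Field K] [AddCommGroup V] [Module K V]
    (φ : X → (V ≃ₗ[K] V)) (z : X × X) : (V × V) ≃ₗ[K] (V × V) :=
  (φ z.1).prodCongr (φ z.2)

/-- subspaces of the power without vectors supported in one coordinate -/
def GP {K V : Type*} [Field K] [AddCommGroup V] [Module K V] (s : ℕ) :
    Set (Submodule K (Fin s → V)) :=
  {W | ∀ (j : Fin s) (v : V), Pi.single j v ∈ W → v = 0}

/-- graphs of partial isomorphisms -/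
def G2 {K V : Type*} [Field K] [AddCommGroup V] [Module K V] : Set (Submodule K (V × V)) :=
  {W | ∀ v : V, ((v, 0) ∈ W → v = 0) ∧ ((0, v) ∈ W → v = 0)}

open Classical in
/-- action on the second coordinate -/
def imF {K V : Type*} [Field K] [AddCommGroup V] [Module K V] (g : V ≃ₗ[K] V)
    (F : Finset (Submodule K (V × V))) : Finset (Submodule K (V × V)) :=
  F.image fun W => W.map (LinearMap.prodMap (LinearMap.id : V →ₗ[K] V) (g : V →ₗ[K] V))

open Classical in
/-- action of the diagonal cocycle on finite sets of subspaces -/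
def imC {K V : Type*} [Field K] [AddCommGroup V] [Module K V] (g g' : V ≃ₗ[K] V)
    (F : Finset (Submodule K (V × V))) : Finset (Submodule K (V × V)) :=
  F.image fun W => W.map (LinearMap.prodMap (g : V →ₗ[K] V) (g' : V →ₗ[K] V))

/-- virtually constant subobjects -/
def VC {X K V : Type*} [MeasurableSpace X] (μ : Measure X) (S : X → X) [Field K]
    [AddCommGroup V] [Module K V] (φ : X → (V ≃ₗ[K] V)) (r : ℕ)
    (g : X → ((Fin r → K) →ₗ[K] V)) : Prop :=
  (∀ v v', MeasurableSet {x | g x v = v'}) ∧ (∀ᵐ x ∂μ, Function.Injective (g x)) ∧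
    ∃ (H : Subgroup ((Fin r → K) ≃ₗ[K] (Fin r → K))) (l : (Fin r → K) ≃ₗ[K] (Fin r → K)),
      Finite H ∧ (∀ h, h ∈ H ↔ l * h * l⁻¹ ∈ H) ∧
      ∀ᵐ x ∂μ, ∃ h ∈ H, ∀ v, φ x (g (S x) v) = g x (h (l v))

end

end H567MM
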