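import Pool.Agent.H567R2.MO.Stubs

/-! FS: only finitely many automorphisms of the span of the second projections. -/

namespace H567MM.P

open MeasureTheory Filter Topology

theorem FS_aux_zero {K V : Type*} [Field K] [AddCommGroup V] [Module K V]
    (g g' : V ≃ₗ[K] V) (W W' : Submodule K (V × V)) (hW' : W' ∈ G2 (K := K) (V := V))
    (h1 : W.map (LinearMap.prodMap (LinearMap.id : V →ₗ[K] V) (g : V →ₗ[K] V)) = W')
    (h2 : W.map (LinearMap.prodMap (LinearMap.id : V →ₗ[K] V) (g' : V →ₗ[K] V)) = W')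
    (v : V) (hv : v ∈ W.map (LinearMap.snd K V V)) : g v = g' v := by
  obtain ⟨⟨x, v'⟩, hx, rfl⟩ := hv
  have e1 : (x, g v') ∈ W' := by
    rw [← h1]; exact ⟨(x, v'), hx, rfl⟩
  have e2 : (x, g' v') ∈ W' := by
    rw [← h2]; exact ⟨(x, v'), hx, rfl⟩
  have e3 : ((0 : V), g v' - g' v') ∈ W' := by
    have := W'.sub_mem e1 e2
    simpa using this
  exact sub_eq_zero.mp ((hW' _).2 e3)

theorem fin_stab {X K V : Type*} [MeasurableSpace X] (μ : Measure X) [IsProbabilityMeasure μ]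
    [Field K] [AddCommGroup V] [Module K V] [FiniteDimensional K V] [Countable V]
    (F₀ : X → Finset (Submodule K (V × V))) (f : ℕ) (h0 : ∀ w, MeasurableSet {a | F₀ a = w})
    (hf : ∀ a, (F₀ a).card ≤ f) (hG : ∀ a, ∀ W ∈ F₀ a, W ∈ G2 (K := K) (V := V)) :
    ∃ V₀ : Submodule K V, (∀ᵐ a ∂μ, ∀ W ∈ F₀ a, W.map (LinearMap.snd K V V) ≤ V₀) ∧
      (∀ g : V ≃ₗ[K] V, (∀ᵐ a ∂μ, imF g (F₀ a) = F₀ a) →
        V₀.map (g : V →ₗ[K] V) = V₀) ∧
      {t : V₀ → V | ∃ g : V ≃ₗ[K] V, (∀ᵐ a ∂μ, imF g (F₀ a) = F₀ a) ∧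
        ∀ v : V₀, t v = g v}.Finite ∧
      (∀ V₁ : Submodule K V, (∀ᵐ a ∂μ, ∀ W ∈ F₀ a, W.map (LinearMap.snd K V V) ≤ V₁) →
        V₀ ≤ V₁) := by
  classical
  have : Countable (Submodule K (V × V)) := countable_submodule
  have : Countable (V ≃ₗ[K] V) := countable_equiv
  set Ess : Set (Submodule K (V × V)) := {W | ∃ᵐ a ∂μ, W ∈ F₀ a} with hEss
  set G₀ : Set (V ≃ₗ[K] V) := {g | ∀ᵐ a ∂μ, imF g (F₀ a) = F₀ a} with hG₀
  set V₀ : Submodule K V :=
    sSup ((fun W : Submodule K (V × V) => W.map (LinearMap.snd K V V)) '' Ess) with hV₀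
  have hle : ∀ W ∈ Ess, W.map (LinearMap.snd K V V) ≤ V₀ := fun W hW => le_sSup ⟨W, hW, rfl⟩
  have hae : ∀ᵐ a ∂μ, ∀ W ∈ F₀ a, W ∈ Ess := by
    have : ∀ᵐ a ∂μ, ∀ W : Submodule K (V × V), W ∉ Ess → W ∉ F₀ a := by
      rw [ae_all_iff]
      intro W
      by_cases hW : W ∈ Ess
      · exact Eventually.of_forall fun a h => absurd hW h
      · have : ∀ᵐ a ∂μ, W ∉ F₀ a := by
          simpa [hEss, Filter.not_frequently] using hW
        filter_upwards [this] with a ha _ using ha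
    filter_upwards [this] with a ha W hW
    by_contra hc
    exact ha W hc hW
  have hGall : ∀ᵐ a ∂μ, ∀ g : V ≃ₗ[K] V, g ∈ G₀ → imF g (F₀ a) = F₀ a := by
    rw [ae_all_iff]
    intro g
    by_cases hg : g ∈ G₀
    · have hg' : ∀ᵐ a ∂μ, imF g (F₀ a) = F₀ a := hg
      filter_upwards [hg'] with a ha _ using ha
    · exact Eventually.of_forall fun a h => absurd h hg
  refine ⟨V₀, ?_, ?_, ?_, ?_⟩
  · filter_upwards [hae] with a ha W hW using hle W (ha W hW)
  · intro g hg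
    have hsub : V₀.map (g : V →ₗ[K] V) ≤ V₀ := by
      rw [Submodule.map_le_iff_le_comap]
      refine sSup_le ?_
      rintro _ ⟨W, hW, rfl⟩
      have hW' : W.map (LinearMap.prodMap (LinearMap.id : V →ₗ[K] V) (g : V →ₗ[K] V)) ∈ Ess := by
        have h1 : ∃ᵐ a ∂μ, W ∈ F₀ a := hW
        refine (h1.and_eventually hg).mono fun a ha => ?_
        rw [← ha.2]
        unfold imF
        exact Finset.mem_image_of_mem _ ha.1
      rintro v ⟨⟨x, y⟩, hxy, rfl⟩
      exact hle _ hW' ⟨(x, g y), ⟨(x, y), hxy, rfl⟩, rfl⟩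
    refine Submodule.eq_of_le_of_finrank_eq hsub ?_
    exact LinearEquiv.finrank_map_eq g V₀
  · obtain ⟨t, hts, htV⟩ := CompleteLattice.WellFoundedGT.isSupFiniteCompact (Submodule K V)
      ((fun W : Submodule K (V × V) => W.map (LinearMap.snd K V V)) '' Ess)
    have hch : ∀ U : t, ∃ W : Submodule K (V × V), ∃ a : X, W ∈ F₀ a ∧
        (∀ g : V ≃ₗ[K] V, g ∈ G₀ → imF g (F₀ a) = F₀ a) ∧
        W.map (LinearMap.snd K V V) = (U : Submodule K V) := by
      rintro ⟨U, hU⟩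
      obtain ⟨W, hW, hWU⟩ := hts hU
      have h1 : ∃ᵐ a ∂μ, W ∈ F₀ a := hW
      obtain ⟨a, ha1, ha2⟩ := (h1.and_eventually hGall).exists
      exact ⟨W, a, ha1, ha2, hWU⟩
    choose W a hWa hga hWU using hch
    have hfin : {h : t → Set (V × V) | ∀ U : t, h U ∈
        ((fun W' : Submodule K (V × V) => (W' : Set (V × V))) '' (F₀ (a U) : Set _))}.Finite :=
      Set.Finite.pi' fun U => (F₀ (a U)).finite_toSet.image _
    have hUV : ∀ U : t, (U : Submodule K V) ≤ V₀ := by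
      intro U
      obtain ⟨W', hW', h⟩ := hts U.2
      rw [← h]
      exact hle W' hW'
    refine Set.Finite.of_injOn (f := fun (τ : V₀ → V) (U : t) =>
      {p : V × V | ∃ v : V₀, (p.1, (v : V)) ∈ W U ∧ p.2 = τ v}) ?_ ?_ hfin
    · rintro τ ⟨g, hg, hτ⟩ U
      refine ⟨(W U).map (LinearMap.prodMap (LinearMap.id : V →ₗ[K] V) (g : V →ₗ[K] V)), ?_, ?_⟩
      · have h1 := hga U g hg
        have : (W U).map (LinearMap.prodMap (LinearMap.id : V →ₗ[K] V) (g : V →ₗ[K] V)) ∈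
            imF g (F₀ (a U)) := by
          unfold imF
          exact Finset.mem_image_of_mem _ (hWa U)
        rw [h1] at this
        exact this
      · ext ⟨x, y⟩
        constructor
        · rintro ⟨⟨x', y'⟩, hxy, h⟩
          have hy' : y' ∈ V₀ := hUV U (by rw [← hWU U]; exact ⟨(x', y'), hxy, rfl⟩)
          refine ⟨⟨y', hy'⟩, ?_, ?_⟩
          · have : x' = x := congrArg Prod.fst h
            subst this
            exact hxy
          · rw [hτ]
            exact (congrArg Prod.snd h).symm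
        · rintro ⟨v, hv, h⟩
          refine ⟨(x, v), hv, ?_⟩
          have : y = g v := by rw [← hτ]; exact h
          rw [this]; rfl
    · rintro τ ⟨g, hg, hτ⟩ τ' ⟨g', hg', hτ'⟩ h
      have hgg : ∀ U : t, ∀ v ∈ (U : Submodule K V), g v = g' v := by
        intro U v hv
        have hU := congrFun h U
        rw [← hWU U] at hv
        obtain ⟨⟨x, v'⟩, hx, rfl⟩ := hv
        have hv' : v' ∈ V₀ := hUV U (by rw [← hWU U]; exact ⟨(x, v'), hx, rfl⟩)
        have e1 : ((x, g v') : V × V) ∈ {p : V × V | ∃ v : V₀, (p.1, (v : V)) ∈ W U ∧ p.2 = τ v} :=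
          ⟨⟨v', hv'⟩, hx, by rw [hτ]⟩
        have e2 : ((x, g v') : V × V) ∈ {p : V × V | ∃ v : V₀, (p.1, (v : V)) ∈ W U ∧
            p.2 = τ' v} := by
          simp only at hU
          rw [← hU]; exact e1
        obtain ⟨v'', hv'', hgv⟩ := e2
        -- `(x, v')` and `(x, v'')` are in `W U`
        have e3 : ((0 : V), v' - (v'' : V)) ∈ W U := by
          have := (W U).sub_mem hx hv''
          simpa using this
        have e4 : v' - (v'' : V) = 0 := (hG _ _ (hWa U) _).2 e3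
        have e5 : v' = (v'' : V) := sub_eq_zero.mp e4
        change g v' = g' v'
        have e6 : g v' = τ' v'' := hgv
        rw [e6, hτ', e5]
      have hle' : V₀ ≤ LinearMap.eqLocus (g : V →ₗ[K] V) (g' : V →ₗ[K] V) := by
        rw [hV₀, htV]
        refine Finset.sup_le fun U hU => ?_
        intro v hv
        exact hgg ⟨U, hU⟩ v hv
      funext v
      rw [hτ, hτ']
      exact hle' v.2
  · intro V₁ hV₁
    refine sSup_le ?_
    rintro _ ⟨W, hW, rfl⟩
    have h1 : ∃ᵐ a ∂μ, W ∈ F₀ a := hW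
    obtain ⟨a, ha1, ha2⟩ := (h1.and_eventually hV₁).exists
    exact ha2 W ha1

end H567MM.P
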