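import Pool.Agent.H567R2.MO.Stubs

set_option autoImplicit false

namespace H567MM.P

open MeasureTheory Filter Topology

theorem GR_iter {Ω K U : Type*} [Field K] [AddCommGroup U] [Module K U] (S : Ω → Ω)
    (C : Ω → (U ≃ₗ[K] U)) (n : ℕ) (ω : Ω) (W : Submodule K U) :
    (fun z : Ω × Submodule K U => (S z.1, (Submodule.orderIsoMapComap (C z.1)).toEquiv.symm z.2))^[n]
      (ω, W) = (S^[n] ω, W.comap ((coc S C n ω : U ≃ₗ[K] U) : U →ₗ[K] U)) := by
  induction n with
  | zero =>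
    simp only [Function.iterate_zero, id_eq]
    congr 1
  | succ n ih =>
    rw [Function.iterate_succ_apply', ih, Function.iterate_succ_apply']
    congr 1

theorem GR_meas_eq {Ω K U : Type*} [MeasurableSpace Ω] [Field K] [AddCommGroup U] [Module K U]
    [FiniteDimensional K U] [Countable U] (C : Ω → (U ≃ₗ[K] U))
    (hC : ∀ u u' : U, MeasurableSet {ω | C ω u = u'}) (g : U ≃ₗ[K] U) :
    MeasurableSet {ω | C ω = g} := by
  have h : {ω | C ω = g} = ⋂ u : U, {ω | C ω u = g u} := by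
    ext ω
    simp only [Set.mem_setOf_eq, Set.mem_iInter]
    constructor
    · intro h u; rw [h]
    · intro h; exact LinearEquiv.ext h
  rw [h]
  exact MeasurableSet.iInter fun u => hC u (g u)

theorem GR_map_G {Ω K U : Type*} [Field K] [AddCommGroup U] [Module K U] (S : Ω → Ω)
    (C : Ω → (U ≃ₗ[K] U)) (G : Set (Submodule K U))
    (hinv : ∀ ω (W : Submodule K U), W ∈ G ↔ W.map (C ω : U →ₗ[K] U) ∈ G) (n : ℕ) (ω : Ω)
    (W : Submodule K U) : W ∈ G ↔ W.map ((coc S C n ω : U ≃ₗ[K] U) : U →ₗ[K] U) ∈ G := by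
  induction n generalizing W with
  | zero =>
    have : W.map ((coc S C 0 ω : U ≃ₗ[K] U) : U →ₗ[K] U) = W := by
      ext v
      rw [Submodule.mem_map]
      constructor
      · rintro ⟨w, hw, rfl⟩; exact hw
      · intro hv; exact ⟨v, hv, rfl⟩
    rw [this]
  | succ n ih =>
    have : W.map ((coc S C (n + 1) ω : U ≃ₗ[K] U) : U →ₗ[K] U)
        = (W.map (C (S^[n] ω) : U →ₗ[K] U)).map ((coc S C n ω : U ≃ₗ[K] U) : U →ₗ[K] U) := by
      rw [← Submodule.map_comp]
      rfl
    rw [this, ← ih, ← hinv]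

theorem GR_comap_eq {K U : Type*} [Field K] [AddCommGroup U] [Module K U] (g : U ≃ₗ[K] U)
    (W W' : Submodule K U) : W.comap (g : U →ₗ[K] U) = W' ↔ W'.map (g : U →ₗ[K] U) = W := by
  constructor
  · rintro rfl
    exact Submodule.map_comap_eq_of_surjective g.surjective W
  · rintro rfl
    exact Submodule.comap_map_eq_of_injective g.injective W'

theorem gr_family {Ω K U : Type*} [MeasurableSpace Ω] (P : Measure Ω) [IsProbabilityMeasure P]
    (S : Ω → Ω) (hS : Ergodic S P) [Field K] [AddCommGroup U] [Module K U]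
    [FiniteDimensional K U] [Countable U] (C : Ω → (U ≃ₗ[K] U))
    (hC : ∀ u u' : U, MeasurableSet {ω | C ω u = u'}) (A : Set Ω) (hA : MeasurableSet A) (u : U)
    (G : Set (Submodule K U)) (hdown : ∀ W ∈ G, ∀ W' ≤ W, W' ∈ G)
    (hinv : ∀ ω (W : Submodule K U), W ∈ G ↔ W.map (C ω : U →ₗ[K] U) ∈ G) (c : ℝ)
    (hc : 0 < c)
    (h : ∀ M₀ : ℕ, ∃ M ≥ M₀, c ≤ P.real {ω | ∃ W ∈ G, c * M ≤ hits S C A u W M ω}) :
    ∃ (B : Submodule K U → Set Ω) (f : ℕ), IsFam P S C B f ∧ (∀ W, W ∉ G → B W = ∅) ∧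
      ∃ W, u ∈ W ∧ P (B W ∩ A) ≠ 0 := by
  classical
  have hSm : Measurable S := hS.toMeasurePreserving.measurable
  -- minimal dimension
  let Q : ℕ → Prop := fun r => ∃ c' : ℝ, 0 < c' ∧ ∀ M₀ : ℕ, ∃ M ≥ M₀,
    c' ≤ P.real {ω | ∃ W ∈ G, Module.finrank K W ≤ r ∧ c' * M ≤ hits S C A u W M ω}
  have hQ : ∃ r, Q r := by
    refine ⟨Module.finrank K U, c, hc, fun M₀ => ?_⟩
    obtain ⟨M, hM, h1⟩ := h M₀
    refine ⟨M, hM, h1.trans_eq ?_⟩
    congr 1
    ext ω
    simp only [Set.mem_setOf_eq]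
    constructor
    · rintro ⟨W, h1, h2⟩; exact ⟨W, h1, Submodule.finrank_le W, h2⟩
    · rintro ⟨W, h1, _, h2⟩; exact ⟨W, h1, h2⟩
  obtain ⟨r, hr, hmin0⟩ : ∃ r, Q r ∧ ∀ r' < r, ¬ Q r' :=
    ⟨Nat.find hQ, Nat.find_spec hQ, fun r' hr' => Nat.find_min hQ hr'⟩
  obtain ⟨c', hc', hr'⟩ := hr
  have hmin : ∀ c'' : ℝ, 0 < c'' → ∃ M₀ : ℕ, ∀ M ≥ M₀, P.real {ω | ∃ W ∈ G,
      Module.finrank K W < r ∧ c'' * M ≤ hits S C A u W M ω} < c'' := by
    intro c'' hc''
    rcases Nat.eq_zero_or_pos r with h0 | h0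
    · refine ⟨0, fun M _ => ?_⟩
      have : {ω | ∃ W ∈ G, Module.finrank K W < r ∧ c'' * M ≤ hits S C A u W M ω} = ∅ := by
        ext ω
        simp only [Set.mem_setOf_eq, Set.mem_empty_iff_false, iff_false]
        rintro ⟨W, _, h2, _⟩
        omega
      rw [this]
      simpa using hc''
    · have h1 := hmin0 (r - 1) (by omega)
      by_contra hcon
      push Not at hcon
      apply h1
      refine ⟨c'', hc'', fun M₀ => ?_⟩
      obtain ⟨M, hM, h2⟩ := hcon M₀
      refine ⟨M, hM, h2.trans_eq ?_⟩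
      congr 1
      ext ω
      simp only [Set.mem_setOf_eq]
      constructor
      · rintro ⟨W, h1, h3, h2⟩; exact ⟨W, h1, by omega, h2⟩
      · rintro ⟨W, h1, h3, h2⟩; exact ⟨W, h1, by omega, h2⟩
  obtain ⟨a, c₁, hane, hc₁, hrec⟩ := shape_rec P S hS.toMeasurePreserving C hC A hA u G hdown hinv r c'
    hc' hr' hmin
  -- the graph
  haveI : Countable (Submodule K U) := countable_submodule
  letI : MeasurableSpace (Submodule K U) := ⊤
  let e : Ω → (Submodule K U ≃ Submodule K U) := fun ω => (Submodule.orderIsoMapComap (C ω)).toEquiv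
  haveI : Countable (U ≃ₗ[K] U) := countable_equiv
  have he : ∀ q q', MeasurableSet {ω | e ω q = q'} := by
    intro q q'
    have h1 : {ω | e ω q = q'} = ⋃ g ∈ {g : U ≃ₗ[K] U | q.map (g : U →ₗ[K] U) = q'}, {ω | C ω = g} := by
      ext ω
      simp only [Set.mem_setOf_eq, Set.mem_iUnion, exists_prop]
      constructor
      · intro h; exact ⟨C ω, h, rfl⟩
      · rintro ⟨g, h2, rfl⟩; exact h2
    rw [h1]
    exact MeasurableSet.biUnion (Set.to_countable _) fun g _ => GR_meas_eq C hC g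
  have hτ := perm_mp P S hS.toMeasurePreserving e he
  have hw : Measurable (wsp S C u a) := by
    refine measurable_to_countable' fun W => ?_
    exact wsp_meas S hSm C hC u a W
  have hE : MeasurableSet (Esp S C A u G a) := by
    have h1 : Esp S C A u G a = (⋃ W ∈ G, {ω | wsp S C u a ω = W}) ∩
        ⋂ t ∈ a, (S^[t]) ⁻¹' A := by
      ext ω
      simp only [Esp, Set.mem_setOf_eq, Set.mem_inter_iff, Set.mem_iUnion, Set.mem_iInter,
        Set.mem_preimage, exists_prop]
      constructor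
      · rintro ⟨h1, h2⟩; exact ⟨⟨_, h1, rfl⟩, h2⟩
      · rintro ⟨⟨W, h1, h3⟩, h2⟩; exact ⟨h3 ▸ h1, h2⟩
    rw [h1]
    refine MeasurableSet.inter ?_ ?_
    · exact MeasurableSet.biUnion (Set.to_countable _) fun W _ => wsp_meas S hSm C hC u a W
    · exact Finset.measurableSet_biInter a fun t _ => (hSm.iterate t) hA
  have hrec' : ∀ N₀ : ℕ, ∃ N ≥ N₀, c₁ * N ≤ ∑ n ∈ Finset.range N, P.real {ω | ω ∈ Esp S C A u G a ∧
      ((fun z : Ω × Submodule K U => (S z.1, (e z.1).symm z.2))^[n] (ω, wsp S C u a ω)).1 ∈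
        Esp S C A u G a ∧
      ((fun z : Ω × Submodule K U => (S z.1, (e z.1).symm z.2))^[n] (ω, wsp S C u a ω)).2 =
        wsp S C u a ((fun z : Ω × Submodule K U => (S z.1, (e z.1).symm z.2))^[n]
          (ω, wsp S C u a ω)).1} := by
    intro N₀
    obtain ⟨N, hN, h1⟩ := hrec N₀
    refine ⟨N, hN, h1.trans_eq ?_⟩
    refine Finset.sum_congr rfl fun n _ => ?_
    congr 1
    ext ω
    have h2 := GR_iter S C n ω (wsp S C u a ω)
    simp only [Set.mem_setOf_eq]
    simp only [e]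
    rw [h2]
    simp only
    rw [GR_comap_eq]
  obtain ⟨B₀, hB₀m, hB₀f, hB₀p, hB₀i⟩ := inv_set_graph P _ hτ (wsp S C u a) hw (Esp S C A u G a) hE c₁
    hc₁ hrec'
  obtain ⟨f, hf⟩ := perm_card P S hS e B₀ hB₀m hB₀f hB₀i
  refine ⟨fun W => if W ∈ G then {ω | (ω, W) ∈ B₀} else ∅, f, ⟨?_, ?_, ?_⟩, ?_, ?_⟩
  · intro W
    simp only
    split_ifs
    · exact measurable_prodMk_right hB₀m
    · exact MeasurableSet.empty
  · filter_upwards [hB₀i] with ω hω
    intro W
    by_cases hW : W ∈ G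
    · have hW' := (hinv ω W).mp hW
      rw [if_pos hW, if_pos hW']
      simp only [Set.mem_setOf_eq]
      have h1 := hω (W.map (C ω : U →ₗ[K] U))
      rw [h1]
      have h2 : (e ω).symm (W.map (C ω : U →ₗ[K] U)) = W :=
        (e ω).symm_apply_apply W
      rw [h2]
    · have hW' : ¬ W.map (C ω : U →ₗ[K] U) ∈ G := fun h => hW ((hinv ω W).mpr h)
      rw [if_neg hW, if_neg hW']
      simp
  · filter_upwards [hf] with ω hω
    refine le_trans (Set.encard_le_encard ?_) hω
    intro W hW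
    simp only [Set.mem_setOf_eq] at hW ⊢
    split_ifs at hW with h1
    · exact hW
    · exact absurd hW (Set.notMem_empty _)
  · intro W hW
    simp only [if_neg hW]
  · by_contra hcon
    push Not at hcon
    obtain ⟨t₀, ht₀⟩ := hane
    apply hB₀p
    -- invariance along the orbit
    have hall : ∀ᵐ ω ∂P, ∀ n : ℕ, ∀ q, ((S^[n] ω, q) ∈ B₀ ↔ (S (S^[n] ω), (e (S^[n] ω)).symm q) ∈ B₀) :=
      ae_all_iff.mpr fun n => (hS.toMeasurePreserving.iterate n).quasiMeasurePreserving.ae hB₀i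
    have hzero : ∀ᵐ ω ∂P, ∀ W : Submodule K U, u ∈ W → W ∈ G → S^[t₀] ω ∈ A → (S^[t₀] ω, W) ∉ B₀ := by
      rw [ae_all_iff]
      intro W
      by_cases huW : u ∈ W
      · by_cases hWG : W ∈ G
        · have h1 := hcon W huW
          simp only [if_pos hWG] at h1
          have h2 : ∀ᵐ ω ∂P, ω ∉ {ω | (ω, W) ∈ B₀} ∩ A := by
            rw [ae_iff]
            convert h1 using 2
            ext ω
            simp
          have h3 := (hS.toMeasurePreserving.iterate t₀).quasiMeasurePreserving.ae h2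
          filter_upwards [h3] with ω hω _ _ hA' hB'
          exact hω ⟨hB', hA'⟩
        · exact Filter.Eventually.of_forall fun ω _ h => absurd h hWG
      · exact Filter.Eventually.of_forall fun ω h => absurd h huW
    have hae : ∀ᵐ ω ∂P, ω ∉ {ω | ω ∈ Esp S C A u G a ∧ (ω, wsp S C u a ω) ∈ B₀} := by
      filter_upwards [hall, hzero] with ω h1 h2
      rintro ⟨⟨hG, hEA⟩, hB⟩
      have hit : ∀ n, ((S^[n] ω, (wsp S C u a ω).comap ((coc S C n ω : U ≃ₗ[K] U) : U →ₗ[K] U)) ∈ B₀) := by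
        intro n
        induction n with
        | zero =>
          have := GR_iter S C 0 ω (wsp S C u a ω)
          simp only [Function.iterate_zero, id_eq] at this
          rw [Function.iterate_zero, id_eq, ← this]
          exact hB
        | succ n ih =>
          have h3 := (h1 n _).mp ih
          have h4 := GR_iter S C (n + 1) ω (wsp S C u a ω)
          rw [Function.iterate_succ_apply', GR_iter S C n ω] at h4
          rw [← h4]
          exact h3
      refine h2 ((wsp S C u a ω).comap ((coc S C t₀ ω : U ≃ₗ[K] U) : U →ₗ[K] U)) ?_ ?_ (hEA t₀ ht₀)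
        (hit t₀)
      · rw [Submodule.mem_comap]
        exact Submodule.subset_span ⟨t₀, ht₀, rfl⟩
      · rw [GR_map_G S C G hinv t₀ ω]
        have : ((wsp S C u a ω).comap ((coc S C t₀ ω : U ≃ₗ[K] U) : U →ₗ[K] U)).map
            ((coc S C t₀ ω : U ≃ₗ[K] U) : U →ₗ[K] U) = wsp S C u a ω :=
          (GR_comap_eq _ _ _).mp rfl
        rw [this]
        exact hG
    rw [ae_iff] at hae
    simpa using hae

end H567MM.P
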