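import Pool.Agent.H567R2.MO.Stubs

/-! GS: virtually constant subobjects. -/

namespace H567MM.P

open MeasureTheory Filter Topology

theorem GS_aux_cap {X κ : Type*} [MeasurableSpace X] (μ : Measure X) [IsProbabilityMeasure μ]
    [Countable κ] (R : X → κ → Prop) (hR : ∀ v, MeasurableSet {x | R x v})
    (hfin : ∀ᵐ x ∂μ, {v | R x v}.Finite) (ε : ℝ) (hε : 0 < ε) :
    ∃ F : Finset κ, MeasurableSet {x | ∃ v, v ∉ F ∧ R x v} ∧ μ.real {x | ∃ v, v ∉ F ∧ R x v} < ε := by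
  classical
  obtain ⟨e, he⟩ := exists_injective_nat κ
  have hmeas : ∀ F : κ → Prop, MeasurableSet {x | ∃ v, F v ∧ R x v} := by
    intro F
    have : {x | ∃ v, F v ∧ R x v} = ⋃ v : κ, {x | F v ∧ R x v} := by
      ext x
      simp
    rw [this]
    refine MeasurableSet.iUnion fun v => ?_
    by_cases hv : F v
    · have : {x | F v ∧ R x v} = {x | R x v} := by
        ext x
        simp [hv]
      rw [this]
      exact hR v
    · have : {x | F v ∧ R x v} = ∅ := by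
        ext x
        simp [hv]
      rw [this]
      exact MeasurableSet.empty
  have hanti : Antitone (fun n : ℕ => {x | ∃ v, n ≤ e v ∧ R x v}) := by
    intro n m hnm x hx
    obtain ⟨v, hv, hRv⟩ := hx
    exact ⟨v, hnm.trans hv, hRv⟩
  have hlim := tendsto_measure_iInter_atTop (μ := μ)
    (s := fun n : ℕ => {x | ∃ v, n ≤ e v ∧ R x v})
    (fun n => (hmeas fun v => n ≤ e v).nullMeasurableSet) hanti ⟨0, measure_ne_top _ _⟩
  have hzero : μ (⋂ n : ℕ, {x | ∃ v, n ≤ e v ∧ R x v}) = 0 := by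
    refine measure_mono_null ?_ (ae_iff.1 hfin)
    intro x hx
    simp only [Set.mem_iInter, Set.mem_ofPred_eq] at hx ⊢
    intro hf
    obtain ⟨N, hN⟩ := (hf.image e).bddAbove
    obtain ⟨v, hv, hRv⟩ := hx (N + 1)
    have : e v ≤ N := hN ⟨v, hRv, rfl⟩
    omega
  rw [hzero] at hlim
  have hev := (hlim.eventually (gt_mem_nhds (ENNReal.ofReal_pos.2 hε)))
  obtain ⟨n, hn⟩ := hev.exists
  have hfs : {v : κ | e v < n}.Finite := by
    have : {v : κ | e v < n} = e ⁻¹' (Set.Iio n) := rfl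
    rw [this]
    exact (Set.finite_Iio n).preimage he.injOn
  refine ⟨hfs.toFinset, hmeas _, ?_⟩
  have hsub : {x | ∃ v, v ∉ hfs.toFinset ∧ R x v} ⊆ {x | ∃ v, n ≤ e v ∧ R x v} := by
    rintro x ⟨v, hv, hRv⟩
    refine ⟨v, ?_, hRv⟩
    rw [Set.Finite.mem_toFinset, Set.mem_ofPred_eq, not_lt] at hv
    exact hv
  have h1 : μ {x | ∃ v, v ∉ hfs.toFinset ∧ R x v} < ENNReal.ofReal ε :=
    (measure_mono hsub).trans_lt hn
  rw [Measure.real]
  exact (ENNReal.toReal_lt_of_lt_ofReal h1)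

theorem GS_aux_num {ι : Type*} (P : Finset ι) (a : ℕ → ι → ℝ) (ha : ∀ n p, 0 ≤ a n p) (r : ℕ)
    (hr : 0 < r)
    (hT : ∀ p ∈ P, ∀ c : ℝ, 0 < c → ∃ N₀ : ℕ, ∀ N : ℕ, N₀ ≤ N →
      ∑ n ∈ Finset.range N, a n p < c * N)
    (low : ∀ t : ℕ, 1 / 2 ≤ ∑ p ∈ P, a (r * t) p) : False := by
  classical
  set K : ℕ := P.card with hK
  have hr' : (0 : ℝ) < r := by exact_mod_cast hr
  have hc0 : (0 : ℝ) < 1 / (4 * r * (K + 1)) := by positivity
  have hN : ∀ p : ι, ∃ N₀ : ℕ, p ∈ P → ∀ N : ℕ, N₀ ≤ N →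
      ∑ n ∈ Finset.range N, a n p < 1 / (4 * r * (K + 1)) * N := by
    intro p
    by_cases hp : p ∈ P
    · obtain ⟨N₀, h⟩ := hT p hp _ hc0
      exact ⟨N₀, fun _ => h⟩
    · exact ⟨0, fun h => absurd h hp⟩
  choose N₀ hN₀ using hN
  set T : ℕ := (∑ p ∈ P, N₀ p) + 1 with hTd
  have hTr : T ≤ r * T := Nat.le_mul_of_pos_left _ hr
  have up : ∀ p ∈ P, ∑ n ∈ Finset.range (r * T), a n p ≤
      1 / (4 * r * (K + 1)) * (r * T : ℕ) := by
    intro p hp
    apply (hN₀ p hp (r * T) _).le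
    have : N₀ p ≤ ∑ p ∈ P, N₀ p :=
      Finset.single_le_sum (f := fun w => N₀ w) (fun _ _ => Nat.zero_le _) hp
    omega
  have h5 : ∑ p ∈ P, ∑ n ∈ Finset.range (r * T), a n p ≤
      K * (1 / (4 * r * (K + 1)) * (r * T : ℕ)) := by
    have := Finset.sum_le_sum up
    rwa [Finset.sum_const, nsmul_eq_mul] at this
  have h6 : ∑ t ∈ Finset.range T, ∑ p ∈ P, a (r * t) p ≤
      ∑ n ∈ Finset.range (r * T), ∑ p ∈ P, a n p := by
    have hinj : Set.InjOn (fun t : ℕ => r * t) (Finset.range T : Set ℕ) := by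
      intro x _ y _ hxy
      exact Nat.eq_of_mul_eq_mul_left hr hxy
    rw [← Finset.sum_image (g := fun t : ℕ => r * t)
      (f := fun n => ∑ p ∈ P, a n p) hinj]
    apply Finset.sum_le_sum_of_subset_of_nonneg
    · intro n hn
      obtain ⟨t, ht, rfl⟩ := Finset.mem_image.1 hn
      rw [Finset.mem_range] at ht ⊢
      exact Nat.mul_lt_mul_of_pos_left ht hr
    · intro _ _ _
      exact Finset.sum_nonneg fun _ _ => ha _ _
  have h7 : (T : ℝ) * (1 / 2) ≤ ∑ t ∈ Finset.range T, ∑ p ∈ P, a (r * t) p := by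
    have := Finset.sum_le_sum (fun t (_ : t ∈ Finset.range T) => low t)
    rwa [Finset.sum_const, Finset.card_range, nsmul_eq_mul] at this
  rw [Finset.sum_comm] at h5
  have h8 : (K : ℝ) * (1 / (4 * r * (K + 1)) * (r * T : ℕ)) ≤ T * (1 / 4) := by
    push_cast
    have e : (K : ℝ) * (1 / (4 * r * (K + 1)) * (r * T)) = T * (1 / 4) * (K / (K + 1)) := by
      field_simp
    rw [e]
    have hk : (K : ℝ) / (K + 1) ≤ 1 := by
      rw [div_le_one (by positivity)]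
      linarith
    have hT0 : (0 : ℝ) ≤ T * (1 / 4) := by positivity
    exact mul_le_of_le_one_right hT0 hk
  have hT1 : (1 : ℝ) ≤ T := by
    rw [hTd]; push_cast
    have : (0 : ℝ) ≤ ∑ w ∈ P, (N₀ w : ℝ) := Finset.sum_nonneg fun _ _ => Nat.cast_nonneg _
    linarith
  linarith

section

variable {X K V : Type*} [MeasurableSpace X] (μ : Measure X) [IsProbabilityMeasure μ]
    (S : X → X) (hS : MeasurePreserving S μ μ) [Field K]
    [AddCommGroup V] [Module K V] (φ : X → (V ≃ₗ[K] V)) (r : ℕ) (g : X → ((Fin r → K) →ₗ[K] V))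
    (H : Subgroup ((Fin r → K) ≃ₗ[K] (Fin r → K))) (l : (Fin r → K) ≃ₗ[K] (Fin r → K))
    (hl : ∀ h, h ∈ H ↔ l * h * l⁻¹ ∈ H)

include hl in
theorem GS_aux_conj (h : (Fin r → K) ≃ₗ[K] (Fin r → K)) (hh : h ∈ H) :
    ∃ k ∈ H, ∀ v, h (l v) = l (k v) := by
  refine ⟨l⁻¹ * h * l, ?_, ?_⟩
  · rw [hl]
    have : l * (l⁻¹ * h * l) * l⁻¹ = h := by group
    rw [this]
    exact hh
  · intro v
    change h (l v) = l (l.symm (h (l v)))
    rw [LinearEquiv.apply_symm_apply]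

include hl in
theorem GS_aux_conj' (h : (Fin r → K) ≃ₗ[K] (Fin r → K)) (hh : h ∈ H) (n : ℕ) :
    ∃ k ∈ H, ∀ v, l^[n] (h v) = k (l^[n] v) := by
  induction n with
  | zero => exact ⟨h, hh, fun v => rfl⟩
  | succ n ih =>
    obtain ⟨k, hk, hkv⟩ := ih
    refine ⟨l * k * l⁻¹, (hl k).1 hk, ?_⟩
    intro v
    rw [Function.iterate_succ_apply', Function.iterate_succ_apply', hkv]
    change l (k (l^[n] v)) = l (k (l.symm (l (l^[n] v))))
    rw [LinearEquiv.symm_apply_apply]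

include hl in
theorem GS_aux_coc (x : X)
    (hx : ∀ n : ℕ, ∃ h ∈ H, ∀ v, φ (S^[n] x) (g (S (S^[n] x)) v) = g (S^[n] x) (h (l v)))
    (n : ℕ) : ∃ h ∈ H, ∀ v, coc S φ n x (g (S^[n] x) v) = g x (l^[n] (h v)) := by
  induction n with
  | zero => exact ⟨1, H.one_mem, fun v => rfl⟩
  | succ n ih =>
    obtain ⟨h, hh, hv⟩ := ih
    obtain ⟨h', hh', hv'⟩ := hx n
    obtain ⟨k, hk, hkv⟩ := GS_aux_conj r H l hl (h * h') (H.mul_mem hh hh')
    refine ⟨k, hk, ?_⟩
    intro v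
    have e1 : coc S φ (n + 1) x (g (S^[n + 1] x) v) =
        coc S φ n x (φ (S^[n] x) (g (S^[n + 1] x) v)) := rfl
    rw [e1, Function.iterate_succ_apply' S n x, hv' v, hv]
    have e2 : h (h' (l v)) = l (k v) := hkv v
    rw [e2, Function.iterate_succ_apply]

include hS hl in
theorem GS_aux_ae (hae : ∀ᵐ x ∂μ, ∃ h ∈ H, ∀ v, φ x (g (S x) v) = g x (h (l v))) :
    ∀ᵐ x ∂μ, ∀ n : ℕ, ∃ h ∈ H, ∀ v, coc S φ n x (g (S^[n] x) v) = g x (l^[n] (h v)) := by
  have h1 : ∀ᵐ x ∂μ, ∀ n : ℕ, ∃ h ∈ H, ∀ v,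
      φ (S^[n] x) (g (S (S^[n] x)) v) = g (S^[n] x) (h (l v)) :=
    ae_all_iff.2 fun n => (hS.iterate n).quasiMeasurePreserving.ae hae
  filter_upwards [h1] with x hx n
  exact GS_aux_coc S φ r g H l hl x hx n

include hS hl in
theorem GS_aux_one [Countable K] [FiniteDimensional K V] [Countable V] [Finite H]
    (htr : ∀ v : V, v ≠ 0 → NTrans μ S φ v)
    (hgm : ∀ v v', MeasurableSet {x | g x v = v'})
    (hinj : ∀ᵐ x ∂μ, Function.Injective (g x))
    (hae : ∀ᵐ x ∂μ, ∃ h ∈ H, ∀ v, φ x (g (S x) v) = g x (h (l v)))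
    (r0 : ℕ) (hr0 : 0 < r0) (v : Fin r → K) (hv : l^[r0] v = v) : v = 0 := by
  classical
  by_contra hv0
  obtain ⟨F1, hF1m, hF1⟩ := GS_aux_cap μ (fun x (w : V) => g x v = w) (fun w => hgm v w)
    (Filter.Eventually.of_forall fun x => by
      have : {w : V | g x v = w} = {g x v} := by
        ext w
        simp [eq_comm]
      rw [this]
      exact Set.finite_singleton _) (1 / 4) (by norm_num)
  obtain ⟨F2, hF2m, hF2⟩ := GS_aux_cap μ (fun x (w : V) => ∃ h : H, g x (h.1 v) = w)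
    (fun w => by
      have : {x | ∃ h : H, g x (h.1 v) = w} = ⋃ h : H, {x | g x (h.1 v) = w} := by
        ext x
        simp
      rw [this]
      exact MeasurableSet.iUnion fun h => hgm _ _)
    (Filter.Eventually.of_forall fun x => by
      have : {w : V | ∃ h : H, g x (h.1 v) = w} = Set.range (fun h : H => g x (h.1 v)) := rfl
      rw [this]
      exact Set.finite_range _) (1 / 4) (by norm_num)
  have hmain := GS_aux_ae μ S hS φ r g H l hl hae
  have hinj' : ∀ᵐ x ∂μ, ∀ n : ℕ, Function.Injective (g (S^[n] x)) :=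
    ae_all_iff.2 fun n => (hS.iterate n).quasiMeasurePreserving.ae hinj
  refine GS_aux_num ((F1.erase 0) ×ˢ F2) (fun n p => μ.real {x | coc S φ n x p.1 = p.2})
    (fun _ _ => measureReal_nonneg) r0 hr0 ?_ ?_
  · rintro ⟨w, w'⟩ hp c hc
    rw [Finset.mem_product] at hp
    exact htr w (Finset.ne_of_mem_erase hp.1) w' c hc
  · intro t
    have hfix : l^[r0 * t] v = v := by
      rw [Function.iterate_mul]
      exact Function.iterate_fixed hv t
    have hN : μ.real {x | ¬ ((∀ n : ℕ, ∃ h ∈ H, ∀ v,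
        coc S φ n x (g (S^[n] x) v) = g x (l^[n] (h v))) ∧
        ∀ n : ℕ, Function.Injective (g (S^[n] x)))} = 0 := by
      have := ae_iff.1 (hmain.and hinj')
      rw [Measure.real, this, ENNReal.toReal_zero]
    have hcov : (Set.univ : Set X) ⊆
        (((⋃ p ∈ (F1.erase 0) ×ˢ F2, {x | coc S φ (r0 * t) x p.1 = p.2}) ∪
          (S^[r0 * t] ⁻¹' {x | ∃ w, w ∉ F1 ∧ g x v = w})) ∪
          {x | ∃ w, w ∉ F2 ∧ ∃ h : H, g x (h.1 v) = w}) ∪
        {x | ¬ ((∀ n : ℕ, ∃ h ∈ H, ∀ v,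
        coc S φ n x (g (S^[n] x) v) = g x (l^[n] (h v))) ∧
        ∀ n : ℕ, Function.Injective (g (S^[n] x)))} := by
      intro x _
      by_contra hcon
      simp only [Set.mem_union, not_or, Set.mem_ofPred_eq, not_not] at hcon
      obtain ⟨⟨⟨hc1, hc2⟩, hc3⟩, hc4, hc5⟩ := hcon
      obtain ⟨h, hh, hx⟩ := hc4 (r0 * t)
      obtain ⟨k, hk, hkv⟩ := GS_aux_conj' r H l hl h hh (r0 * t)
      have e1 : coc S φ (r0 * t) x (g (S^[r0 * t] x) v) = g x (k v) := by
        rw [hx, hkv, hfix]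
      have e2 : g (S^[r0 * t] x) v ∈ F1 := by
        by_contra hcc
        exact hc2 ⟨_, hcc, rfl⟩
      have e3 : g x (k v) ∈ F2 := by
        by_contra hcc
        exact hc3 ⟨_, hcc, ⟨k, hk⟩, rfl⟩
      have e4 : g (S^[r0 * t] x) v ≠ 0 := by
        intro h0
        apply hv0
        apply hc5 (r0 * t)
        rw [h0, map_zero]
      apply hc1
      simp only [Set.mem_iUnion]
      refine ⟨(g (S^[r0 * t] x) v, g x (k v)), ?_, e1⟩
      rw [Finset.mem_product]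
      exact ⟨Finset.mem_erase.2 ⟨e4, e2⟩, e3⟩
    have h1 := measureReal_mono (μ := μ) hcov (measure_ne_top _ _)
    rw [probReal_univ] at h1
    have h2 := measureReal_union_le (μ := μ)
      (((⋃ p ∈ (F1.erase 0) ×ˢ F2, {x | coc S φ (r0 * t) x p.1 = p.2}) ∪
          (S^[r0 * t] ⁻¹' {x | ∃ w, w ∉ F1 ∧ g x v = w})) ∪
          {x | ∃ w, w ∉ F2 ∧ ∃ h : H, g x (h.1 v) = w})
      {x | ¬ ((∀ n : ℕ, ∃ h ∈ H, ∀ v,
        coc S φ n x (g (S^[n] x) v) = g x (l^[n] (h v))) ∧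
        ∀ n : ℕ, Function.Injective (g (S^[n] x)))}
    have h3 := measureReal_union_le (μ := μ)
      ((⋃ p ∈ (F1.erase 0) ×ˢ F2, {x | coc S φ (r0 * t) x p.1 = p.2}) ∪
          (S^[r0 * t] ⁻¹' {x | ∃ w, w ∉ F1 ∧ g x v = w}))
          {x | ∃ w, w ∉ F2 ∧ ∃ h : H, g x (h.1 v) = w}
    have h4 := measureReal_union_le (μ := μ)
      (⋃ p ∈ (F1.erase 0) ×ˢ F2, {x | coc S φ (r0 * t) x p.1 = p.2})
          (S^[r0 * t] ⁻¹' {x | ∃ w, w ∉ F1 ∧ g x v = w})
    have h5 : μ.real (⋃ p ∈ (F1.erase 0) ×ˢ F2, {x | coc S φ (r0 * t) x p.1 = p.2}) ≤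
        ∑ p ∈ (F1.erase 0) ×ˢ F2, μ.real {x | coc S φ (r0 * t) x p.1 = p.2} :=
      measureReal_biUnion_finset_le _ _
    have h6 : μ.real (S^[r0 * t] ⁻¹' {x | ∃ w, w ∉ F1 ∧ g x v = w}) =
        μ.real {x | ∃ w, w ∉ F1 ∧ g x v = w} := by
      rw [Measure.real, Measure.real, (hS.iterate (r0 * t)).measure_preimage
        hF1m.nullMeasurableSet]
    rw [h6] at h4
    rw [hN] at h2
    linarith

end

theorem small_vc {X K V : Type*} [MeasurableSpace X] (μ : Measure X) [IsProbabilityMeasure μ]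
    (S : X → X) (hS : MeasurePreserving S μ μ) [Field K] [Countable K]
    [AddCommGroup V] [Module K V] [FiniteDimensional K V] [Countable V] (φ : X → (V ≃ₗ[K] V))
    (hφ : ∀ v v' : V, MeasurableSet {x | φ x v = v'}) (htr : ∀ v : V, v ≠ 0 → NTrans μ S φ v)
    (r : ℕ) (g : X → ((Fin r → K) →ₗ[K] V)) (hg : VC μ S φ r g) {s : ℕ} (m : Fin s → V)
    (hm : m ≠ 0) (ε : ℝ) (hε : 0 < ε) : ∃ G : ℕ, ∀ n : Fin s → ℕ, Gaps G n →
      μ.real {x | (∀ j, m j ∈ LinearMap.range (g (S^[n j] x))) ∧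
        ∑ j, coc S φ (n j) x (m j) = 0} < ε := by
  classical
  obtain ⟨hgm, hinj, H, l, hfin, hl, hae⟩ := hg
  have hone := GS_aux_one μ S hS φ r g H l hl htr hgm hinj hae
  have hmain := GS_aux_ae μ S hS φ r g H l hl hae
  have hs : (0 : ℝ) < (s : ℝ) + 1 := by positivity
  have hF : ∀ j : Fin s, ∃ F : Finset (Fin r → K),
      MeasurableSet {x | ∃ v, v ∉ F ∧ g x v = m j} ∧
      μ.real {x | ∃ v, v ∉ F ∧ g x v = m j} < ε / (s + 1) := by
    intro j
    refine GS_aux_cap μ (fun x (v : Fin r → K) => g x v = m j) (fun v => hgm v (m j)) ?_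
      (ε / (s + 1)) (by positivity)
    filter_upwards [hinj] with x hx
    refine Set.Subsingleton.finite ?_
    intro a ha b hb
    exact hx (Eq.trans ha (Eq.symm hb))
  choose F hFm hFs using hF
  have hHf : Fintype H := Fintype.ofFinite H
  -- the finite set of vectors
  set W : Fin s → Finset (Fin r → K) := fun j =>
    ((Finset.univ : Finset H) ×ˢ F j).image (fun p => p.1.1 p.2) with hW
  have hG : ∀ w : Fin s → (Fin r → K), ∃ G : ℕ, w ≠ 0 → ∀ n : Fin s → ℕ, Gaps G n →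
      ∑ i, l^[n i] (w i) ≠ 0 := by
    intro w
    by_cases hw : w = 0
    · exact ⟨0, fun h => absurd hw h⟩
    · obtain ⟨G, h⟩ := gap_aut l.toAddEquiv (fun r0 hr0 v hv => hone r0 hr0 v hv) w hw
      exact ⟨G, fun _ => h⟩
  choose G hG using hG
  refine ⟨(Fintype.piFinset W).sup G, fun n hn => ?_⟩
  have hN : μ.real {x | ¬ ((∀ n : ℕ, ∃ h ∈ H, ∀ v,
        coc S φ n x (g (S^[n] x) v) = g x (l^[n] (h v))) ∧ Function.Injective (g x))} = 0 := by
    have := ae_iff.1 (hmain.and hinj)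
    rw [Measure.real, this, ENNReal.toReal_zero]
  have hsub : {x | (∀ j, m j ∈ LinearMap.range (g (S^[n j] x))) ∧
      ∑ j, coc S φ (n j) x (m j) = 0} ⊆
      (⋃ j ∈ (Finset.univ : Finset (Fin s)), (S^[n j] ⁻¹' {x | ∃ v, v ∉ F j ∧ g x v = m j})) ∪
      {x | ¬ ((∀ n : ℕ, ∃ h ∈ H, ∀ v,
        coc S φ n x (g (S^[n] x) v) = g x (l^[n] (h v))) ∧ Function.Injective (g x))} := by
    rintro x ⟨hx1, hx2⟩
    by_contra hcon
    simp only [Set.mem_union, not_or, Set.mem_ofPred_eq, not_not, Set.mem_iUnion, not_exists]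
      at hcon
    obtain ⟨hc1, hc2, hc3⟩ := hcon
    choose v hv using hx1
    have hvF : ∀ j, v j ∈ F j := by
      intro j
      by_contra hcc
      exact hc1 j (Finset.mem_univ j) ⟨v j, hcc, hv j⟩
    have hh : ∀ j, ∃ h ∈ H, coc S φ (n j) x (m j) = g x (l^[n j] (h (v j))) := by
      intro j
      obtain ⟨h, hh, hx⟩ := hc2 (n j)
      exact ⟨h, hh, by rw [← hv j, hx]⟩
    choose h hh hhv using hh
    have hsum : g x (∑ j, l^[n j] (h j (v j))) = 0 := by
      rw [map_sum, ← hx2]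
      exact Finset.sum_congr rfl fun j _ => (hhv j).symm
    have hsum0 : ∑ j, l^[n j] (h j (v j)) = 0 := by
      apply hc3
      rw [hsum, map_zero]
    have hw : (fun j => h j (v j)) ≠ 0 := by
      intro h0
      apply hm
      funext j
      have h1 : h j (v j) = 0 := congrFun h0 j
      have h2 : v j = 0 := (LinearEquiv.map_eq_zero_iff (h j)).1 h1
      rw [← hv j, h2, map_zero]
      rfl
    have hmem : (fun j => h j (v j)) ∈ Fintype.piFinset W := by
      rw [Fintype.mem_piFinset]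
      intro j
      rw [hW]
      refine Finset.mem_image.2 ⟨(⟨h j, hh j⟩, v j), ?_, rfl⟩
      rw [Finset.mem_product]
      exact ⟨Finset.mem_univ _, hvF j⟩
    have hle : G (fun j => h j (v j)) ≤ (Fintype.piFinset W).sup G := Finset.le_sup hmem
    exact hG _ hw n (fun i j hij => (Nat.add_le_add_left hle _).trans (hn i j hij)) hsum0
  have h1 := measureReal_mono (μ := μ) hsub (measure_ne_top _ _)
  have h2 := measureReal_union_le (μ := μ)
    (⋃ j ∈ (Finset.univ : Finset (Fin s)), (S^[n j] ⁻¹' {x | ∃ v, v ∉ F j ∧ g x v = m j}))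
    {x | ¬ ((∀ n : ℕ, ∃ h ∈ H, ∀ v,
        coc S φ n x (g (S^[n] x) v) = g x (l^[n] (h v))) ∧ Function.Injective (g x))}
  have h4 : μ.real (⋃ j ∈ (Finset.univ : Finset (Fin s)),
      (S^[n j] ⁻¹' {x | ∃ v, v ∉ F j ∧ g x v = m j})) ≤
      ∑ j ∈ (Finset.univ : Finset (Fin s)),
        μ.real (S^[n j] ⁻¹' {x | ∃ v, v ∉ F j ∧ g x v = m j}) :=
    measureReal_biUnion_finset_le _ _
  have h5 : ∑ j ∈ (Finset.univ : Finset (Fin s)),
      μ.real (S^[n j] ⁻¹' {x | ∃ v, v ∉ F j ∧ g x v = m j}) ≤ s * (ε / (s + 1)) := by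
    have := Finset.sum_le_sum (fun j (_ : j ∈ (Finset.univ : Finset (Fin s))) => by
      have e : μ.real (S^[n j] ⁻¹' {x | ∃ v, v ∉ F j ∧ g x v = m j}) =
          μ.real {x | ∃ v, v ∉ F j ∧ g x v = m j} := by
        rw [Measure.real, Measure.real, (hS.iterate (n j)).measure_preimage
          (hFm j).nullMeasurableSet]
      exact (e.trans_lt (hFs j)).le)
    rwa [Finset.sum_const, nsmul_eq_mul, Finset.card_univ, Fintype.card_fin] at this
  have h6 : (s : ℝ) * (ε / (s + 1)) < ε := by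
    rw [mul_div_assoc', div_lt_iff₀ hs]
    nlinarith
  rw [hN] at h2
  linarith

end H567MM.P
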