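import Pool.Agent.H567R2.MO.Stubs

/-!
GW: good windows
-/

set_option autoImplicit false

namespace H567MM.P

open MeasureTheory

theorem GW_aux_coc {Ω G : Type*} [Group G] (S : Ω → Ω) (C : Ω → G) (s t : ℕ) (ω : Ω) :
    coc S C (s + t) ω = coc S C s ω * coc S C t (S^[s] ω) := by
  induction t with
  | zero => simp [coc]
  | succ t ih =>
    rw [← add_assoc]
    simp only [coc]
    rw [ih, mul_assoc, ← Function.iterate_add_apply, add_comm t s]

theorem GW_aux_inv {Ω K U : Type*} [Field K] [AddCommGroup U] [Module K U]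
    (S : Ω → Ω) (C : Ω → (U ≃ₗ[K] U)) (G : Set (Submodule K U))
    (hinv : ∀ ω (W : Submodule K U), W ∈ G ↔ W.map (C ω : U →ₗ[K] U) ∈ G) (n : ℕ) (ω : Ω)
    (W : Submodule K U) :
    W ∈ G ↔ W.map ((coc S C n ω : U ≃ₗ[K] U) : U →ₗ[K] U) ∈ G := by
  induction n generalizing W with
  | zero =>
    have : W.map ((coc S C 0 ω : U ≃ₗ[K] U) : U →ₗ[K] U) = W := by
      ext x
      simp [coc]
    rw [this]
  | succ n ih =>
    rw [hinv (S^[n] ω) W, ih]
    have : (W.map (C (S^[n] ω) : U →ₗ[K] U)).map ((coc S C n ω : U ≃ₗ[K] U) : U →ₗ[K] U)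
        = W.map ((coc S C (n + 1) ω : U ≃ₗ[K] U) : U →ₗ[K] U) := by
      rw [← Submodule.map_comp]
      rfl
    rw [this]

open Classical in
theorem GW_aux_hits {Ω K U : Type*} [Field K] [AddCommGroup U] [Module K U] (S : Ω → Ω)
    (C : Ω → (U ≃ₗ[K] U)) (A : Set Ω) (u : U) (W : Submodule K U) (M : ℕ) (ω : Ω) :
    hits S C A u W M ω
      = ((Finset.range M).filter (fun t => S^[t] ω ∈ A ∧ coc S C t ω u ∈ W)).card := by
  unfold hits
  rw [← Set.ncard_coe_finset]
  congr 1
  ext t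
  simp

open Classical in
theorem good_windows {Ω K U : Type*} [Field K] [AddCommGroup U] [Module K U]
    [FiniteDimensional K U] (S : Ω → Ω) (C : Ω → (U ≃ₗ[K] U)) (A : Set Ω) (u : U)
    (G : Set (Submodule K U)) (hdown : ∀ W ∈ G, ∀ W' ≤ W, W' ∈ G)
    (hinv : ∀ ω (W : Submodule K U), W ∈ G ↔ W.map (C ω : U →ₗ[K] U) ∈ G) (r : ℕ) (c : ℝ)
    (hc : 0 < c) (M L : ℕ) (hL : 0 < L) (ω : Ω) (W : Submodule K U) (hW : W ∈ G)
    (hr : Module.finrank K W ≤ r) (hh : c * M ≤ hits S C A u W M ω)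
    (hbad : (((Finset.range (M / L)).filter (fun i => S^[i * L] ω ∈ {ω' | ∃ W' ∈ G,
      Module.finrank K W' < r ∧ (c / 2) * L ≤ hits S C A u W' L ω'})).card : ℝ) ≤
        (c / 4) * ((M / L : ℕ) : ℝ)) :
    ∃ I ⊆ Finset.range (M / L), (c / 4) * ((M / L : ℕ) : ℝ) - 1 ≤ (I.card : ℝ) ∧
      ∀ i ∈ I, ∃ a ⊆ Finset.range L, a.Nonempty ∧ S^[i * L] ω ∈ Esp S C A u G a ∧
        (wsp S C u a (S^[i * L] ω)).map ((coc S C (i * L) ω : U ≃ₗ[K] U) : U →ₗ[K] U) = W := by
  set D : Finset ℕ := (Finset.range M).filter (fun t => S^[t] ω ∈ A ∧ coc S C t ω u ∈ W) with hD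
  have hDc : c * M ≤ (D.card : ℝ) := by
    rw [GW_aux_hits] at hh
    exact hh
  have hwin := H567MM.windows D M L hL (Finset.filter_subset _ _) c hc hDc
  set I0 := (Finset.range (M / L)).filter (fun i => (c / 2) * L ≤
      (((D.filter (fun t => i * L ≤ t ∧ t < (i + 1) * L)).card : ℕ) : ℝ)) with hI0
  set Bd := (Finset.range (M / L)).filter (fun i => S^[i * L] ω ∈ {ω' | ∃ W' ∈ G,
      Module.finrank K W' < r ∧ (c / 2) * L ≤ hits S C A u W' L ω'}) with hBd
  refine ⟨I0 \ Bd, (Finset.sdiff_subset).trans (Finset.filter_subset _ _), ?_, ?_⟩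
  · have h1 : I0.card ≤ (I0 \ Bd).card + Bd.card := by
      have := Finset.le_card_sdiff Bd I0
      omega
    have h2 : (I0.card : ℝ) ≤ ((I0 \ Bd).card : ℝ) + (Bd.card : ℝ) := by exact_mod_cast h1
    linarith
  · intro i hi
    rw [Finset.mem_sdiff] at hi
    obtain ⟨hi1, hi2⟩ := hi
    rw [hI0, Finset.mem_filter] at hi1
    obtain ⟨hi0, hi1⟩ := hi1
    set a : Finset ℕ := (Finset.range L).filter (fun t => i * L + t ∈ D) with ha
    have hcard : (D.filter (fun t => i * L ≤ t ∧ t < (i + 1) * L)).card ≤ a.card := by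
      refine Finset.card_le_card_of_injOn (fun t => t - i * L) ?_ ?_
      · intro t ht
        simp only [Finset.coe_filter, Set.mem_ofPred_eq] at ht
        obtain ⟨ht1, ht2, ht3⟩ := ht
        simp only [ha, Finset.coe_filter, Finset.mem_range, Set.mem_ofPred_eq]
        refine ⟨?_, ?_⟩
        · rw [add_mul, one_mul] at ht3
          omega
        · rw [Nat.add_sub_cancel' ht2]
          exact ht1
      · intro t ht t' ht' htt
        simp only [Finset.coe_filter, Set.mem_ofPred_eq] at ht ht'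
        simp only at htt
        omega
    have hacard : (c / 2) * L ≤ (a.card : ℝ) := hi1.trans (by exact_mod_cast hcard)
    have hane : a.Nonempty := by
      rw [← Finset.card_pos]
      have h1 : (0 : ℝ) < (c / 2) * L := by positivity
      have h2 : (0 : ℝ) < (a.card : ℝ) := lt_of_lt_of_le h1 hacard
      exact_mod_cast h2
    have hmem : ∀ t ∈ a, S^[t] (S^[i * L] ω) ∈ A ∧
        (coc S C (i * L) ω) (coc S C t (S^[i * L] ω) u) ∈ W := by
      intro t ht
      rw [ha, Finset.mem_filter, hD, Finset.mem_filter] at ht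
      obtain ⟨-, -, h1, h2⟩ := ht
      refine ⟨?_, ?_⟩
      · rw [← Function.iterate_add_apply, add_comm]
        exact h1
      · rw [GW_aux_coc] at h2
        exact h2
    set W' := wsp S C u a (S^[i * L] ω) with hW'
    have hle : W'.map ((coc S C (i * L) ω : U ≃ₗ[K] U) : U →ₗ[K] U) ≤ W := by
      rw [Submodule.map_le_iff_le_comap, hW', wsp, Submodule.span_le]
      rintro _ ⟨t, ht, rfl⟩
      exact (hmem t ht).2
    have hWG : W' ∈ G := by
      rw [GW_aux_inv S C G hinv (i * L) ω W']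
      exact hdown W hW _ hle
    have hhits : (a.card : ℝ) ≤ (hits S C A u W' L (S^[i * L] ω) : ℝ) := by
      rw [GW_aux_hits]
      have : a ⊆ (Finset.range L).filter (fun t => S^[t] (S^[i * L] ω) ∈ A ∧
          coc S C t (S^[i * L] ω) u ∈ W') := by
        intro t ht
        have h1 := hmem t ht
        rw [Finset.mem_filter]
        refine ⟨(Finset.mem_filter.1 (ha ▸ ht)).1, h1.1, ?_⟩
        exact Submodule.subset_span ⟨t, ht, rfl⟩
      exact_mod_cast Finset.card_le_card this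
    have hdim : r ≤ Module.finrank K W' := by
      by_contra hcon
      rw [not_le] at hcon
      apply hi2
      rw [hBd, Finset.mem_filter]
      exact ⟨hi0, W', hWG, hcon, hacard.trans hhits⟩
    refine ⟨a, Finset.filter_subset _ _, hane, ⟨hWG, fun t ht => (hmem t ht).1⟩, ?_⟩
    refine Submodule.eq_of_le_of_finrank_le hle ?_
    have : Module.finrank K (W'.map ((coc S C (i * L) ω : U ≃ₗ[K] U) : U →ₗ[K] U))
        = Module.finrank K W' := LinearEquiv.finrank_map_eq (coc S C (i * L) ω) W'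
    rw [this]
    exact hr.trans hdim

end H567MM.P
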