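import Pool.Agent.H567R2.MO.Stubs

/-! IG: the mean ergodic theorem gives an invariant set of finite measure meeting a graph. -/

namespace H567MM.P

open MeasureTheory Filter Topology

theorem IG_aux_graph {Ω κ : Type*} [MeasurableSpace Ω] (P : Measure Ω) [IsProbabilityMeasure P]
    [Countable κ] [MeasurableSpace κ] [DiscreteMeasurableSpace κ] (w : Ω → κ)
    (hw : Measurable w) (E : Set Ω) (hE : MeasurableSet E) (Q : Set (Ω × κ))
    (hQ : MeasurableSet Q) :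
    MeasurableSet {z : Ω × κ | z.1 ∈ E ∧ z.2 = w z.1} ∧
    (P.prod Measure.count) ({z : Ω × κ | z.1 ∈ E ∧ z.2 = w z.1} ∩ Q) =
      P {ω | ω ∈ E ∧ (ω, w ω) ∈ Q} := by
  have h1 : MeasurableSet {z : Ω × κ | z.1 ∈ E ∧ z.2 = w z.1} :=
    (measurable_fst hE).inter (measurableSet_eq_fun measurable_snd
      (hw.comp measurable_fst))
  refine ⟨h1, ?_⟩
  rw [Measure.prod_apply (h1.inter hQ)]
  have h2 : MeasurableSet {ω | ω ∈ E ∧ (ω, w ω) ∈ Q} :=
    hE.inter ((measurable_id.prodMk hw) hQ)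
  rw [← lintegral_indicator_one h2]
  refine lintegral_congr fun ω => ?_
  by_cases hω : ω ∈ {ω | ω ∈ E ∧ (ω, w ω) ∈ Q}
  · have h3 : (Prod.mk ω ⁻¹' ({z : Ω × κ | z.1 ∈ E ∧ z.2 = w z.1} ∩ Q)) = {w ω} := by
      ext q
      simp only [Set.mem_preimage, Set.mem_inter_iff, Set.mem_ofPred_eq, Set.mem_singleton_iff]
      constructor
      · rintro ⟨⟨_, h⟩, _⟩
        exact h
      · rintro rfl
        exact ⟨⟨hω.1, rfl⟩, hω.2⟩
    rw [h3, Set.indicator_of_mem hω, Measure.count_singleton]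
    rfl
  · have h3 : (Prod.mk ω ⁻¹' ({z : Ω × κ | z.1 ∈ E ∧ z.2 = w z.1} ∩ Q)) = ∅ := by
      ext q
      simp only [Set.mem_preimage, Set.mem_inter_iff, Set.mem_ofPred_eq, Set.mem_empty_iff_false,
        iff_false]
      rintro ⟨⟨h, rfl⟩, h'⟩
      exact hω ⟨h, h'⟩
    rw [h3, Set.indicator_of_notMem hω, measure_empty]

theorem inv_set_graph {Ω κ : Type*} [MeasurableSpace Ω] (P : Measure Ω) [IsProbabilityMeasure P]
    [Countable κ] [MeasurableSpace κ] [DiscreteMeasurableSpace κ] (τ : Ω × κ → Ω × κ)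
    (hτ : MeasurePreserving τ (P.prod Measure.count) (P.prod Measure.count)) (w : Ω → κ)
    (hw : Measurable w) (E : Set Ω) (hE : MeasurableSet E) (c : ℝ) (hc : 0 < c)
    (h : ∀ N₀ : ℕ, ∃ N ≥ N₀, c * N ≤ ∑ n ∈ Finset.range N, P.real {ω | ω ∈ E ∧
      (τ^[n] (ω, w ω)).1 ∈ E ∧ (τ^[n] (ω, w ω)).2 = w (τ^[n] (ω, w ω)).1}) :
    ∃ B : Set (Ω × κ), MeasurableSet B ∧ (P.prod Measure.count) B ≠ ⊤ ∧
      P {ω | ω ∈ E ∧ (ω, w ω) ∈ B} ≠ 0 ∧ ∀ᵐ ω ∂P, ∀ q : κ, ((ω, q) ∈ B ↔ τ (ω, q) ∈ B) := by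
  set m : Measure (Ω × κ) := P.prod Measure.count with hmdef
  set Gr : Set (Ω × κ) := {z : Ω × κ | z.1 ∈ E ∧ z.2 = w z.1} with hGr
  have hA : MeasurableSet Gr := (IG_aux_graph P w hw E hE Set.univ MeasurableSet.univ).1
  have hGQ : ∀ Q : Set (Ω × κ), MeasurableSet Q → m (Gr ∩ Q) = P {ω | ω ∈ E ∧ (ω, w ω) ∈ Q} :=
    fun Q hQ => (IG_aux_graph P w hw E hE Q hQ).2
  have hmA : m Gr ≠ ⊤ := by
    have h1 := hGQ Set.univ MeasurableSet.univ
    rw [Set.inter_univ] at h1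
    rw [h1]
    exact measure_ne_top _ _
  set U : Lp ℝ 2 m →L[ℝ] Lp ℝ 2 m :=
    (Lp.compMeasurePreservingₗᵢ ℝ τ hτ).toContinuousLinearMap with hU
  have hUn : ‖U‖ ≤ 1 := LinearIsometry.norm_toContinuousLinearMap_le _
  set e : Lp ℝ 2 m := indicatorConstLp 2 hA hmA (1 : ℝ) with he
  have hUc : ∀ f, U f = Lp.compMeasurePreserving τ hτ f := fun f => rfl
  have hUit : ∀ n : ℕ, (⇑U)^[n] e = Lp.compMeasurePreserving τ^[n] (hτ.iterate n) e := by
    intro n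
    rw [← Lp.compMeasurePreserving_iterate hτ n]
    rfl
  have hin : ∀ n : ℕ, inner ℝ e ((⇑U)^[n] e) = P.real {ω | ω ∈ E ∧
      (τ^[n] (ω, w ω)).1 ∈ E ∧ (τ^[n] (ω, w ω)).2 = w (τ^[n] (ω, w ω)).1} := by
    intro n
    rw [hUit n, he, Lp.indicatorConstLp_compMeasurePreserving hA hmA (1 : ℝ)
        (hτ.iterate n),
      L2.real_inner_indicatorConstLp_one_indicatorConstLp_one hA
        (hA.preimage (hτ.iterate n).measurable) hmA
        (by rw [(hτ.iterate n).measure_preimage hA.nullMeasurableSet]; exact hmA)]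
    rw [Measure.real, hGQ _ (hA.preimage (hτ.iterate n).measurable)]
    rfl
  have hlim := U.tendsto_birkhoffAverage_orthogonalProjection hUn e
  set hp := (U.eqLocus (1 : Lp ℝ 2 m →L[ℝ] Lp ℝ 2 m)).orthogonalProjectionOnto e with hpdef
  have hfix : U (hp : Lp ℝ 2 m) = hp := by
    have := hp.2
    rw [LinearMap.mem_eqLocus] at this
    exact this
  have hlim2 : Tendsto (fun N : ℕ => inner ℝ e (birkhoffAverage ℝ U _root_.id N e)) atTop
      (𝓝 (inner ℝ e (hp : Lp ℝ 2 m))) := tendsto_const_nhds.inner hlim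
  have hav : ∀ N : ℕ, inner ℝ e (birkhoffAverage ℝ U _root_.id N e) =
      (N : ℝ)⁻¹ * ∑ n ∈ Finset.range N, P.real {ω | ω ∈ E ∧
        (τ^[n] (ω, w ω)).1 ∈ E ∧ (τ^[n] (ω, w ω)).2 = w (τ^[n] (ω, w ω)).1} := by
    intro N
    rw [birkhoffAverage, birkhoffSum, inner_smul_right, inner_sum]
    congr 1
    exact Finset.sum_congr rfl fun n _ => hin n
  have hge : c ≤ inner ℝ e (hp : Lp ℝ 2 m) := by
    refine ge_of_tendsto_of_frequently hlim2 ?_
    rw [Filter.frequently_atTop]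
    intro a
    obtain ⟨N, hN, hcN⟩ := h (a + 1)
    refine ⟨N, by omega, ?_⟩
    have hN0 : (0 : ℝ) < N := by exact_mod_cast (by omega : 0 < N)
    rw [hav N, inv_mul_eq_div, le_div_iff₀ hN0]
    exact hcN
  have hhp0 : (hp : Lp ℝ 2 m) ≠ 0 := by
    intro h0
    rw [h0, inner_zero_right] at hge
    linarith
  have hsq : inner ℝ e (hp : Lp ℝ 2 m) ≠ 0 := by
    have h1 : inner ℝ hp hp = inner ℝ e (hp : Lp ℝ 2 m) :=
      Submodule.inner_orthogonalProjectionOnto_eq_of_mem_right hp e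
    rw [← h1]
    exact inner_self_ne_zero.2 fun h0 => hhp0 (by rw [h0]; rfl)
  set f : Ω × κ → ℝ := ⇑(hp : Lp ℝ 2 m) with hf
  have hfm : StronglyMeasurable f := Lp.stronglyMeasurable _
  have hfL : MemLp f 2 m := Lp.memLp _
  have hfinv : ∀ᵐ z ∂m, f (τ z) = f z := by
    have h1 := Lp.coeFn_compMeasurePreserving (hp : Lp ℝ 2 m) hτ
    rw [← hUc, hfix] at h1
    filter_upwards [h1] with z hz
    exact hz.symm
  have hne : P {ω | ω ∈ E ∧ f (ω, w ω) ≠ 0} ≠ 0 := by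
    intro h0
    apply hsq
    rw [he, L2.inner_indicatorConstLp_one hA hmA]
    apply integral_eq_zero_of_ae
    have hms : MeasurableSet {z | f z ≠ 0} :=
      (measurableSet_eq_fun hfm.measurable measurable_const).compl
    have h2 : m (Gr ∩ {z | f z ≠ 0}) = 0 := by
      rw [hGQ _ hms]
      exact h0
    rw [Filter.EventuallyEq, ae_restrict_iff' hA, ae_iff]
    refine measure_mono_null ?_ h2
    intro z hz
    simp only [Set.mem_ofPred_eq, Classical.not_imp] at hz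
    exact ⟨hz.1, hz.2⟩
  obtain ⟨k, hk⟩ : ∃ k : ℕ, P {ω | ω ∈ E ∧ 1 / ((k : ℝ) + 1) ≤ |f (ω, w ω)|} ≠ 0 := by
    by_contra hcon
    push Not at hcon
    apply hne
    have hsub : {ω | ω ∈ E ∧ f (ω, w ω) ≠ 0} ⊆
        ⋃ k : ℕ, {ω | ω ∈ E ∧ 1 / ((k : ℝ) + 1) ≤ |f (ω, w ω)|} := by
      intro z hz
      obtain ⟨k, hk⟩ := exists_nat_one_div_lt (abs_pos.2 hz.2)
      exact Set.mem_iUnion.2 ⟨k, hz.1, hk.le⟩
    exact measure_mono_null hsub (measure_iUnion_null hcon)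
  have hk0 : (0 : ℝ) < 1 / ((k : ℝ) + 1) := by positivity
  refine ⟨{z | 1 / ((k : ℝ) + 1) ≤ |f z|}, measurableSet_le measurable_const
    hfm.measurable.abs, ?_, hk, ?_⟩
  · have h3 := hfL.meas_ge_lt_top (by norm_num) (by norm_num)
      (ε := ⟨1 / ((k : ℝ) + 1), hk0.le⟩) (by
        intro h0
        exact hk0.ne' (congrArg NNReal.toReal h0))
    exact h3.ne
  · have h4 := Measure.ae_ae_of_ae_prod hfinv
    filter_upwards [h4] with ω hω g
    have h5 := Measure.ae_count_iff.1 hω g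
    have h6 : f (τ (ω, g)) = f (ω, g) := h5
    simp only [h6]

end H567MM.P
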