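import Pool.Agent.H567R2.MO.Stubs

/-! LA: countability. -/

namespace H567MM.P

open MeasureTheory Filter Topology

theorem LA_aux_pre {Ω κ : Type*} [MeasurableSpace Ω] [Countable κ] (q : Ω → κ)
    (hq : ∀ c, MeasurableSet {ω | q ω = c}) (T : Set κ) : MeasurableSet {ω | q ω ∈ T} := by
  have h : {ω | q ω ∈ T} = ⋃ c : T, {ω | q ω = c} := by
    ext ω
    simp only [Set.mem_iUnion]
    constructor
    · intro h
      exact ⟨⟨q ω, h⟩, rfl⟩
    · rintro ⟨c, hc⟩
      have hc' : q ω = c := hc
      change q ω ∈ T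
      rw [hc']
      exact c.2
  rw [h]
  exact MeasurableSet.iUnion fun c => hq c

theorem countable_submodule {K U : Type*} [Field K] [AddCommGroup U] [Module K U]
    [FiniteDimensional K U] [Countable U] : Countable (Submodule K U) := by
  have h : Function.Surjective (fun F : Finset U => Submodule.span K (F : Set U)) := by
    intro W
    obtain ⟨F, hF⟩ := IsNoetherian.noetherian W
    exact ⟨F, hF⟩
  exact h.countable

theorem countable_equiv {K U : Type*} [Field K] [AddCommGroup U] [Module K U]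
    [FiniteDimensional K U] [Countable U] : Countable (U ≃ₗ[K] U) := by
  have h : Function.Injective (fun g : U ≃ₗ[K] U =>
      fun i : Fin (Module.finrank K U) => g (Module.finBasis K U i)) := by
    intro g g' hg
    exact (Module.finBasis K U).ext' fun i => congrFun hg i
  exact h.countable

theorem coc_meas {Ω K U : Type*} [MeasurableSpace Ω] [Field K] [AddCommGroup U] [Module K U]
    [FiniteDimensional K U] [Countable U] (S : Ω → Ω) (hS : Measurable S)
    (C : Ω → (U ≃ₗ[K] U)) (hC : ∀ u u' : U, MeasurableSet {ω | C ω u = u'}) (n : ℕ) :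
    (∀ u u' : U, MeasurableSet {ω | coc S C n ω u = u'}) ∧
    ∀ g : U ≃ₗ[K] U, MeasurableSet {ω | coc S C n ω = g} := by
  have h1 : ∀ u u' : U, MeasurableSet {ω | coc S C n ω u = u'} := by
    induction n with
    | zero =>
      intro u u'
      have : {ω | coc S C 0 ω u = u'} = {_ω : Ω | u = u'} := rfl
      rw [this]
      exact MeasurableSet.const _
    | succ n ih =>
      intro u u'
      have : {ω | coc S C (n + 1) ω u = u'} =
          ⋃ v : U, {ω | C (S^[n] ω) u = v} ∩ {ω | coc S C n ω v = u'} := by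
        ext ω
        simp only [Set.mem_iUnion]
        constructor
        · intro h
          exact ⟨C (S^[n] ω) u, rfl, h⟩
        · rintro ⟨v, hv, h⟩
          have hv' : C (S^[n] ω) u = v := hv
          have h' : coc S C n ω v = u' := h
          change coc S C n ω (C (S^[n] ω) u) = u'
          rw [hv', h']
      rw [this]
      refine MeasurableSet.iUnion fun v => MeasurableSet.inter ?_ (ih v u')
      exact (hS.iterate n) (hC u v)
  refine ⟨h1, fun g => ?_⟩
  have : {ω | coc S C n ω = g} = ⋂ i : Fin (Module.finrank K U),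
      {ω | coc S C n ω (Module.finBasis K U i) = g (Module.finBasis K U i)} := by
    ext ω
    simp only [Set.mem_iInter]
    constructor
    · intro h i
      have h' : coc S C n ω = g := h
      change coc S C n ω (Module.finBasis K U i) = g (Module.finBasis K U i)
      rw [h']
    · intro h
      exact (Module.finBasis K U).ext' fun i => h i
  rw [this]
  exact MeasurableSet.iInter fun i => h1 _ _

theorem wsp_meas {Ω K U : Type*} [MeasurableSpace Ω] [Field K] [AddCommGroup U] [Module K U]
    [FiniteDimensional K U] [Countable U] (S : Ω → Ω) (hS : Measurable S)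
    (C : Ω → (U ≃ₗ[K] U)) (hC : ∀ u u' : U, MeasurableSet {ω | C ω u = u'}) (u : U)
    (a : Finset ℕ) (W : Submodule K U) : MeasurableSet {ω | wsp S C u a ω = W} := by
  have h := LA_aux_pre (κ := a → U) (fun ω => fun t : a => coc S C t ω u) (by
    intro c
    have : {ω | (fun t : a => coc S C t ω u) = c} = ⋂ t : a, {ω | coc S C t ω u = c t} := by
      ext ω
      simp only [Set.mem_iInter]
      exact funext_iff
    rw [this]
    exact MeasurableSet.iInter fun t => (coc_meas S hS C hC t).1 _ _)
    {f | Submodule.span K (Set.range f) = W}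
  have e : {ω | wsp S C u a ω = W} =
      {ω | (fun t : a => coc S C t ω u) ∈ {f : a → U | Submodule.span K (Set.range f) = W}} := by
    ext ω
    have h2 : (fun t => coc S C t ω u) '' (a : Set ℕ) =
        Set.range (fun t : a => coc S C t ω u) := by
      ext v
      constructor
      · rintro ⟨t, ht, rfl⟩
        exact ⟨⟨t, ht⟩, rfl⟩
      · rintro ⟨t, rfl⟩
        exact ⟨t, t.2, rfl⟩
    change wsp S C u a ω = W ↔ Submodule.span K (Set.range (fun t : a => coc S C t ω u)) = W
    rw [← h2]
    rfl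
  rw [e]
  exact h

theorem hits_meas {Ω K U : Type*} [MeasurableSpace Ω] [Field K] [AddCommGroup U] [Module K U]
    [FiniteDimensional K U] [Countable U] (S : Ω → Ω) (hS : Measurable S)
    (C : Ω → (U ≃ₗ[K] U)) (hC : ∀ u u' : U, MeasurableSet {ω | C ω u = u'}) (A : Set Ω)
    (hA : MeasurableSet A) (u : U) (W : Submodule K U) (M n : ℕ) :
    MeasurableSet {ω | hits S C A u W M ω = n} := by
  have hfin : ∀ ω, {t : ℕ | t < M ∧ S^[t] ω ∈ A ∧ coc S C t ω u ∈ W}.Finite := fun ω =>
    (Set.finite_lt_nat M).subset fun t ht => ht.1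
  have hm : ∀ T : Finset ℕ,
      MeasurableSet {ω | {t : ℕ | t < M ∧ S^[t] ω ∈ A ∧ coc S C t ω u ∈ W} = (T : Set ℕ)} := by
    intro T
    have : {ω | {t : ℕ | t < M ∧ S^[t] ω ∈ A ∧ coc S C t ω u ∈ W} = (T : Set ℕ)} =
        ⋂ t : ℕ, {ω | (t < M ∧ S^[t] ω ∈ A ∧ coc S C t ω u ∈ W) ↔ t ∈ T} := by
      ext ω
      simp only [Set.mem_iInter]
      exact Set.ext_iff
    rw [this]
    refine MeasurableSet.iInter fun t => ?_
    have h1 : MeasurableSet {ω | t < M ∧ S^[t] ω ∈ A ∧ coc S C t ω u ∈ W} := by
      refine (MeasurableSet.const (t < M)).inter (((hS.iterate t) hA).inter ?_)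
      exact LA_aux_pre (fun ω => coc S C t ω u) (fun c => (coc_meas S hS C hC t).1 u c) (W : Set U)
    by_cases ht : t ∈ T
    · have : {ω | (t < M ∧ S^[t] ω ∈ A ∧ coc S C t ω u ∈ W) ↔ t ∈ T} =
          {ω | t < M ∧ S^[t] ω ∈ A ∧ coc S C t ω u ∈ W} := by
        ext ω
        exact iff_true_right ht
      rw [this]
      exact h1
    · have : {ω | (t < M ∧ S^[t] ω ∈ A ∧ coc S C t ω u ∈ W) ↔ t ∈ T} =
          {ω | t < M ∧ S^[t] ω ∈ A ∧ coc S C t ω u ∈ W}ᶜ := by
        ext ω
        exact iff_false_right ht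
      rw [this]
      exact h1.compl
  have e : {ω | hits S C A u W M ω = n} = ⋃ T : {T : Finset ℕ // T.card = n},
      {ω | {t : ℕ | t < M ∧ S^[t] ω ∈ A ∧ coc S C t ω u ∈ W} = ((T : Finset ℕ) : Set ℕ)} := by
    ext ω
    simp only [Set.mem_iUnion]
    constructor
    · intro h
      have h' : Set.ncard {t : ℕ | t < M ∧ S^[t] ω ∈ A ∧ coc S C t ω u ∈ W} = n := h
      refine ⟨⟨(hfin ω).toFinset, ?_⟩, ?_⟩
      · rw [← h', Set.ncard_eq_toFinset_card _ (hfin ω)]
      · exact (Set.Finite.coe_toFinset (hfin ω)).symm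
    · rintro ⟨T, hT⟩
      have hT' : {t : ℕ | t < M ∧ S^[t] ω ∈ A ∧ coc S C t ω u ∈ W} = ((T : Finset ℕ) : Set ℕ) := hT
      change Set.ncard {t : ℕ | t < M ∧ S^[t] ω ∈ A ∧ coc S C t ω u ∈ W} = n
      rw [hT', Set.ncard_coe_finset]
      exact T.2
  rw [e]
  exact MeasurableSet.iUnion fun T => hm T

end H567MM.P
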