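import Pool.Agent.H567R2.MO.Stubs

/-! M3: assembly of the result. -/

namespace H567MM.P

open MeasureTheory Filter Topology

theorem main3 {X R M : Type*} [MeasurableSpace X] (μ : Measure X)
    [IsProbabilityMeasure μ] (S : X → X) (hS : MeasurePreserving S μ μ)
    [CommRing R] [IsNoetherianRing R] [AddCommGroup M] [Module R M] [Module.Finite R M]
    [Countable M] (φ : X → (M ≃ₗ[R] M)) (hφ : ∀ m m' : M, MeasurableSet {x | φ x m = m'})
    (ν : Measure (Dual M)) (hν : IsHaarProb ν) (k : ℕ) (hk : MixOrd μ S k)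
    (h : Ergodic (nskew S φ) (μ.prod ν)) : MixOrd (μ.prod ν) (nskew S φ) k := by
  have hνp : IsProbabilityMeasure ν := hν.1
  rcases k with _ | k
  · exact mixOrd_zero _ _
  have hmix : MixOrd μ S 1 := mixOrd_one μ S k hk
  have hT : MeasurePreserving (nskew S φ) (μ.prod ν) (μ.prod ν) := nskew_mp μ S hS φ hφ ν hν
  have htr : ∀ v : M, v ≠ 0 → NTrans μ S φ v := fun v hv =>
    ntrans_of_ergodic μ S hS φ hφ ν hν h v hv
  exact mix_of_ten μ ν (nskew S φ) hT (k + 1) fun A m hA ε hε =>
    ntensor_mix μ S hS φ hφ ν hν (k + 1) hk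
      (fun m hm ε hε => small_module2 μ S hS hmix φ hφ htr (k + 1) hk m hm ε hε) A hA m ε hε

end H567MM.P
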