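import Pool.Agent.H567R2.MO.Stubs

/-! MC: mixing for functions with countably many values. -/

namespace H567MM.P

open MeasureTheory Filter Topology

lemma MC_aux_sum {Z : Type*} [MeasurableSpace Z] [DiscreteMeasurableSpace Z] (ν : Measure Z)
    [IsFiniteMeasure ν] (F : Finset Z) : ν.real (F : Set Z) = ∑ c ∈ F, ν.real {c} := by
  classical
  exact (sum_measureReal_singleton F).symm

/-- two probability measures on a countable set -/
lemma MC_aux_cmp {Z : Type*} [MeasurableSpace Z] [DiscreteMeasurableSpace Z] (ν₁ ν₂ : Measure Z)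
    [IsProbabilityMeasure ν₁] [IsProbabilityMeasure ν₂] (F : Finset Z) (δ η : ℝ)
    (hδ0 : 0 ≤ δ) (hδ : ∀ c ∈ F, |ν₁.real {c} - ν₂.real {c}| ≤ δ)
    (hη : ν₂.real (F : Set Z)ᶜ ≤ η) (A : Set Z) :
    |ν₁.real A - ν₂.real A| ≤ 2 * (F.card * δ) + η := by
  classical
  have hsub : ∀ F' ⊆ F, |ν₁.real (F' : Set Z) - ν₂.real (F' : Set Z)| ≤ F.card * δ := by
    intro F' hF'
    rw [MC_aux_sum, MC_aux_sum, ← Finset.sum_sub_distrib]
    refine le_trans (Finset.abs_sum_le_sum_abs _ _) ?_
    refine le_trans (Finset.sum_le_sum fun c hc => hδ c (hF' hc)) ?_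
    rw [Finset.sum_const, nsmul_eq_mul]
    exact mul_le_mul_of_nonneg_right (by exact_mod_cast Finset.card_le_card hF') hδ0
  have hF1 := hsub F subset_rfl
  have hA1 := hsub (F.filter (· ∈ A)) (Finset.filter_subset _ _)
  have hc1 : ν₁.real (F : Set Z)ᶜ = 1 - ν₁.real (F : Set Z) := by
    rw [measureReal_compl (MeasurableSet.of_discrete), probReal_univ]
  have hc2 : ν₂.real (F : Set Z)ᶜ = 1 - ν₂.real (F : Set Z) := by
    rw [measureReal_compl (MeasurableSet.of_discrete), probReal_univ]
  have hcov : A ⊆ ((F.filter (· ∈ A) : Finset Z) : Set Z) ∪ (F : Set Z)ᶜ := by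
    intro z hz
    by_cases h : z ∈ F
    · left
      rw [Finset.mem_coe, Finset.mem_filter]
      exact ⟨h, hz⟩
    · right
      exact fun h' => h (Finset.mem_coe.1 h')
  have hin : ((F.filter (· ∈ A) : Finset Z) : Set Z) ⊆ A := by
    intro z hz
    rw [Finset.mem_coe, Finset.mem_filter] at hz
    exact hz.2
  have u1 : ν₁.real A ≤ ν₁.real ((F.filter (· ∈ A) : Finset Z) : Set Z) + ν₁.real (F : Set Z)ᶜ :=
    le_trans (measureReal_mono hcov) (measureReal_union_le _ _)
  have u2 : ν₂.real A ≤ ν₂.real ((F.filter (· ∈ A) : Finset Z) : Set Z) + ν₂.real (F : Set Z)ᶜ :=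
    le_trans (measureReal_mono hcov) (measureReal_union_le _ _)
  have l1 : ν₁.real ((F.filter (· ∈ A) : Finset Z) : Set Z) ≤ ν₁.real A := measureReal_mono hin
  have l2 : ν₂.real ((F.filter (· ∈ A) : Finset Z) : Set Z) ≤ ν₂.real A := measureReal_mono hin
  rw [abs_le] at hF1 hA1 ⊢
  have hη0 : 0 ≤ F.card * δ := by positivity
  constructor <;> linarith [hF1.1, hF1.2, hA1.1, hA1.2]

/-- a finite set carries almost all the mass -/
lemma MC_aux_fin {Z : Type*} [MeasurableSpace Z] [DiscreteMeasurableSpace Z] [Countable Z]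
    (ν : Measure Z) [IsProbabilityMeasure ν] (η : ℝ) (hη : 0 < η) :
    ∃ F : Finset Z, ν.real (F : Set Z)ᶜ < η := by
  classical
  have hne : Nonempty Z := by
    by_contra h
    rw [not_nonempty_iff] at h
    have h1 : ν Set.univ = 1 := measure_univ
    rw [Set.univ_eq_empty_iff.2 h, measure_empty] at h1
    exact zero_ne_one h1
  obtain ⟨e, he⟩ := exists_surjective_nat Z
  have hanti : Antitone fun N : ℕ => (((Finset.range N).image e : Finset Z) : Set Z)ᶜ := by
    intro a b hab
    simp only [Set.compl_subset_compl, Finset.coe_subset]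
    exact Finset.image_subset_image (Finset.range_mono hab)
  have hempty : ⋂ N : ℕ, (((Finset.range N).image e : Finset Z) : Set Z)ᶜ = ∅ := by
    rw [Set.eq_empty_iff_forall_notMem]
    intro z hz
    obtain ⟨m, rfl⟩ := he z
    rw [Set.mem_iInter] at hz
    refine hz (m + 1) ?_
    rw [Finset.mem_coe, Finset.mem_image]
    exact ⟨m, Finset.mem_range.2 (Nat.lt_succ_self m), rfl⟩
  have ht := tendsto_measure_iInter_atTop (μ := ν)
    (s := fun N : ℕ => (((Finset.range N).image e : Finset Z) : Set Z)ᶜ)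
    (fun N => MeasurableSet.of_discrete.nullMeasurableSet) hanti ⟨0, measure_ne_top _ _⟩
  rw [hempty, measure_empty] at ht
  have ht' : Tendsto (fun N : ℕ => ν.real (((Finset.range N).image e : Finset Z) : Set Z)ᶜ) atTop
      (𝓝 0) := by
    have := (ENNReal.tendsto_toReal (ENNReal.zero_ne_top)).comp ht
    rw [ENNReal.toReal_zero] at this
    exact this
  obtain ⟨N, hN⟩ := (ht'.eventually (gt_mem_nhds hη)).exists
  exact ⟨_, hN⟩

theorem mix_countable {X κ : Type*} [MeasurableSpace X] (μ : Measure X)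
    [IsProbabilityMeasure μ] (S : X → X) (hS : MeasurePreserving S μ μ) (k : ℕ)
    (hk : MixOrd μ S k) [Countable κ] (q : Fin (k + 1) → X → κ)
    (hq : ∀ j c, MeasurableSet {x | q j x = c}) (A : Set (Fin (k + 1) → κ)) (ε : ℝ)
    (hε : 0 < ε) :
    ∃ G : ℕ, ∀ n : Fin (k + 1) → ℕ, n 0 = 0 → (∀ j : Fin k, n j.castSucc + G ≤ n j.succ) →
      |μ.real {x | (fun j => q j (S^[n j] x)) ∈ A} -
        (Measure.pi fun _ : Fin (k + 1) => μ).real {y | (fun j => q j (y j)) ∈ A}| < ε := by
  classical
  let _ : MeasurableSpace κ := ⊤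
  have : DiscreteMeasurableSpace κ := ⟨fun _ => trivial⟩
  have hqm : ∀ j, Measurable (q j) := fun j => measurable_to_countable' fun c => hq j c
  have hfm : ∀ n : Fin (k + 1) → ℕ, Measurable fun x => (fun j => q j (S^[n j] x)) := fun n =>
    measurable_pi_lambda _ fun j => (hqm j).comp (hS.measurable.iterate (n j))
  have hgm : Measurable fun y : Fin (k + 1) → X => (fun j => q j (y j)) :=
    measurable_pi_lambda _ fun j => (hqm j).comp (measurable_pi_apply j)
  set π : Measure (Fin (k + 1) → X) := Measure.pi fun _ : Fin (k + 1) => μ with hπ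
  set ν : Measure (Fin (k + 1) → κ) := π.map fun y => (fun j => q j (y j)) with hν
  have hνp : IsProbabilityMeasure ν := Measure.isProbabilityMeasure_map hgm.aemeasurable
  obtain ⟨F, hF⟩ := MC_aux_fin ν (ε / 4) (by positivity)
  set δ : ℝ := ε / (4 * (F.card + 1)) with hδ
  have hδ0 : 0 < δ := by positivity
  choose G hG using fun c : Fin (k + 1) → κ => hk (fun j => {x | q j x = c j}) (fun j => hq j (c j))
    δ hδ0
  refine ⟨F.sup G, fun n hn0 hn => ?_⟩
  set ν₁ : Measure (Fin (k + 1) → κ) := μ.map fun x => (fun j => q j (S^[n j] x)) with hν₁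
  have hν₁p : IsProbabilityMeasure ν₁ := Measure.isProbabilityMeasure_map (hfm n).aemeasurable
  have e1 : μ.real {x | (fun j => q j (S^[n j] x)) ∈ A} = ν₁.real A := by
    rw [hν₁, map_measureReal_apply (hfm n) MeasurableSet.of_discrete]
    rfl
  have e2 : π.real {y | (fun j => q j (y j)) ∈ A} = ν.real A := by
    rw [hν, map_measureReal_apply hgm MeasurableSet.of_discrete]
    rfl
  rw [e1, e2]
  have hcmp := MC_aux_cmp ν₁ ν F δ (ε / 4) hδ0.le (fun c hc => ?_) hF.le A
  · refine lt_of_le_of_lt hcmp ?_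
    have h1 : (F.card : ℝ) * δ < ε / 4 := by
      rw [hδ, mul_div_assoc', div_lt_div_iff₀ (by positivity) (by norm_num)]
      nlinarith
    linarith
  · have h2 := hG c n hn0 (fun j => le_trans (Nat.add_le_add_left (Finset.le_sup hc) _) (hn j))
    have e3 : ν₁.real {c} = μ.real (⋂ j, S^[n j] ⁻¹' {x | q j x = c j}) := by
      rw [hν₁, map_measureReal_apply (hfm n) MeasurableSet.of_discrete]
      congr 1
      ext x
      simp only [Set.mem_preimage, Set.mem_singleton_iff, Set.mem_iInter, Set.mem_ofPred_eq,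
        funext_iff]
    have e4 : ν.real {c} = ∏ j, μ.real {x | q j x = c j} := by
      rw [hν, map_measureReal_apply hgm MeasurableSet.of_discrete]
      have e5 : (fun y : Fin (k + 1) → X => (fun j => q j (y j))) ⁻¹' {c} =
          Set.pi Set.univ fun j => {x | q j x = c j} := by
        ext y
        simp only [Set.mem_preimage, Set.mem_singleton_iff, Set.mem_pi, Set.mem_univ, true_imp_iff,
          Set.mem_ofPred_eq, funext_iff]
      rw [e5, hπ, Measure.real, Measure.pi_pi, ENNReal.toReal_prod]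
      rfl
    rw [e3, e4]
    exact h2.le

end H567MM.P
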