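import Pool.Agent.H567R2.MO.Stubs

/-! Task PH (helper617): from relations to the product system. -/

namespace H567MM.P

open MeasureTheory Filter Topology

theorem PH_aux_coc_add {X G : Type*} [Monoid G] (S : X → X) (φ : X → G) (s t : ℕ) (x : X) :
    coc S φ (s + t) x = coc S φ s x * coc S φ t (S^[s] x) := by
  induction t with
  | zero => simp [coc]
  | succ t ih =>
      have e1 : coc S φ (s + (t + 1)) x = coc S φ (s + t) x * φ (S^[s + t] x) := rfl
      have e2 : coc S φ (t + 1) (S^[s] x) = coc S φ t (S^[s] x) * φ (S^[t] (S^[s] x)) := rfl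
      rw [e1, e2, ih, mul_assoc, add_comm s t, Function.iterate_add_apply]

theorem PH_aux_iter {X : Type*} (S : X → X) {s : ℕ} (t : ℕ) (y : Fin s → X) (j : Fin s) :
    (fun (y : Fin s → X) j => S (y j))^[t] y j = S^[t] (y j) := by
  induction t generalizing y with
  | zero => rfl
  | succ t ih =>
      rw [Function.iterate_succ_apply, Function.iterate_succ_apply, ih]

theorem PH_aux_meas {X K V : Type*} [MeasurableSpace X]
    (S : X → X) (hS : Measurable S) [Field K] [AddCommGroup V] [Module K V]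
    [FiniteDimensional K V] [Countable V] (φ : X → (V ≃ₗ[K] V))
    (hφ : ∀ v v' : V, MeasurableSet {x | φ x v = v'}) {s : ℕ} (n : Fin s → ℕ) (m : Fin s → V) :
    MeasurableSet {x | ∑ j, coc S φ (n j) x (m j) = 0} := by
  have e : {x | ∑ j, coc S φ (n j) x (m j) = 0} =
      ⋃ (v : Fin s → V), ⋃ (_ : ∑ j, v j = 0), ⋂ j, {x | coc S φ (n j) x (m j) = v j} := by
    ext x
    simp only [Set.mem_setOf_eq, Set.mem_iUnion, Set.mem_iInter, exists_prop]
    constructor
    · intro h
      exact ⟨fun j => coc S φ (n j) x (m j), h, fun j => rfl⟩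
    · rintro ⟨v, hv, h⟩
      rw [← hv]
      exact Finset.sum_congr rfl fun j _ => h j
  rw [e]
  exact MeasurableSet.iUnion fun v => MeasurableSet.iUnion fun _ => MeasurableSet.iInter fun j =>
    (coc_meas S hS φ hφ (n j)).1 (m j) (v j)

/-- many visits -/
theorem PH_aux_visits {X : Type*} [MeasurableSpace X] (μ : Measure X) [IsProbabilityMeasure μ]
    (S : X → X) (hS : MeasurePreserving S μ μ) (E : Set X) (hE : MeasurableSet E) (δ : ℝ)
    (hδ : 0 < δ) (h : δ ≤ μ.real E) (M : ℕ) :
    δ / 2 ≤ μ.real {x | (δ / 2) * M ≤ (Set.ncard {t : ℕ | t < M ∧ S^[t] x ∈ E} : ℝ)} := by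
  classical
  have hδ1 : δ ≤ 1 := h.trans measureReal_le_one
  rcases Nat.eq_zero_or_pos M with hM | hM
  · have e : {x : X | (δ / 2) * M ≤ (Set.ncard {t : ℕ | t < M ∧ S^[t] x ∈ E} : ℝ)} =
        Set.univ := by
      ext x
      simp [hM]
    rw [e, probReal_univ]
    linarith
  have hM' : (0 : ℝ) < M := by exact_mod_cast hM
  set f : X → ℝ := fun x => ∑ t ∈ Finset.range M,
    (S^[t] ⁻¹' E).indicator (fun _ => (1 : ℝ)) x with hf
  have hfc : ∀ x, f x = (Set.ncard {t : ℕ | t < M ∧ S^[t] x ∈ E} : ℝ) := by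
    intro x
    have e1 : {t : ℕ | t < M ∧ S^[t] x ∈ E} =
        (((Finset.range M).filter fun t => S^[t] x ∈ E : Finset ℕ) : Set ℕ) := by
      ext t
      simp
    rw [e1, Set.ncard_coe_finset, hf]
    simp only [Set.indicator_apply, Set.mem_preimage]
    rw [Finset.sum_boole]
  have hmt : ∀ t : ℕ, MeasurableSet (S^[t] ⁻¹' E) := fun t => (hS.iterate t).measurable hE
  have hfm : Measurable f :=
    Finset.measurable_sum _ fun t _ => measurable_const.indicator (hmt t)
  set D : Set X := {x | (δ / 2) * M ≤ f x} with hD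
  have hDm : MeasurableSet D := measurableSet_le measurable_const hfm
  have e2 : {x | (δ / 2) * M ≤ (Set.ncard {t : ℕ | t < M ∧ S^[t] x ∈ E} : ℝ)} = D := by
    ext x
    simp only [hD, Set.mem_setOf_eq, hfc]
  rw [e2]
  have hint : ∀ t : ℕ, Integrable ((S^[t] ⁻¹' E).indicator (fun _ => (1 : ℝ))) μ := fun t =>
    (integrable_const (1 : ℝ)).indicator (hmt t)
  have h1 : ∫ x, f x ∂μ = M * μ.real E := by
    rw [hf]
    simp only
    rw [integral_finset_sum _ fun t _ => hint t]
    have h2 : ∀ t ∈ Finset.range M, ∫ x, (S^[t] ⁻¹' E).indicator (fun _ => (1 : ℝ)) x ∂μ =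
        μ.real E := by
      intro t _
      rw [integral_indicator_const _ (hmt t),
        (hS.iterate t).measureReal_preimage hE.nullMeasurableSet]
      simp
    rw [Finset.sum_congr rfl h2]
    simp
  have hfle : ∀ x, f x ≤ M := by
    intro x
    rw [hfc]
    have h3 : Set.ncard {t : ℕ | t < M ∧ S^[t] x ∈ E} ≤ M := by
      have h4 : {t : ℕ | t < M ∧ S^[t] x ∈ E} ⊆ ((Finset.range M : Finset ℕ) : Set ℕ) := by
        intro t ht
        simpa using ht.1
      have h5 := Set.ncard_le_ncard h4 (Finset.finite_toSet _)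
      rwa [Set.ncard_coe_finset, Finset.card_range] at h5
    exact_mod_cast h3
  have h6 : ∫ x, f x ∂μ ≤ ∫ x, (D.indicator (fun _ => (M : ℝ)) x + (δ / 2) * M) ∂μ := by
    refine integral_mono (integrable_finset_sum _ fun t _ => hint t)
      (((integrable_const (M : ℝ)).indicator hDm).add (integrable_const _)) ?_
    intro x
    by_cases hx : x ∈ D
    · simp only [Set.indicator_of_mem hx]
      have := hfle x
      have h7 : 0 ≤ δ / 2 * M := by positivity
      linarith
    · simp only [Set.indicator_of_notMem hx, zero_add]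
      have h8 : ¬ (δ / 2) * M ≤ f x := hx
      exact (not_le.1 h8).le
  have h9 : ∫ x, (D.indicator (fun _ => (M : ℝ)) x + (δ / 2) * M) ∂μ =
      μ.real D * M + (δ / 2) * M := by
    rw [integral_add ((integrable_const (M : ℝ)).indicator hDm) (integrable_const _),
      integral_indicator_const _ hDm, integral_const]
    simp
  rw [h1, h9] at h6
  have h10 : M * δ ≤ M * μ.real E := mul_le_mul_of_nonneg_left h hM'.le
  have h11 : M * (δ / 2) ≤ M * μ.real D := by nlinarith
  exact le_of_mul_le_mul_left h11 hM'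

theorem prod_hits {X K V : Type*} [MeasurableSpace X] (μ : Measure X) [IsProbabilityMeasure μ]
    (S : X → X) (hS : MeasurePreserving S μ μ) [Field K] [AddCommGroup V] [Module K V]
    [FiniteDimensional K V] [Countable V] (φ : X → (V ≃ₗ[K] V))
    (hφ : ∀ v v' : V, MeasurableSet {x | φ x v = v'}) (k : ℕ) (hk : MixOrd μ S k)
    (m : Fin (k + 1) → V) (A : Fin (k + 1) → Set X) (hA : ∀ j, MeasurableSet (A j)) (δ : ℝ)
    (hδ : 0 < δ) (h : ∀ G : ℕ, ∃ n : Fin (k + 1) → ℕ, n 0 = 0 ∧
      (∀ j : Fin k, n j.castSucc + G ≤ n j.succ) ∧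
      δ ≤ μ.real {x | (∀ j, S^[n j] x ∈ A j) ∧ ∑ j, coc S φ (n j) x (m j) = 0}) (M : ℕ) :
    δ / 2 ≤ (Measure.pi fun _ : Fin (k + 1) => μ).real {y | ∃ W ∈ GP (K := K) (V := V) (k + 1),
      (δ / 2) * M ≤ hits (fun (y : Fin (k + 1) → X) j => S (y j)) (piC φ)
        {y | ∀ j, y j ∈ A j} m W M y} := by
  classical
  have hSm : Measurable S := hS.measurable
  -- the functions with countably many values
  set q : Fin (k + 1) → X → (Fin M → Bool × V) := fun j x t =>
    (decide (S^[(t : ℕ)] x ∈ A j), coc S φ t x (m j)) with hq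
  have hqm : ∀ j c, MeasurableSet {x | q j x = c} := by
    intro j c
    have e : {x | q j x = c} = ⋂ t : Fin M, ({x | decide (S^[(t : ℕ)] x ∈ A j) = (c t).1} ∩
        {x | coc S φ t x (m j) = (c t).2}) := by
      ext x
      simp only [Set.mem_setOf_eq, Set.mem_iInter, Set.mem_inter_iff, hq]
      constructor
      · intro hx t
        have h0 := congrFun hx t
        rw [← h0]
        exact ⟨rfl, rfl⟩
      · intro hx
        funext t
        exact Prod.ext (hx t).1 (hx t).2
    rw [e]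
    refine MeasurableSet.iInter fun t => MeasurableSet.inter ?_
      ((coc_meas S hSm φ hφ t).1 (m j) (c t).2)
    have hm : MeasurableSet (S^[(t : ℕ)] ⁻¹' A j) := (hS.iterate t).measurable (hA j)
    cases (c t).1 with
    | false =>
        have e2 : {x | decide (S^[(t : ℕ)] x ∈ A j) = false} = (S^[(t : ℕ)] ⁻¹' A j)ᶜ := by
          ext x; simp
        rw [e2]
        exact hm.compl
    | true =>
        have e2 : {x | decide (S^[(t : ℕ)] x ∈ A j) = true} = S^[(t : ℕ)] ⁻¹' A j := by
          ext x; simp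
        rw [e2]
        exact hm
  -- the property
  set P : Set (Fin (k + 1) → (Fin M → Bool × V)) := {c | ∃ W ∈ GP (K := K) (V := V) (k + 1),
    (δ / 2) * M ≤ (Set.ncard {t : ℕ | ∃ ht : t < M, (∀ j, (c j ⟨t, ht⟩).1 = true) ∧
      (fun j => (c j ⟨t, ht⟩).2) ∈ W} : ℝ)} with hP
  have hPe : ∀ y : Fin (k + 1) → X, (fun j => q j (y j)) ∈ P ↔
      ∃ W ∈ GP (K := K) (V := V) (k + 1),
      (δ / 2) * M ≤ hits (fun (y : Fin (k + 1) → X) j => S (y j)) (piC φ)
        {y | ∀ j, y j ∈ A j} m W M y := by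
    intro y
    simp only [hP, Set.mem_setOf_eq]
    refine exists_congr fun W => and_congr_right fun _ => ?_
    have e : {t : ℕ | ∃ ht : t < M, (∀ j, (q j (y j) ⟨t, ht⟩).1 = true) ∧
        (fun j => (q j (y j) ⟨t, ht⟩).2) ∈ W} = {t : ℕ | t < M ∧
          (fun (y : Fin (k + 1) → X) j => S (y j))^[t] y ∈ {y : Fin (k + 1) → X | ∀ j, y j ∈ A j} ∧
          coc (fun (y : Fin (k + 1) → X) j => S (y j)) (piC φ) t y m ∈ W} := by
      ext t
      simp only [Set.mem_setOf_eq, hq, decide_eq_true_eq, PH_aux_iter]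
      have e3 : ∀ t, (fun j => coc S φ t (y j) (m j)) =
          coc (fun (y : Fin (k + 1) → X) j => S (y j)) (piC φ) t y m := by
        intro t
        funext j
        rw [piC_coc]
      rw [e3]
      constructor
      · rintro ⟨h1, h2, h3⟩
        exact ⟨h1, h2, h3⟩
      · rintro ⟨h1, h2, h3⟩
        exact ⟨h1, h2, h3⟩
    unfold hits
    rw [e]
  have hset : {y : Fin (k + 1) → X | ∃ W ∈ GP (K := K) (V := V) (k + 1),
      (δ / 2) * M ≤ hits (fun (y : Fin (k + 1) → X) j => S (y j)) (piC φ)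
        {y | ∀ j, y j ∈ A j} m W M y} = {y | (fun j => q j (y j)) ∈ P} := by
    ext y
    exact (hPe y).symm
  rw [hset]
  apply le_of_forall_pos_le_add
  intro ε hε
  obtain ⟨G, hG⟩ := mix_countable μ S hS k hk q hqm P ε hε
  obtain ⟨n, hn0, hn1, hn2⟩ := h G
  have h1 := hG n hn0 hn1
  rw [abs_lt] at h1
  set E : Set X := {x | (∀ j, S^[n j] x ∈ A j) ∧ ∑ j, coc S φ (n j) x (m j) = 0} with hE
  have hEm : MeasurableSet E := by
    have e : E = (⋂ j, S^[n j] ⁻¹' A j) ∩ {x | ∑ j, coc S φ (n j) x (m j) = 0} := by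
      ext x
      simp [hE]
    rw [e]
    exact (MeasurableSet.iInter fun j => (hS.iterate (n j)).measurable (hA j)).inter
      (PH_aux_meas S hSm φ hφ n m)
  have h2 := PH_aux_visits μ S hS E hEm δ hδ hn2 M
  have h3 : {x | (δ / 2) * M ≤ (Set.ncard {t : ℕ | t < M ∧ S^[t] x ∈ E} : ℝ)} ⊆
      {x | (fun j => q j (S^[n j] x)) ∈ P} := by
    intro x hx
    have hx' : (δ / 2) * M ≤ (Set.ncard {t : ℕ | t < M ∧ S^[t] x ∈ E} : ℝ) := hx
    show (fun j => q j (S^[n j] x)) ∈ P
    let L : (Fin (k + 1) → V) →ₗ[K] V :=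
      ∑ j, ((coc S φ (n j) x : V ≃ₗ[K] V) : V →ₗ[K] V).comp (LinearMap.proj j)
    have hL : ∀ u : Fin (k + 1) → V, L u = ∑ j, coc S φ (n j) x (u j) := by
      intro u
      simp [L]
    rw [hP]
    refine ⟨LinearMap.ker L, ?_, ?_⟩
    · intro j v hv
      rw [LinearMap.mem_ker, hL] at hv
      rw [Finset.sum_eq_single j] at hv
      · rw [Pi.single_eq_same] at hv
        exact (LinearEquiv.map_eq_zero_iff _).1 hv
      · intro i _ hi
        rw [Pi.single_eq_of_ne hi, map_zero]
      · intro hj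
        exact absurd (Finset.mem_univ j) hj
    · refine hx'.trans ?_
      have h4 : {t : ℕ | t < M ∧ S^[t] x ∈ E} ⊆
          {t : ℕ | ∃ ht : t < M, (∀ j, (q j (S^[n j] x) ⟨t, ht⟩).1 = true) ∧
            (fun j => (q j (S^[n j] x) ⟨t, ht⟩).2) ∈ LinearMap.ker L} := by
        rintro t ⟨ht, htE⟩
        refine ⟨ht, ?_, ?_⟩
        · intro j
          simp only [hq, decide_eq_true_eq]
          rw [← Function.iterate_add_apply, add_comm, Function.iterate_add_apply]
          exact htE.1 j
        · rw [LinearMap.mem_ker, hL]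
          simp only [hq]
          have h5 : ∀ j, coc S φ (n j) x (coc S φ t (S^[n j] x) (m j)) =
              coc S φ t x (coc S φ (n j) (S^[t] x) (m j)) := by
            intro j
            have h6 := PH_aux_coc_add S φ (n j) t x
            have h7 := PH_aux_coc_add S φ t (n j) x
            rw [add_comm] at h7
            rw [h6] at h7
            exact congrArg (fun g : V ≃ₗ[K] V => g (m j)) h7
          rw [Finset.sum_congr rfl fun j _ => h5 j, ← map_sum, htE.2, map_zero]
      have h8 : Set.Finite {t : ℕ | ∃ ht : t < M, (∀ j, (q j (S^[n j] x) ⟨t, ht⟩).1 = true) ∧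
            (fun j => (q j (S^[n j] x) ⟨t, ht⟩).2) ∈ LinearMap.ker L} :=
        (Set.finite_lt_nat M).subset fun t ht => ht.1
      exact_mod_cast Set.ncard_le_ncard h4 h8
  have h9 := measureReal_mono (μ := μ) h3
  linarith [h1.2]

end H567MM.P
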