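import Pool.Agent.H567R2.MO.Stubs

/-! Separation of variables. -/

namespace H567MM.P

open H567MM MeasureTheory Filter Topology

/-- the set where two functions with countably many values, given by a fixed relation, agree -/
theorem SE_aux_rel {Z κ₁ κ₂ : Type*} [MeasurableSpace Z] [Countable κ₁] [Countable κ₂]
    (p : Z → κ₁) (q : Z → κ₂) (hp : ∀ c, MeasurableSet {z | p z = c})
    (hq : ∀ c, MeasurableSet {z | q z = c}) (R : κ₁ → κ₂ → Prop) :
    MeasurableSet {z | R (p z) (q z)} := by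
  have h : {z | R (p z) (q z)} =
      ⋃ c : κ₁, ⋃ d : κ₂, {z | p z = c} ∩ {z | q z = d} ∩ {_z | R c d} := by
    ext z
    simp only [Set.mem_ofPred_eq, Set.mem_iUnion, Set.mem_inter_iff]
    constructor
    · intro h
      exact ⟨p z, q z, ⟨rfl, rfl⟩, h⟩
    · rintro ⟨c, d, ⟨rfl, rfl⟩, h⟩
      exact h
  rw [h]
  refine MeasurableSet.iUnion fun c => MeasurableSet.iUnion fun d => ?_
  exact ((hp c).inter (hq d)).inter (MeasurableSet.const _)

/-- SE -/
theorem separated {X K V : Type*} [MeasurableSpace X] (μ : Measure X) [IsProbabilityMeasure μ]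
    (S : X → X) (hS : MeasurePreserving S μ μ) (hmix : MixOrd μ S 1) [Field K]
    [AddCommGroup V] [Module K V] [FiniteDimensional K V] [Countable V] (φ : X → (V ≃ₗ[K] V))
    (hφ : ∀ v v' : V, MeasurableSet {x | φ x v = v'})
    (F : X × X → Finset (Submodule K (V × V))) (f : ℕ) (hF : ∀ w, MeasurableSet {z | F z = w})
    (hf : ∀ z, (F z).card ≤ f) (hG : ∀ z, ∀ W ∈ F z, W ∈ G2 (K := K) (V := V))
    (heq : ∀ᵐ z ∂(μ.prod μ), F z = imC (φ z.1) (φ z.2) (F (S z.1, S z.2))) :
    ∃ (F₀ : X → Finset (Submodule K (V × V))) (g : X → (V ≃ₗ[K] V)),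
      (∀ w, MeasurableSet {a | F₀ a = w}) ∧ (∀ e, MeasurableSet {x | g x = e}) ∧
      (∀ a, (F₀ a).card ≤ f) ∧ (∀ a, ∀ W ∈ F₀ a, W ∈ G2 (K := K) (V := V)) ∧
      ∀ᵐ z ∂(μ.prod μ), F z = imF (g z.2) (F₀ z.1) := by
  classical
  have : Countable (Submodule K (V × V)) := H567MM.countable_submodule
  have : Countable (V ≃ₗ[K] V) := H567MM.countable_equiv
  have hsec : ∀ (c : X) w, MeasurableSet {a | F (a, c) = w} := fun c w =>
    (measurable_prodMk_right (y := c)) (hF w)
  have h1 : ∀ᵐ p ∂(μ.prod μ), ∃ g : V ≃ₗ[K] V, ∀ᵐ a ∂μ, imF g (F (a, p.1)) = F (a, p.2) := by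
    filter_upwards [H567MM.zero_inf μ S hS hmix φ hφ F hF heq] with p hp
    exact H567MM.attained μ (fun a => F (a, p.1)) (fun a => F (a, p.2)) f (hsec p.1) (hsec p.2)
      (fun a => hf _) (fun a => hG _) (fun a => hG _) hp
  obtain ⟨c0, hc0⟩ : ∃ c0, ∀ᵐ c ∂μ, ∃ g : V ≃ₗ[K] V, ∀ᵐ a ∂μ,
      imF g (F (a, c0)) = F (a, c) := (Measure.ae_ae_of_ae_prod h1).exists
  obtain ⟨e, he⟩ := exists_surjective_nat (V ≃ₗ[K] V)
  -- the exceptional sets
  let T : (V ≃ₗ[K] V) → Set (X × X) := fun g => {z | imF g (F (z.1, c0)) ≠ F z}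
  have hT : ∀ g, MeasurableSet (T g) := by
    intro g
    have hfst : ∀ w, MeasurableSet {z : X × X | F (z.1, c0) = w} := fun w =>
      measurable_fst (hsec c0 w)
    exact SE_aux_rel (fun z : X × X => F (z.1, c0)) F hfst hF (fun w w' => imF g w ≠ w')
  let N : ℕ → X → ENNReal := fun n c => μ ((fun a => (a, c)) ⁻¹' T (e n))
  have hN : ∀ n, Measurable (N n) := fun n => measurable_measure_prodMk_right (hT (e n))
  let p : X → ℕ → Prop := fun c n => N n c = 0 ∨ ∀ k, N k c ≠ 0
  have hpm : ∀ n, MeasurableSet {c | p c n} := by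
    intro n
    have h2 : {c | p c n} = {c | N n c = 0} ∪ ⋂ k, {c | N k c = 0}ᶜ := by
      ext c
      simp only [Set.mem_ofPred_eq, Set.mem_union, Set.mem_iInter, Set.mem_compl_iff, p]
    rw [h2]
    refine MeasurableSet.union ((hN n) (measurableSet_singleton 0)) ?_
    exact MeasurableSet.iInter fun k => ((hN k) (measurableSet_singleton 0)).compl
  have hpe : ∀ c, ∃ n, p c n := by
    intro c
    by_cases h : ∃ n, N n c = 0
    · obtain ⟨n, hn⟩ := h
      exact ⟨n, Or.inl hn⟩
    · push Not at h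
      exact ⟨0, Or.inr h⟩
  have hfind : Measurable fun c => Nat.find (hpe c) := measurable_find hpe hpm
  refine ⟨fun a => F (a, c0), fun c => e (Nat.find (hpe c)), hsec c0, ?_, fun a => hf _,
    fun a => hG _, ?_⟩
  · intro g
    have h3 : {x | e (Nat.find (hpe x)) = g} = (fun c => Nat.find (hpe c)) ⁻¹' (e ⁻¹' {g}) := rfl
    rw [h3]
    exact hfind (MeasurableSet.of_discrete)
  · -- the set where the equality fails
    have hgm : ∀ g, MeasurableSet {z : X × X | e (Nat.find (hpe z.2)) = g} := by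
      intro g
      have h3 : {z : X × X | e (Nat.find (hpe z.2)) = g} =
        (fun z : X × X => Nat.find (hpe z.2)) ⁻¹' (e ⁻¹' {g}) := rfl
      rw [h3]
      exact (hfind.comp measurable_snd) (MeasurableSet.of_discrete)
    have hfst : ∀ w, MeasurableSet {z : X × X | F (z.1, c0) = w} := fun w =>
      measurable_fst (hsec c0 w)
    have hpair : ∀ w : (V ≃ₗ[K] V) × Finset (Submodule K (V × V)),
        MeasurableSet {z : X × X | (e (Nat.find (hpe z.2)), F (z.1, c0)) = w} := by
      intro w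
      have h4 : {z : X × X | (e (Nat.find (hpe z.2)), F (z.1, c0)) = w} =
          {z | e (Nat.find (hpe z.2)) = w.1} ∩ {z | F (z.1, c0) = w.2} := by
        ext z
        simp only [Set.mem_ofPred_eq, Set.mem_inter_iff, Prod.ext_iff]
      rw [h4]
      exact (hgm w.1).inter (hfst w.2)
    have hB : MeasurableSet {z : X × X | ¬ F z = imF (e (Nat.find (hpe z.2))) (F (z.1, c0))} :=
      SE_aux_rel (fun z : X × X => (e (Nat.find (hpe z.2)), F (z.1, c0))) F hpair hF
        (fun w w' => ¬ w' = imF w.1 w.2)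
    rw [ae_iff]
    rw [Measure.prod_apply_symm hB]
    rw [lintegral_eq_zero_iff (measurable_measure_prodMk_right hB)]
    filter_upwards [hc0] with c hc
    obtain ⟨g, hg⟩ := hc
    obtain ⟨n, rfl⟩ := he g
    have h5 : N n c = 0 := by
      show μ ((fun a => (a, c)) ⁻¹' T (e n)) = 0
      exact hg
    have h6 : N (Nat.find (hpe c)) c = 0 := by
      rcases Nat.find_spec (hpe c) with h | h
      · exact h
      · exact absurd h5 (h n)
    show μ ((fun a => (a, c)) ⁻¹' _) = 0
    refine measure_mono_null ?_ h6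
    intro a ha
    show imF (e (Nat.find (hpe c))) (F (a, c0)) ≠ F (a, c)
    intro hcon
    exact ha hcon.symm

end H567MM.P
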