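import Pool.Agent.H567R2.MO.Stubs

/-! SM2: reduction of modules to vector spaces (helper493) -/

namespace H567MM.P

open MeasureTheory Filter Topology H567MM

theorem SM2_coc {X G G' : Type*} [Monoid G] [Monoid G'] (S : X → X) (φ : X → G) (F : G →* G')
    (n : ℕ) (x : X) : coc S (fun x => F (φ x)) n x = F (coc S φ n x) := by
  induction n with
  | zero => simp [coc]
  | succ n ih => simp [coc, ih]

theorem small_module2 {X R M : Type*} [MeasurableSpace X] (μ : Measure X)
    [IsProbabilityMeasure μ] (S : X → X) (hS : MeasurePreserving S μ μ) (hmix : MixOrd μ S 1)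
    [CommRing R] [IsNoetherianRing R] [AddCommGroup M] [Module R M] [Module.Finite R M]
    [Countable M] (φ : X → (M ≃ₗ[R] M)) (hφ : ∀ v v' : M, MeasurableSet {x | φ x v = v'})
    (htr : ∀ v : M, v ≠ 0 → NTrans μ S φ v) (k : ℕ) (hk : MixOrd μ S k)
    (m : Fin (k + 1) → M) (hm : m ≠ 0) (ε : ℝ) (hε : 0 < ε) :
    ∃ G : ℕ, ∀ n : Fin (k + 1) → ℕ, n 0 = 0 → (∀ j : Fin k, n j.castSucc + G ≤ n j.succ) →
      μ.real {x | ∑ j, coc S φ (n j) x (m j) = 0} < ε := by
  obtain ⟨K, iF, iC, V, iV, iM, iFD, F, w, hw, h1, h2⟩ := H567MM.residue2 (R := R) m hm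
  have iCV : Countable V := (Module.finBasis K V).equivFun.toEquiv.injective.countable
  have hφ' : ∀ v v' : V, MeasurableSet {x | F (φ x) v = v'} := by
    intro v v'
    obtain ⟨m', m'', hne, hg⟩ := h2 v v'
    have he : {x | F (φ x) v = v'} = {x | φ x m' = m''} := by
      ext x
      exact hg _
    rw [he]
    exact hφ m' m''
  have htr' : ∀ v : V, v ≠ 0 → NTrans μ S (fun x => F (φ x)) v := by
    intro v hv v' c hc
    obtain ⟨m', m'', hne, hg⟩ := h2 v v'
    obtain ⟨N₀, hN⟩ := htr m' (hne hv) m'' c hc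
    refine ⟨N₀, fun N hNN => ?_⟩
    have h3 := hN N hNN
    have he : ∀ n, {x | coc S (fun x => F (φ x)) n x v = v'} = {x | coc S φ n x m' = m''} := by
      intro n
      ext x
      simp only [Set.mem_ofPred_eq]
      rw [SM2_coc S φ F n x]
      exact hg _
    simp only [he]
    exact h3
  obtain ⟨G, hG⟩ := H567MM.small_field μ S hS hmix (fun x => F (φ x)) hφ' htr' k hk w hw ε hε
  refine ⟨G, fun n hn0 hn => lt_of_le_of_lt (measureReal_mono ?_ (measure_ne_top μ _))
    (hG n hn0 hn)⟩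
  intro x hx
  have h3 := h1 (fun j => coc S φ (n j) x) hx
  simp only [Set.mem_ofPred_eq]
  rw [← h3]
  refine Finset.sum_congr rfl fun j _ => ?_
  rw [SM2_coc S φ F (n j) x]

end H567MM.P
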