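import Pool.Agent.H567R2.MO.Stubs

namespace H567MM.P

open H567MM MeasureTheory Filter Topology

theorem SR_coc_add {X G : Type*} [Monoid G] (S : X → X) (φ : X → G) (m n : ℕ) (x : X) :
    coc S φ (m + n) x = coc S φ m x * coc S φ n (S^[m] x) := by
  induction n with
  | zero => simp [coc]
  | succ n ih =>
    rw [← add_assoc]
    show coc S φ (m + n) x * φ (S^[m + n] x) =
      coc S φ m x * (coc S φ n (S^[m] x) * φ (S^[n] (S^[m] x)))
    rw [ih, mul_assoc, add_comm m n, Function.iterate_add_apply]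

open Classical in
theorem SR_mk {Ω ι : Type*} [MeasurableSpace Ω] (P : Measure Ω) [IsProbabilityMeasure P]
    (s : Finset ι) (B : ι → Set Ω) (hB : ∀ i ∈ s, MeasurableSet (B i)) (D : Set Ω) (κ : ℝ)
    (hκ : 0 ≤ κ) (h : ∀ ω ∈ D, κ ≤ ((s.filter (fun i => ω ∈ B i)).card : ℝ)) :
    κ * P.real D ≤ ∑ i ∈ s, P.real (B i) := by
  let f : Ω → ℝ := fun ω => ∑ i ∈ s, (B i).indicator (fun _ => (1 : ℝ)) ω
  have hf : ∀ ω, f ω = ((s.filter (fun i => ω ∈ B i)).card : ℝ) := by
    intro ω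
    rw [Finset.card_filter]
    push_cast
    apply Finset.sum_congr rfl
    intro i _
    rw [Set.indicator_apply]
  have hint : Integrable f P :=
    integrable_finsetSum s (fun i hi => (integrable_const (1 : ℝ)).indicator (hB i hi))
  have hnn : 0 ≤ᵐ[P] f := by
    filter_upwards with ω
    rw [Pi.zero_apply, hf]
    positivity
  have h1 := mul_meas_ge_le_integral_of_nonneg hnn hint κ
  have h2 : ∫ ω, f ω ∂P = ∑ i ∈ s, P.real (B i) := by
    rw [integral_finsetSum s (fun i hi => (integrable_const (1 : ℝ)).indicator (hB i hi))]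
    apply Finset.sum_congr rfl
    intro i hi
    rw [integral_indicator_const (1 : ℝ) (hB i hi), smul_eq_mul, mul_one]
  have h3 : P.real D ≤ P.real {ω | κ ≤ f ω} := by
    refine measureReal_mono ?_ (measure_ne_top P _)
    intro ω hω
    show κ ≤ f ω
    rw [hf]
    exact h ω hω
  calc κ * P.real D ≤ κ * P.real {ω | κ ≤ f ω} := mul_le_mul_of_nonneg_left h3 hκ
    _ ≤ _ := h1.trans (le_of_eq h2)

theorem SR_pre {Ω : Type*} [MeasurableSpace Ω] {P : Measure Ω} {S : Ω → Ω}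
    (hS : MeasurePreserving S P P) (n : ℕ) {B : Set Ω} (hB : MeasurableSet B) :
    P.real (S^[n] ⁻¹' B) = P.real B := by
  unfold Measure.real
  rw [(hS.iterate n).measure_preimage hB.nullMeasurableSet]

theorem SR_dist (q : ℕ) (f : ℕ → ℝ) (hf : ∀ j, 0 ≤ f j) (i : ℕ) (hi : i < q) :
    ∑ i' ∈ Finset.range q, (if i ≤ i' then f (i' - i) else f (i - i')) ≤
      2 * ∑ j ∈ Finset.range q, f j := by
  classical
  rw [Finset.sum_ite, two_mul]
  apply add_le_add
  · have h1 : ∑ x ∈ (Finset.range q).filter (fun x => i ≤ x), f (x - i) =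
        ∑ j ∈ ((Finset.range q).filter (fun x => i ≤ x)).image (fun x => x - i), f j := by
      rw [Finset.sum_image]
      intro a ha b hb hab
      have ha' := (Finset.mem_filter.1 ha).2
      have hb' := (Finset.mem_filter.1 hb).2
      simp only at hab
      omega
    rw [h1]
    apply Finset.sum_le_sum_of_subset_of_nonneg
    · intro j hj
      obtain ⟨x, hx, rfl⟩ := Finset.mem_image.1 hj
      have hx' := (Finset.mem_filter.1 hx)
      rw [Finset.mem_range] at hx' ⊢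
      omega
    · intro j _ _
      exact hf j
  · have h1 : ∑ x ∈ (Finset.range q).filter (fun x => ¬ i ≤ x), f (i - x) =
        ∑ j ∈ ((Finset.range q).filter (fun x => ¬ i ≤ x)).image (fun x => i - x), f j := by
      rw [Finset.sum_image]
      intro a ha b hb hab
      have ha' := (Finset.mem_filter.1 ha).2
      have hb' := (Finset.mem_filter.1 hb).2
      simp only at hab
      omega
    rw [h1]
    apply Finset.sum_le_sum_of_subset_of_nonneg
    · intro j hj
      obtain ⟨x, hx, rfl⟩ := Finset.mem_image.1 hj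
      rw [Finset.mem_range]
      omega
    · intro j _ _
      exact hf j

theorem SR_sub (q L : ℕ) (hL : 0 < L) (f : ℕ → ℝ) (hf : ∀ j, 0 ≤ f j) :
    ∑ j ∈ Finset.range q, f (j * L) ≤ ∑ n ∈ Finset.range (q * L), f n := by
  classical
  have h1 : ∑ j ∈ Finset.range q, f (j * L) =
      ∑ n ∈ (Finset.range q).image (fun j => j * L), f n := by
    rw [Finset.sum_image]
    intro a _ b _ hab
    exact Nat.eq_of_mul_eq_mul_right hL hab
  rw [h1]
  apply Finset.sum_le_sum_of_subset_of_nonneg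
  · intro n hn
    obtain ⟨j, hj, rfl⟩ := Finset.mem_image.1 hn
    rw [Finset.mem_range] at hj ⊢
    exact Nat.mul_lt_mul_of_pos_right hj hL
  · intro j _ _
    exact hf j

section

variable {Ω K U : Type*} [MeasurableSpace Ω] [Field K] [AddCommGroup U] [Module K U]
  [FiniteDimensional K U] [Countable U] {S : Ω → Ω} {C : Ω → (U ≃ₗ[K] U)} {A : Set Ω} {u : U}
  {G : Set (Submodule K U)}

theorem SR_Esp_meas (hS : Measurable S) (hC : ∀ u u' : U, MeasurableSet {ω | C ω u = u'})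
    (hA : MeasurableSet A) (a : Finset ℕ) : MeasurableSet (Esp S C A u G a) := by
  have : Countable (Submodule K U) := countable_submodule
  have h1 : Esp S C A u G a = (⋃ W ∈ G, {ω | wsp S C u a ω = W}) ∩
      ⋂ t ∈ a, S^[t] ⁻¹' A := by
    ext ω
    simp [Esp]
  rw [h1]
  apply MeasurableSet.inter
  · exact MeasurableSet.biUnion (Set.to_countable G) (fun W _ => wsp_meas S hS C hC u a W)
  · exact MeasurableSet.biInter (Set.to_countable _) (fun t _ => (hS.iterate t) hA)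

theorem SR_map_meas (hS : Measurable S) (hC : ∀ u u' : U, MeasurableSet {ω | C ω u = u'})
    (a : Finset ℕ) (n : ℕ) (W : Submodule K U) :
    MeasurableSet {ω | (wsp S C u a (S^[n] ω)).map
      ((coc S C n ω : U ≃ₗ[K] U) : U →ₗ[K] U) = W} := by
  have h0 : Countable (Submodule K U) := countable_submodule
  have h0' : Countable (U ≃ₗ[K] U) := countable_equiv
  have h1 : {ω | (wsp S C u a (S^[n] ω)).map
      ((coc S C n ω : U ≃ₗ[K] U) : U →ₗ[K] U) = W} =
      ⋃ g : U ≃ₗ[K] U, ⋃ W' : Submodule K U, ⋃ _ : W'.map (g : U →ₗ[K] U) = W,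
        ({ω | coc S C n ω = g} ∩ S^[n] ⁻¹' {ω | wsp S C u a ω = W'}) := by
    ext ω
    simp only [Set.mem_ofPred_eq, Set.mem_iUnion, Set.mem_inter_iff, Set.mem_preimage]
    constructor
    · intro h
      exact ⟨coc S C n ω, wsp S C u a (S^[n] ω), h, rfl, rfl⟩
    · rintro ⟨g, W', h, rfl, rfl⟩
      exact h
  rw [h1]
  refine MeasurableSet.iUnion fun g => MeasurableSet.iUnion fun W' => MeasurableSet.iUnion fun _ =>
    ?_
  exact ((coc_meas S hS C hC n).2 g).inter ((hS.iterate n) (wsp_meas S hS C hC u a W'))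

theorem SR_map_eq_meas (hS : Measurable S) (hC : ∀ u u' : U, MeasurableSet {ω | C ω u = u'})
    (a : Finset ℕ) (n n' : ℕ) :
    MeasurableSet {ω | (wsp S C u a (S^[n] ω)).map
      ((coc S C n ω : U ≃ₗ[K] U) : U →ₗ[K] U) = (wsp S C u a (S^[n'] ω)).map
      ((coc S C n' ω : U ≃ₗ[K] U) : U →ₗ[K] U)} := by
  have h0 : Countable (Submodule K U) := countable_submodule
  have h1 : {ω | (wsp S C u a (S^[n] ω)).map
      ((coc S C n ω : U ≃ₗ[K] U) : U →ₗ[K] U) = (wsp S C u a (S^[n'] ω)).map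
      ((coc S C n' ω : U ≃ₗ[K] U) : U →ₗ[K] U)} =
      ⋃ W : Submodule K U, ({ω | (wsp S C u a (S^[n] ω)).map
        ((coc S C n ω : U ≃ₗ[K] U) : U →ₗ[K] U) = W} ∩ {ω | (wsp S C u a (S^[n'] ω)).map
        ((coc S C n' ω : U ≃ₗ[K] U) : U →ₗ[K] U) = W}) := by
    ext ω
    simp only [Set.mem_ofPred_eq, Set.mem_iUnion, Set.mem_inter_iff]
    constructor
    · intro h
      exact ⟨_, rfl, h.symm⟩
    · rintro ⟨W, h, h'⟩
      rw [h, h']
  rw [h1]
  exact MeasurableSet.iUnion fun W =>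
    (SR_map_meas hS hC a n W).inter (SR_map_meas hS hC a n' W)

theorem SR_bad_meas (hS : Measurable S) (hC : ∀ u u' : U, MeasurableSet {ω | C ω u = u'})
    (hA : MeasurableSet A) (r L : ℕ) (b : ℝ) : MeasurableSet {ω | ∃ W' ∈ G,
      Module.finrank K W' < r ∧ b ≤ hits S C A u W' L ω} := by
  have h0 : Countable (Submodule K U) := countable_submodule
  have h1 : {ω | ∃ W' ∈ G, Module.finrank K W' < r ∧ b ≤ hits S C A u W' L ω} =
      ⋃ W' : Submodule K U, ⋃ _ : W' ∈ G ∧ Module.finrank K W' < r, ⋃ n : ℕ, ⋃ _ : b ≤ n,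
        {ω | hits S C A u W' L ω = n} := by
    ext ω
    simp only [Set.mem_ofPred_eq, Set.mem_iUnion]
    constructor
    · rintro ⟨W', h1, h2, h3⟩
      exact ⟨W', ⟨h1, h2⟩, _, h3, rfl⟩
    · rintro ⟨W', ⟨h1, h2⟩, n, h3, h4⟩
      exact ⟨W', h1, h2, by rw [h4]; exact h3⟩
  rw [h1]
  exact MeasurableSet.iUnion fun W' => MeasurableSet.iUnion fun _ => MeasurableSet.iUnion fun n =>
    MeasurableSet.iUnion fun _ => hits_meas S hS C hC A hA u W' L n

/-- the recurrence event -/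
def SR_Q (S : Ω → Ω) (C : Ω → (U ≃ₗ[K] U)) (A : Set Ω) (u : U) (G : Set (Submodule K U))
    (a : Finset ℕ) (n : ℕ) : Set Ω := {ω | ω ∈ Esp S C A u G a ∧ S^[n] ω ∈ Esp S C A u G a ∧
        (wsp S C u a (S^[n] ω)).map ((coc S C n ω : U ≃ₗ[K] U) : U →ₗ[K] U) =
          wsp S C u a ω}

/-- the pair event -/
def SR_P (S : Ω → Ω) (C : Ω → (U ≃ₗ[K] U)) (A : Set Ω) (u : U) (G : Set (Submodule K U))
    (a : Finset ℕ) (n n' : ℕ) : Set Ω :=
  {ω | S^[n] ω ∈ Esp S C A u G a ∧ S^[n'] ω ∈ Esp S C A u G a ∧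
        (wsp S C u a (S^[n] ω)).map ((coc S C n ω : U ≃ₗ[K] U) : U →ₗ[K] U) =
          (wsp S C u a (S^[n'] ω)).map ((coc S C n' ω : U ≃ₗ[K] U) : U →ₗ[K] U)}

theorem SR_P_meas (hS : Measurable S) (hC : ∀ u u' : U, MeasurableSet {ω | C ω u = u'})
    (hA : MeasurableSet A) (a : Finset ℕ) (n n' : ℕ) : MeasurableSet (SR_P S C A u G a n n') := by
  have h1 : MeasurableSet (S^[n] ⁻¹' (Esp S C A u G a)) :=
    (hS.iterate n) (SR_Esp_meas hS hC hA a)
  have h2 : MeasurableSet (S^[n'] ⁻¹' (Esp S C A u G a)) :=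
    (hS.iterate n') (SR_Esp_meas hS hC hA a)
  have h3 := SR_map_eq_meas (u := u) hS hC a n n'
  have h4 : SR_P S C A u G a n n' = (S^[n] ⁻¹' (Esp S C A u G a)) ∩
      ((S^[n'] ⁻¹' (Esp S C A u G a)) ∩ {ω | (wsp S C u a (S^[n] ω)).map
      ((coc S C n ω : U ≃ₗ[K] U) : U →ₗ[K] U) = (wsp S C u a (S^[n'] ω)).map
      ((coc S C n' ω : U ≃ₗ[K] U) : U →ₗ[K] U)}) := by
    ext ω
    simp only [SR_P, Set.mem_ofPred_eq, Set.mem_inter_iff, Set.mem_preimage]
  rw [h4]
  exact h1.inter (h2.inter h3)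

theorem SR_Q_eq (a : Finset ℕ) (n : ℕ) : SR_Q S C A u G a n = SR_P S C A u G a n 0 := by
  ext ω
  have h0 : (wsp S C u a (S^[0] ω)).map ((coc S C 0 ω : U ≃ₗ[K] U) : U →ₗ[K] U) =
      wsp S C u a ω := by
    show (wsp S C u a ω).map (((1 : U ≃ₗ[K] U)) : U →ₗ[K] U) = wsp S C u a ω
    have : (((1 : U ≃ₗ[K] U)) : U →ₗ[K] U) = LinearMap.id := rfl
    rw [this, Submodule.map_id]
  constructor
  · rintro ⟨h1, h2, h3⟩
    refine ⟨h2, h1, ?_⟩
    rw [h0]
    exact h3
  · rintro ⟨h1, h2, h3⟩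
    refine ⟨h2, h1, ?_⟩
    rw [h0] at h3
    exact h3

theorem SR_Q_meas (hS : Measurable S) (hC : ∀ u u' : U, MeasurableSet {ω | C ω u = u'})
    (hA : MeasurableSet A) (a : Finset ℕ) (n : ℕ) : MeasurableSet (SR_Q S C A u G a n) := by
  rw [SR_Q_eq]
  exact SR_P_meas hS hC hA a n 0

theorem SR_P_symm (a : Finset ℕ) (n n' : ℕ) :
    SR_P S C A u G a n n' = SR_P S C A u G a n' n := by
  ext ω
  constructor
  · rintro ⟨h1, h2, h3⟩
    exact ⟨h2, h1, h3.symm⟩
  · rintro ⟨h1, h2, h3⟩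
    exact ⟨h2, h1, h3.symm⟩

theorem SR_P_pre (a : Finset ℕ) (n d : ℕ) :
    SR_P S C A u G a n (n + d) = S^[n] ⁻¹' (SR_Q S C A u G a d) := by
  ext ω
  have e1 : S^[n + d] ω = S^[d] (S^[n] ω) := by
    rw [add_comm, Function.iterate_add_apply]
  have e2 : ∀ W : Submodule K U,
      W.map ((coc S C (n + d) ω : U ≃ₗ[K] U) : U →ₗ[K] U) =
      (W.map ((coc S C d (S^[n] ω) : U ≃ₗ[K] U) : U →ₗ[K] U)).map
        ((coc S C n ω : U ≃ₗ[K] U) : U →ₗ[K] U) := by
    intro W
    rw [SR_coc_add, ← Submodule.map_comp]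
    rfl
  have hinj : Function.Injective
      (Submodule.map ((coc S C n ω : U ≃ₗ[K] U) : U →ₗ[K] U)) :=
    Submodule.map_injective_of_injective (coc S C n ω).injective
  constructor
  · rintro ⟨h1, h2, h3⟩
    rw [e1] at h2 h3
    rw [e2] at h3
    exact ⟨h1, h2, (hinj h3).symm⟩
  · rintro ⟨h1, h2, h3⟩
    refine ⟨h1, ?_, ?_⟩
    · rw [e1]; exact h2
    · rw [e1, e2]
      have h3' : (wsp S C u a (S^[d] (S^[n] ω))).map
        ((coc S C d (S^[n] ω) : U ≃ₗ[K] U) : U →ₗ[K] U) = wsp S C u a (S^[n] ω) := h3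
      rw [h3']

theorem SR_P_prob (P : Measure Ω) (hS : MeasurePreserving S P P)
    (hC : ∀ u u' : U, MeasurableSet {ω | C ω u = u'}) (hA : MeasurableSet A) (a : Finset ℕ)
    (L i i' : ℕ) :
    P.real (SR_P S C A u G a (i * L) (i' * L)) =
      if i ≤ i' then P.real (SR_Q S C A u G a ((i' - i) * L)) else
        P.real (SR_Q S C A u G a ((i - i') * L)) := by
  split_ifs with h
  · obtain ⟨d, rfl⟩ := Nat.exists_eq_add_of_le h
    rw [Nat.add_sub_cancel_left, add_mul, SR_P_pre,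
      SR_pre hS _ (SR_Q_meas hS.measurable hC hA a _)]
  · obtain ⟨d, rfl⟩ := Nat.exists_eq_add_of_le (le_of_not_ge h)
    rw [Nat.add_sub_cancel_left, SR_P_symm, add_mul, SR_P_pre,
      SR_pre hS _ (SR_Q_meas hS.measurable hC hA a _)]

end

theorem shape_rec {Ω K U : Type*} [MeasurableSpace Ω] (P : Measure Ω) [IsProbabilityMeasure P]
    (S : Ω → Ω) (hS : MeasurePreserving S P P) [Field K] [AddCommGroup U] [Module K U]
    [FiniteDimensional K U] [Countable U] (C : Ω → (U ≃ₗ[K] U))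
    (hC : ∀ u u' : U, MeasurableSet {ω | C ω u = u'}) (A : Set Ω) (hA : MeasurableSet A) (u : U)
    (G : Set (Submodule K U)) (hdown : ∀ W ∈ G, ∀ W' ≤ W, W' ∈ G)
    (hinv : ∀ ω (W : Submodule K U), W ∈ G ↔ W.map (C ω : U →ₗ[K] U) ∈ G) (r : ℕ) (c : ℝ)
    (hc : 0 < c) (h : ∀ M₀ : ℕ, ∃ M ≥ M₀, c ≤ P.real {ω | ∃ W ∈ G, Module.finrank K W ≤ r ∧
      c * M ≤ hits S C A u W M ω})
    (hmin : ∀ c' : ℝ, 0 < c' → ∃ M₀ : ℕ, ∀ M ≥ M₀, P.real {ω | ∃ W ∈ G,
      Module.finrank K W < r ∧ c' * M ≤ hits S C A u W M ω} < c') :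
    ∃ (a : Finset ℕ) (c₁ : ℝ), a.Nonempty ∧ 0 < c₁ ∧ ∀ N₀ : ℕ, ∃ N ≥ N₀, c₁ * N ≤
      ∑ n ∈ Finset.range N, P.real {ω | ω ∈ Esp S C A u G a ∧ S^[n] ω ∈ Esp S C A u G a ∧
        (wsp S C u a (S^[n] ω)).map ((coc S C n ω : U ≃ₗ[K] U) : U →ₗ[K] U) =
          wsp S C u a ω} := by
  classical
  obtain ⟨M₀, hM₀⟩ := hmin (min (c / 2) (c ^ 2 / 16)) (lt_min (by positivity) (by positivity))
  set L : ℕ := max M₀ 1 with hL
  have hL1 : 0 < L := lt_of_lt_of_le one_pos (le_max_right _ _)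
  set Bad : Set Ω := {ω | ∃ W' ∈ G, Module.finrank K W' < r ∧
    (c / 2) * L ≤ hits S C A u W' L ω} with hBaddef
  have hBadm : MeasurableSet Bad := SR_bad_meas hS.measurable hC hA r L _
  have hBad : P.real Bad ≤ c ^ 2 / 16 := by
    have h1 := hM₀ L (le_max_left _ _)
    refine le_trans (measureReal_mono ?_ (measure_ne_top _ _)) (h1.le.trans (min_le_right _ _))
    rintro ω ⟨W', h2, h3, h4⟩
    exact ⟨W', h2, h3, le_trans
      (mul_le_mul_of_nonneg_right (min_le_left _ _) (Nat.cast_nonneg _)) h4⟩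
  set Sh : Finset (Finset ℕ) := (Finset.range L).powerset.filter (fun a => a.Nonempty) with hSh
  have hShc : (Sh.card : ℝ) ≤ 2 ^ L := by
    have h1 : Sh.card ≤ (Finset.range L).powerset.card := Finset.card_filter_le _ _
    rw [Finset.card_powerset, Finset.card_range] at h1
    exact_mod_cast h1
  set p : Finset ℕ → ℕ → ℝ := fun a n => P.real (SR_Q S C A u G a n) with hp
  have hp0 : ∀ a n, 0 ≤ p a n := fun _ _ => measureReal_nonneg
  have hLR : (0 : ℝ) < L := by exact_mod_cast hL1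
  have h2L : (0 : ℝ) < 2 ^ L := by positivity
  set c₁ : ℝ := c ^ 3 / (256 * 2 ^ L) / (2 * 2 ^ L * L) with hc₁def
  have hc₁ : 0 < c₁ := by positivity
  by_contra hcon
  push Not at hcon
  have hN : ∀ a : Finset ℕ, ∃ N₀ : ℕ, a.Nonempty → ∀ N ≥ N₀,
      ∑ n ∈ Finset.range N, p a n < c₁ * N := by
    intro a
    by_cases ha : a.Nonempty
    · obtain ⟨N₀, hN₀⟩ := hcon a c₁ ha hc₁
      exact ⟨N₀, fun _ => hN₀⟩
    · exact ⟨0, fun h => absurd h ha⟩
  choose N₀ hN₀ using hN
  obtain ⟨M, hM, hMc⟩ := h (L * (Sh.sup N₀ + ⌈8 / c⌉₊ + 1))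
  set q : ℕ := M / L with hqdef
  have hq : Sh.sup N₀ + ⌈8 / c⌉₊ + 1 ≤ q := by
    rw [hqdef, Nat.le_div_iff_mul_le hL1, mul_comm]
    exact hM
  have hq0 : 0 < q := by omega
  have hqR : (0 : ℝ) < q := by exact_mod_cast hq0
  have hqc : 8 ≤ c * q := by
    have h1 : 8 / c ≤ (⌈8 / c⌉₊ : ℝ) := Nat.le_ceil _
    have h2 : ((⌈8 / c⌉₊ : ℕ) : ℝ) ≤ (q : ℝ) := by
      exact_mod_cast (by omega : ⌈8 / c⌉₊ ≤ q)
    have h3 : 8 / c ≤ q := h1.trans h2
    rw [div_le_iff₀ hc] at h3
    linarith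
  -- upper bound
  have hup : ∑ a ∈ Sh, ∑ n ∈ Finset.range (q * L), p a n ≤ 2 ^ L * (c₁ * (q * L)) := by
    calc ∑ a ∈ Sh, ∑ n ∈ Finset.range (q * L), p a n
        ≤ ∑ _a ∈ Sh, c₁ * ((q * L : ℕ) : ℝ) := by
          apply Finset.sum_le_sum
          intro a ha
          apply (hN₀ a (Finset.mem_filter.1 ha).2 (q * L) _).le
          have h1 : N₀ a ≤ Sh.sup N₀ := Finset.le_sup ha
          have h2 : q ≤ q * L := Nat.le_mul_of_pos_right q hL1
          show N₀ a ≤ q * L
          omega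
      _ = Sh.card * (c₁ * ((q * L : ℕ) : ℝ)) := by
          rw [Finset.sum_const, nsmul_eq_mul]
      _ ≤ 2 ^ L * (c₁ * (q * L)) := by
          push_cast
          exact mul_le_mul_of_nonneg_right hShc (by positivity)
  set H : Set Ω := {ω | ∃ W ∈ G, Module.finrank K W ≤ r ∧ c * M ≤ hits S C A u W M ω} with hH
  set D1 : Set Ω := {ω | (c / 4) * q <
    (((Finset.range q).filter (fun i => S^[i * L] ω ∈ Bad)).card : ℝ)} with hD1def
  have hD1 : P.real D1 ≤ c / 4 := by
    have h1 := SR_mk P (Finset.range q) (fun i => S^[i * L] ⁻¹' Bad)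
      (fun i _ => (hS.measurable.iterate _) hBadm) D1 ((c / 4) * q) (by positivity)
      (fun ω hω => le_of_lt hω)
    have h2 : ∑ i ∈ Finset.range q, P.real (S^[i * L] ⁻¹' Bad) ≤ q * (c ^ 2 / 16) := by
      calc ∑ i ∈ Finset.range q, P.real (S^[i * L] ⁻¹' Bad)
          ≤ ∑ _i ∈ Finset.range q, (c ^ 2 / 16) := by
            apply Finset.sum_le_sum
            intro i _
            rw [SR_pre hS _ hBadm]
            exact hBad
        _ = _ := by rw [Finset.sum_const, Finset.card_range, nsmul_eq_mul]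
    have h3 := h1.trans h2
    by_contra h4
    push Not at h4
    have h5 : c / 4 * q * (c / 4) < c / 4 * q * P.real D1 :=
      mul_lt_mul_of_pos_left h4 (by positivity)
    have h6 : c / 4 * q * (c / 4) = q * (c ^ 2 / 16) := by ring
    linarith
  have hD : c / 2 ≤ P.real (H \ D1) := by
    have h1 : P.real H ≤ P.real (H \ D1) + P.real D1 := by
      calc P.real H ≤ P.real ((H \ D1) ∪ D1) :=
            measureReal_mono (by
              intro ω hω
              by_cases h : ω ∈ D1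
              · exact Or.inr h
              · exact Or.inl ⟨hω, h⟩) (measure_ne_top _ _)
        _ ≤ _ := measureReal_union_le _ _
    linarith
  have hcount : ∀ ω ∈ H \ D1, (c * q / 8) ^ 2 / 2 ^ L ≤
      (((Sh ×ˢ (Finset.range q ×ˢ Finset.range q)).filter (fun x : Finset ℕ × ℕ × ℕ =>
        ω ∈ SR_P S C A u G x.1 (x.2.1 * L) (x.2.2 * L))).card : ℝ) := by
    rintro ω ⟨⟨W, hWG, hWr, hWh⟩, hω⟩
    have hbad : (((Finset.range q).filter (fun i => S^[i * L] ω ∈ Bad)).card : ℝ) ≤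
      (c / 4) * q := not_lt.1 hω
    obtain ⟨I, hI, hIc, hIa⟩ := good_windows S C A u G hdown hinv r c hc M L hL1 ω W hWG hWr
      hWh hbad
    choose! a ha using hIa
    have hIq : c * q / 8 ≤ (I.card : ℝ) := by
      have h1 : c / 4 * (q : ℝ) - 1 ≤ (I.card : ℝ) := hIc
      linarith
    have hmem : ∀ i ∈ I, a i ∈ Sh := by
      intro i hi
      rw [hSh, Finset.mem_filter, Finset.mem_powerset]
      exact ⟨(ha i hi).1, (ha i hi).2.1⟩
    have h1 : I.card = ∑ b ∈ Sh, (I.filter (fun i => a i = b)).card :=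
      Finset.card_eq_sum_card_fiberwise (f := a) (s := I) (t := Sh) (fun i hi => hmem i hi)
    have h2 := sq_sum_le_card_mul_sum_sq (s := Sh)
      (f := fun b => ((I.filter (fun i => a i = b)).card : ℝ))
    have hT : ((Sh ×ˢ (Finset.range q ×ˢ Finset.range q)).filter (fun x : Finset ℕ × ℕ × ℕ =>
        ω ∈ SR_P S C A u G x.1 (x.2.1 * L) (x.2.2 * L))).card =
        ∑ b ∈ Sh, ((Finset.range q ×ˢ Finset.range q).filter (fun y : ℕ × ℕ =>
          ω ∈ SR_P S C A u G b (y.1 * L) (y.2 * L))).card := by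
      rw [Finset.card_filter, Finset.sum_product]
      apply Finset.sum_congr rfl
      intro b _
      rw [Finset.card_filter]
    have h3 : ∑ b ∈ Sh, ((I.filter (fun i => a i = b)).card : ℝ) ^ 2 ≤
        (((Sh ×ˢ (Finset.range q ×ˢ Finset.range q)).filter (fun x : Finset ℕ × ℕ × ℕ =>
        ω ∈ SR_P S C A u G x.1 (x.2.1 * L) (x.2.2 * L))).card : ℝ) := by
      rw [hT]
      push_cast
      apply Finset.sum_le_sum
      intro b _
      have h4 : (I.filter (fun i => a i = b)) ×ˢ (I.filter (fun i => a i = b)) ⊆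
          (Finset.range q ×ˢ Finset.range q).filter (fun y : ℕ × ℕ =>
          ω ∈ SR_P S C A u G b (y.1 * L) (y.2 * L)) := by
        rintro ⟨i, i'⟩ hii
        rw [Finset.mem_product, Finset.mem_filter, Finset.mem_filter] at hii
        obtain ⟨⟨hi, hib⟩, hi', hib'⟩ := hii
        simp only at hi hib hi' hib'
        rw [Finset.mem_filter, Finset.mem_product]
        refine ⟨⟨hI hi, hI hi'⟩, ?_, ?_, ?_⟩
        · have := (ha i hi).2.2.1
          rw [hib] at this
          exact this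
        · have := (ha i' hi').2.2.1
          rw [hib'] at this
          exact this
        · have g1 := (ha i hi).2.2.2
          have g2 := (ha i' hi').2.2.2
          rw [hib] at g1
          rw [hib'] at g2
          show (wsp S C u b (S^[i * L] ω)).map _ = (wsp S C u b (S^[i' * L] ω)).map _
          rw [g1, g2]
      have h5 := Finset.card_le_card h4
      rw [Finset.card_product] at h5
      have h6 : (((I.filter (fun i => a i = b)).card * (I.filter (fun i => a i = b)).card : ℕ) : ℝ)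
          ≤ (((Finset.range q ×ˢ Finset.range q).filter (fun y : ℕ × ℕ =>
          ω ∈ SR_P S C A u G b (y.1 * L) (y.2 * L))).card : ℝ) := by exact_mod_cast h5
      push_cast at h6
      rw [pow_two]
      exact h6
    have h7 : (I.card : ℝ) = ∑ b ∈ Sh, ((I.filter (fun i => a i = b)).card : ℝ) := by
      exact_mod_cast h1
    rw [← h7] at h2
    rw [div_le_iff₀ h2L]
    have h8 : (c * q / 8) ^ 2 ≤ (I.card : ℝ) ^ 2 :=
      pow_le_pow_left₀ (by positivity) hIq 2
    refine h8.trans (h2.trans ?_)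
    rw [mul_comm]
    exact mul_le_mul h3 hShc (Nat.cast_nonneg _) (Nat.cast_nonneg _)
  -- conclusion
  have hmain := SR_mk P (Sh ×ˢ (Finset.range q ×ˢ Finset.range q))
    (fun x : Finset ℕ × ℕ × ℕ => SR_P S C A u G x.1 (x.2.1 * L) (x.2.2 * L))
    (fun x _ => SR_P_meas hS.measurable hC hA _ _ _) (H \ D1) ((c * q / 8) ^ 2 / 2 ^ L)
    (by positivity) hcount
  have hsum : ∑ x ∈ Sh ×ˢ (Finset.range q ×ˢ Finset.range q),
      P.real (SR_P S C A u G x.1 (x.2.1 * L) (x.2.2 * L)) ≤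
      2 * q * ∑ a ∈ Sh, ∑ n ∈ Finset.range (q * L), p a n := by
    rw [Finset.sum_product, Finset.mul_sum]
    apply Finset.sum_le_sum
    intro a _
    rw [Finset.sum_product]
    calc ∑ i ∈ Finset.range q, ∑ i' ∈ Finset.range q, P.real (SR_P S C A u G a (i * L) (i' * L))
        ≤ ∑ _i ∈ Finset.range q, 2 * ∑ n ∈ Finset.range (q * L), p a n := by
          apply Finset.sum_le_sum
          intro i hi
          have h1 : ∑ i' ∈ Finset.range q, P.real (SR_P S C A u G a (i * L) (i' * L)) =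
              ∑ i' ∈ Finset.range q, (if i ≤ i' then (fun j => p a (j * L)) (i' - i)
                else (fun j => p a (j * L)) (i - i')) := by
            apply Finset.sum_congr rfl
            intro i' _
            exact SR_P_prob P hS hC hA a L i i'
          rw [h1]
          refine (SR_dist q (fun j => p a (j * L)) (fun j => hp0 _ _) i
            (Finset.mem_range.1 hi)).trans ?_
          exact mul_le_mul_of_nonneg_left (SR_sub q L hL1 (p a) (hp0 a)) (by norm_num)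
      _ = 2 * q * ∑ n ∈ Finset.range (q * L), p a n := by
          rw [Finset.sum_const, Finset.card_range, nsmul_eq_mul]
          ring
  have h1 : (c * q / 8) ^ 2 / 2 ^ L * (c / 2) ≤ 2 * q * (2 ^ L * (c₁ * (q * L))) := by
    calc (c * q / 8) ^ 2 / 2 ^ L * (c / 2) ≤ (c * q / 8) ^ 2 / 2 ^ L * P.real (H \ D1) :=
          mul_le_mul_of_nonneg_left hD (by positivity)
      _ ≤ _ := hmain
      _ ≤ _ := hsum
      _ ≤ _ := mul_le_mul_of_nonneg_left hup (by positivity)
  have h2 : 2 * q * (2 ^ L * (c₁ * (q * L))) = (c * q / 8) ^ 2 / 2 ^ L * (c / 2) / 2 := by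
    rw [hc₁def]
    field_simp
    ring
  rw [h2] at h1
  have h3 : 0 < (c * q / 8) ^ 2 / 2 ^ L * (c / 2) := by positivity
  linarith

end H567MM.P
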