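import Pool.Agent.H567R2.MN.Stubs
import Pool.Agent.H567R2.MO.Defs

/-! Stubs (each is a task, see table h567o_tasks). -/

namespace H567MM

open MeasureTheory Filter Topology

/-! ### LA: countability -/

theorem countable_submodule {K U : Type*} [Field K] [AddCommGroup U] [Module K U]
    [FiniteDimensional K U] [Countable U] : Countable (Submodule K U) := by sorry
theorem countable_equiv {K U : Type*} [Field K] [AddCommGroup U] [Module K U]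
    [FiniteDimensional K U] [Countable U] : Countable (U ≃ₗ[K] U) := by sorry
theorem wsp_meas {Ω K U : Type*} [MeasurableSpace Ω] [Field K] [AddCommGroup U] [Module K U]
    [FiniteDimensional K U] [Countable U] (S : Ω → Ω) (hS : Measurable S)
    (C : Ω → (U ≃ₗ[K] U)) (hC : ∀ u u' : U, MeasurableSet {ω | C ω u = u'}) (u : U)
    (a : Finset ℕ) (W : Submodule K U) : MeasurableSet {ω | wsp S C u a ω = W} := by sorry
theorem coc_meas {Ω K U : Type*} [MeasurableSpace Ω] [Field K] [AddCommGroup U] [Module K U]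
    [FiniteDimensional K U] [Countable U] (S : Ω → Ω) (hS : Measurable S)
    (C : Ω → (U ≃ₗ[K] U)) (hC : ∀ u u' : U, MeasurableSet {ω | C ω u = u'}) (n : ℕ) :
    (∀ u u' : U, MeasurableSet {ω | coc S C n ω u = u'}) ∧
    ∀ g : U ≃ₗ[K] U, MeasurableSet {ω | coc S C n ω = g} := by sorry
theorem hits_meas {Ω K U : Type*} [MeasurableSpace Ω] [Field K] [AddCommGroup U] [Module K U]
    [FiniteDimensional K U] [Countable U] (S : Ω → Ω) (hS : Measurable S)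
    (C : Ω → (U ≃ₗ[K] U)) (hC : ∀ u u' : U, MeasurableSet {ω | C ω u = u'}) (A : Set Ω)
    (hA : MeasurableSet A) (u : U) (W : Submodule K U) (M n : ℕ) :
    MeasurableSet {ω | hits S C A u W M ω = n} := by sorry

/-! ### MC: mixing for functions with countably many values -/

theorem mix_countable {X κ : Type*} [MeasurableSpace X] (μ : Measure X)
    [IsProbabilityMeasure μ] (S : X → X) (hS : MeasurePreserving S μ μ) (k : ℕ)
    (hk : MixOrd μ S k) [Countable κ] (q : Fin (k + 1) → X → κ)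
    (hq : ∀ j c, MeasurableSet {x | q j x = c}) (A : Set (Fin (k + 1) → κ)) (ε : ℝ)
    (hε : 0 < ε) :
    ∃ G : ℕ, ∀ n : Fin (k + 1) → ℕ, n 0 = 0 → (∀ j : Fin k, n j.castSucc + G ≤ n j.succ) →
      |μ.real {x | (fun j => q j (S^[n j] x)) ∈ A} -
        (Measure.pi fun _ : Fin (k + 1) => μ).real {y | (fun j => q j (y j)) ∈ A}| < ε := by sorry

/-! ### IG, PM: invariant sets of finite measure -/

/-- IG -/
theorem inv_set_graph {Ω κ : Type*} [MeasurableSpace Ω] (P : Measure Ω) [IsProbabilityMeasure P]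
    [Countable κ] [MeasurableSpace κ] [DiscreteMeasurableSpace κ] (τ : Ω × κ → Ω × κ)
    (hτ : MeasurePreserving τ (P.prod Measure.count) (P.prod Measure.count)) (w : Ω → κ)
    (hw : Measurable w) (E : Set Ω) (hE : MeasurableSet E) (c : ℝ) (hc : 0 < c)
    (h : ∀ N₀ : ℕ, ∃ N ≥ N₀, c * N ≤ ∑ n ∈ Finset.range N, P.real {ω | ω ∈ E ∧
      (τ^[n] (ω, w ω)).1 ∈ E ∧ (τ^[n] (ω, w ω)).2 = w (τ^[n] (ω, w ω)).1}) :
    ∃ B : Set (Ω × κ), MeasurableSet B ∧ (P.prod Measure.count) B ≠ ⊤ ∧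
      P {ω | ω ∈ E ∧ (ω, w ω) ∈ B} ≠ 0 ∧ ∀ᵐ ω ∂P, ∀ q : κ, ((ω, q) ∈ B ↔ τ (ω, q) ∈ B) := by
  sorry
/-- PM -/
theorem perm_mp {Ω κ : Type*} [MeasurableSpace Ω] (P : Measure Ω) [IsProbabilityMeasure P]
    (S : Ω → Ω) (hS : MeasurePreserving S P P)
    [Countable κ] [MeasurableSpace κ] [DiscreteMeasurableSpace κ] (e : Ω → (κ ≃ κ))
    (he : ∀ q q', MeasurableSet {ω | e ω q = q'}) :
    MeasurePreserving (fun z : Ω × κ => (S z.1, (e z.1).symm z.2)) (P.prod Measure.count)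
      (P.prod Measure.count) := by sorry
/-- PM -/
theorem perm_card {Ω κ : Type*} [MeasurableSpace Ω] (P : Measure Ω) [IsProbabilityMeasure P]
    (S : Ω → Ω) (hS : Ergodic S P)
    [Countable κ] [MeasurableSpace κ] [DiscreteMeasurableSpace κ] (e : Ω → (κ ≃ κ))
    (B : Set (Ω × κ)) (hB : MeasurableSet B) (hfin : (P.prod Measure.count) B ≠ ⊤)
    (hinv : ∀ᵐ ω ∂P, ∀ q : κ, ((ω, q) ∈ B ↔ (S ω, (e ω).symm q) ∈ B)) :
    ∃ f : ℕ, ∀ᵐ ω ∂P, {q | (ω, q) ∈ B}.encard ≤ f := by sorry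

/-! ### WI, GW: windows -/

open Classical in
/-- WI -/
theorem windows (D : Finset ℕ) (M L : ℕ) (hL : 0 < L) (hD : D ⊆ Finset.range M) (c : ℝ)
    (hc : 0 < c) (h : c * M ≤ D.card) :
    (c / 2) * ((M / L : ℕ) : ℝ) - 1 ≤ ((Finset.range (M / L)).filter (fun i => (c / 2) * L ≤
      (((D.filter (fun t => i * L ≤ t ∧ t < (i + 1) * L)).card : ℕ) : ℝ))).card := by sorry
open Classical in
/-- GW -/
theorem good_windows {Ω K U : Type*} [Field K] [AddCommGroup U] [Module K U]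
    [FiniteDimensional K U] (S : Ω → Ω) (C : Ω → (U ≃ₗ[K] U)) (A : Set Ω) (u : U)
    (G : Set (Submodule K U)) (hdown : ∀ W ∈ G, ∀ W' ≤ W, W' ∈ G)
    (hinv : ∀ ω (W : Submodule K U), W ∈ G ↔ W.map (C ω : U →ₗ[K] U) ∈ G) (r : ℕ) (c : ℝ)
    (hc : 0 < c) (M L : ℕ) (hL : 0 < L) (ω : Ω) (W : Submodule K U) (hW : W ∈ G)
    (hr : Module.finrank K W ≤ r) (hh : c * M ≤ hits S C A u W M ω)
    (hbad : (((Finset.range (M / L)).filter (fun i => S^[i * L] ω ∈ {ω' | ∃ W' ∈ G,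
      Module.finrank K W' < r ∧ (c / 2) * L ≤ hits S C A u W' L ω'})).card : ℝ) ≤
        (c / 4) * ((M / L : ℕ) : ℝ)) :
    ∃ I ⊆ Finset.range (M / L), (c / 4) * ((M / L : ℕ) : ℝ) - 1 ≤ (I.card : ℝ) ∧
      ∀ i ∈ I, ∃ a ⊆ Finset.range L, a.Nonempty ∧ S^[i * L] ω ∈ Esp S C A u G a ∧
        (wsp S C u a (S^[i * L] ω)).map ((coc S C (i * L) ω : U ≃ₗ[K] U) : U →ₗ[K] U) = W := by sorry

/-! ### SR: recurrence of a shape -/

theorem shape_rec {Ω K U : Type*} [MeasurableSpace Ω] (P : Measure Ω) [IsProbabilityMeasure P]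
    (S : Ω → Ω) (hS : MeasurePreserving S P P) [Field K] [AddCommGroup U] [Module K U]
    [FiniteDimensional K U] [Countable U] (C : Ω → (U ≃ₗ[K] U))
    (hC : ∀ u u' : U, MeasurableSet {ω | C ω u = u'}) (A : Set Ω) (hA : MeasurableSet A) (u : U)
    (G : Set (Submodule K U)) (hdown : ∀ W ∈ G, ∀ W' ≤ W, W' ∈ G)
    (hinv : ∀ ω (W : Submodule K U), W ∈ G ↔ W.map (C ω : U →ₗ[K] U) ∈ G) (r : ℕ) (c : ℝ)
    (hc : 0 < c) (h : ∀ M₀ : ℕ, ∃ M ≥ M₀, c ≤ P.real {ω | ∃ W ∈ G, Module.finrank K W ≤ r ∧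
      c * M ≤ hits S C A u W M ω})
    (hmin : ∀ c' : ℝ, 0 < c' → ∃ M₀ : ℕ, ∀ M ≥ M₀, P.real {ω | ∃ W ∈ G,
      Module.finrank K W < r ∧ c' * M ≤ hits S C A u W M ω} < c') :
    ∃ (a : Finset ℕ) (c₁ : ℝ), a.Nonempty ∧ 0 < c₁ ∧ ∀ N₀ : ℕ, ∃ N ≥ N₀, c₁ * N ≤
      ∑ n ∈ Finset.range N, P.real {ω | ω ∈ Esp S C A u G a ∧ S^[n] ω ∈ Esp S C A u G a ∧
        (wsp S C u a (S^[n] ω)).map ((coc S C n ω : U ≃ₗ[K] U) : U →ₗ[K] U) =
          wsp S C u a ω} := by sorry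

/-! ### GR: the finite equivariant family -/

theorem gr_family {Ω K U : Type*} [MeasurableSpace Ω] (P : Measure Ω) [IsProbabilityMeasure P]
    (S : Ω → Ω) (hS : Ergodic S P) [Field K] [AddCommGroup U] [Module K U]
    [FiniteDimensional K U] [Countable U] (C : Ω → (U ≃ₗ[K] U))
    (hC : ∀ u u' : U, MeasurableSet {ω | C ω u = u'}) (A : Set Ω) (hA : MeasurableSet A) (u : U)
    (G : Set (Submodule K U)) (hdown : ∀ W ∈ G, ∀ W' ≤ W, W' ∈ G)
    (hinv : ∀ ω (W : Submodule K U), W ∈ G ↔ W.map (C ω : U →ₗ[K] U) ∈ G) (c : ℝ)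
    (hc : 0 < c)
    (h : ∀ M₀ : ℕ, ∃ M ≥ M₀, c ≤ P.real {ω | ∃ W ∈ G, c * M ≤ hits S C A u W M ω}) :
    ∃ (B : Submodule K U → Set Ω) (f : ℕ), IsFam P S C B f ∧ (∀ W, W ∉ G → B W = ∅) ∧
      ∃ W, u ∈ W ∧ P (B W ∩ A) ≠ 0 := by sorry

/-! ### PH: from relations to the product system -/

theorem prod_hits {X K V : Type*} [MeasurableSpace X] (μ : Measure X) [IsProbabilityMeasure μ]
    (S : X → X) (hS : MeasurePreserving S μ μ) [Field K] [AddCommGroup V] [Module K V]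
    [FiniteDimensional K V] [Countable V] (φ : X → (V ≃ₗ[K] V))
    (hφ : ∀ v v' : V, MeasurableSet {x | φ x v = v'}) (k : ℕ) (hk : MixOrd μ S k)
    (m : Fin (k + 1) → V) (A : Fin (k + 1) → Set X) (hA : ∀ j, MeasurableSet (A j)) (δ : ℝ)
    (hδ : 0 < δ) (h : ∀ G : ℕ, ∃ n : Fin (k + 1) → ℕ, n 0 = 0 ∧
      (∀ j : Fin k, n j.castSucc + G ≤ n j.succ) ∧
      δ ≤ μ.real {x | (∀ j, S^[n j] x ∈ A j) ∧ ∑ j, coc S φ (n j) x (m j) = 0}) (M : ℕ) :
    δ / 2 ≤ (Measure.pi fun _ : Fin (k + 1) => μ).real {y | ∃ W ∈ GP (K := K) (V := V) (k + 1),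
      (δ / 2) * M ≤ hits (fun (y : Fin (k + 1) → X) j => S (y j)) (piC φ)
        {y | ∀ j, y j ∈ A j} m W M y} := by sorry

/-! ### PE: ergodicity of the power, KH, CP, CF: collisions -/

/-- PE -/
theorem pi_ergodic {X : Type*} [MeasurableSpace X] (μ : Measure X) [IsProbabilityMeasure μ]
    (S : X → X) (hS : MeasurePreserving S μ μ) (hmix : MixOrd μ S 1) (s : ℕ) :
    Ergodic (fun (y : Fin s → X) j => S (y j)) (Measure.pi fun _ : Fin s => μ) := by sorry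
/-- PE -/
theorem piC_meas {X K V : Type*} [MeasurableSpace X] [Field K] [AddCommGroup V] [Module K V]
    (φ : X → (V ≃ₗ[K] V)) (hφ : ∀ v v' : V, MeasurableSet {x | φ x v = v'}) (s : ℕ)
    (u u' : Fin s → V) : MeasurableSet {y : Fin s → X | piC φ y u = u'} := by sorry
/-- PE -/
theorem piC_coc {X K V : Type*} [Field K] [AddCommGroup V] [Module K V] (S : X → X)
    (φ : X → (V ≃ₗ[K] V)) (s n : ℕ) (y : Fin s → X) (u : Fin s → V) (j : Fin s) :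
    coc (fun (y : Fin s → X) j => S (y j)) (piC φ) n y u j = coc S φ n (y j) (u j) := by sorry
/-- PE -/
theorem prC_coc {X K V : Type*} [Field K] [AddCommGroup V] [Module K V] (S : X → X)
    (φ : X → (V ≃ₗ[K] V)) (n : ℕ) (z : X × X) (u : V × V) :
    coc (Prod.map S S) (prC φ) n z u = (coc S φ n z.1 u.1, coc S φ n z.2 u.2) := by sorry
/-- PE -/
theorem prC_meas {X K V : Type*} [MeasurableSpace X] [Field K] [AddCommGroup V] [Module K V]
    (φ : X → (V ≃ₗ[K] V)) (hφ : ∀ v v' : V, MeasurableSet {x | φ x v = v'})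
    (u u' : V × V) : MeasurableSet {z : X × X | prC φ z u = u'} := by sorry
/-- PE -/
theorem GP_props {X K V : Type*} [Field K] [AddCommGroup V] [Module K V]
    (φ : X → (V ≃ₗ[K] V)) (s : ℕ) :
    (∀ W ∈ GP (K := K) (V := V) s, ∀ W' ≤ W, W' ∈ GP (K := K) (V := V) s) ∧
    ∀ (y : Fin s → X) (W : Submodule K (Fin s → V)), W ∈ GP (K := K) (V := V) s ↔
      W.map (piC φ y : (Fin s → V) →ₗ[K] (Fin s → V)) ∈ GP (K := K) (V := V) s := by sorry
/-- PE -/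
theorem G2_props {X K V : Type*} [Field K] [AddCommGroup V] [Module K V]
    (φ : X → (V ≃ₗ[K] V)) :
    (∀ W ∈ G2 (K := K) (V := V), ∀ W' ≤ W, W' ∈ G2 (K := K) (V := V)) ∧
    ∀ (z : X × X) (W : Submodule K (V × V)), W ∈ G2 (K := K) (V := V) ↔
      W.map (prC φ z : (V × V) →ₗ[K] (V × V)) ∈ G2 (K := K) (V := V) := by sorry

/-- KH -/
theorem khin {Ω K U : Type*} [MeasurableSpace Ω] (P : Measure Ω) [IsProbabilityMeasure P]
    (S : Ω → Ω) (hS : MeasurePreserving S P P) [Field K] [AddCommGroup U] [Module K U]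
    [FiniteDimensional K U] [Countable U] (C : Ω → (U ≃ₗ[K] U))
    (hC : ∀ u u' : U, MeasurableSet {ω | C ω u = u'}) (A : Set Ω) (hA : MeasurableSet A) (u : U)
    (B : Submodule K U → Set Ω) (f : ℕ) (hB : IsFam P S C B f) (W₁ : Submodule K U)
    (hu : u ∈ W₁) (h1 : P (B W₁ ∩ A) ≠ 0) :
    ∃ W₀ : Submodule K U, (B W₀).Nonempty ∧ ∃ c : ℝ, 0 < c ∧ ∀ N₀ : ℕ, ∃ N ≥ N₀, c * N ≤
      ∑ t ∈ Finset.range N, P.real {ω | coc S C t ω u ∈ W₀ ∧ S^[t] ω ∈ A} := by sorry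
/-- CP -/
theorem cs_pi {X K V : Type*} [MeasurableSpace X] (μ : Measure X) [IsProbabilityMeasure μ]
    (S : X → X) (hS : MeasurePreserving S μ μ) [Field K] [AddCommGroup V] [Module K V]
    [FiniteDimensional K V] [Countable V] (φ : X → (V ≃ₗ[K] V))
    (hφ : ∀ v v' : V, MeasurableSet {x | φ x v = v'}) (k : ℕ) (m : Fin (k + 1) → V)
    (A : Fin (k + 1) → Set X) (hA : ∀ j, MeasurableSet (A j))
    (W : Submodule K (Fin (k + 1) → V)) (hW : W ∈ GP (K := K) (V := V) (k + 1)) (t : ℕ)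
    (j₀ : Fin (k + 1)) :
    ((Measure.pi fun _ : Fin (k + 1) => μ).real {y | (fun j => coc S φ t (y j) (m j)) ∈ W ∧
      ∀ j, S^[t] (y j) ∈ A j}) ^ 2 ≤
    (μ.prod μ).real {z | coc S φ t z.1 (m j₀) = coc S φ t z.2 (m j₀) ∧ S^[t] z.1 ∈ A j₀ ∧
      S^[t] z.2 ∈ A j₀} := by sorry
/-- CF -/
theorem coll_of_rel {X K V : Type*} [MeasurableSpace X] (μ : Measure X) [IsProbabilityMeasure μ]
    (S : X → X) (hS : MeasurePreserving S μ μ) (hmix : MixOrd μ S 1) [Field K]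
    [AddCommGroup V] [Module K V]
    [FiniteDimensional K V] [Countable V] (φ : X → (V ≃ₗ[K] V))
    (hφ : ∀ v v' : V, MeasurableSet {x | φ x v = v'}) (k : ℕ) (hk : MixOrd μ S k)
    (m : Fin (k + 1) → V) (A : Fin (k + 1) → Set X) (hA : ∀ j, MeasurableSet (A j)) (δ : ℝ)
    (hδ : 0 < δ) (h : ∀ G : ℕ, ∃ n : Fin (k + 1) → ℕ, n 0 = 0 ∧
      (∀ j : Fin k, n j.castSucc + G ≤ n j.succ) ∧
      δ ≤ μ.real {x | (∀ j, S^[n j] x ∈ A j) ∧ ∑ j, coc S φ (n j) x (m j) = 0})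
    (j₀ : Fin (k + 1)) : ∃ c : ℝ, 0 < c ∧ ∀ N₀ : ℕ, ∃ N ≥ N₀, c * N ≤
      ∑ t ∈ Finset.range N, (μ.prod μ).real {z | coc S φ t z.1 (m j₀) = coc S φ t z.2 (m j₀) ∧
        S^[t] z.1 ∈ A j₀ ∧ S^[t] z.2 ∈ A j₀} := by sorry

/-! ### FP: the family on the square -/

theorem fam_of_coll {X K V : Type*} [MeasurableSpace X] (μ : Measure X) [IsProbabilityMeasure μ]
    (S : X → X) (hS : MeasurePreserving S μ μ) (hmix : MixOrd μ S 1) [Field K]
    [AddCommGroup V] [Module K V] [FiniteDimensional K V] [Countable V] (φ : X → (V ≃ₗ[K] V))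
    (hφ : ∀ v v' : V, MeasurableSet {x | φ x v = v'}) (m : V) (A₀ : Set X)
    (hA : MeasurableSet A₀) (c : ℝ) (hc : 0 < c) (h : ∀ N₀ : ℕ, ∃ N ≥ N₀, c * N ≤
      ∑ t ∈ Finset.range N, (μ.prod μ).real {z | coc S φ t z.1 m = coc S φ t z.2 m ∧
        S^[t] z.1 ∈ A₀ ∧ S^[t] z.2 ∈ A₀}) :
    ∃ (F : X × X → Finset (Submodule K (V × V))) (f : ℕ), (∀ w, MeasurableSet {z | F z = w}) ∧
      (∀ z, (F z).card ≤ f) ∧ (∀ z, ∀ W ∈ F z, W ∈ G2 (K := K) (V := V)) ∧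
      (∀ᵐ z ∂(μ.prod μ), F z = imC (φ z.1) (φ z.2) (F (S z.1, S z.2))) ∧
      (μ.prod μ) {z | z.1 ∈ A₀ ∧ z.2 ∈ A₀ ∧ ∃ W ∈ F z, (m, m) ∈ W} ≠ 0 := by sorry

/-! ### CL2, AT2, ZI, SE, VF: separation of variables -/

/-- CL2 -/
theorem close_pairs {X κ : Type*} [MeasurableSpace X] (μ : Measure X) [IsProbabilityMeasure μ]
    [Countable κ] (F : X × X → κ) (hF : ∀ w, MeasurableSet {z | F z = w}) (ε : ℝ)
    (hε : 0 < ε) :
    (μ.prod μ) {p : X × X | μ.real {a | F (a, p.1) ≠ F (a, p.2)} < ε} ≠ 0 := by sorry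
/-- AT2: the infimum over `g` is attained, and the possible `g` are finitely many on the
relevant subspace -/
theorem attained {X K V : Type*} [MeasurableSpace X] (μ : Measure X) [IsProbabilityMeasure μ]
    [Field K] [AddCommGroup V] [Module K V] [FiniteDimensional K V] [Countable V]
    (F₁ F₂ : X → Finset (Submodule K (V × V))) (f : ℕ) (h1 : ∀ w, MeasurableSet {a | F₁ a = w})
    (h2 : ∀ w, MeasurableSet {a | F₂ a = w}) (hf : ∀ a, (F₂ a).card ≤ f)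
    (hG1 : ∀ a, ∀ W ∈ F₁ a, W ∈ G2 (K := K) (V := V))
    (hG2 : ∀ a, ∀ W ∈ F₂ a, W ∈ G2 (K := K) (V := V))
    (h : ∀ ε : ℝ, 0 < ε → ∃ g : V ≃ₗ[K] V, μ.real {a | imF g (F₁ a) ≠ F₂ a} < ε) :
    ∃ g : V ≃ₗ[K] V, ∀ᵐ a ∂μ, imF g (F₁ a) = F₂ a := by sorry
/-- ZI -/
theorem zero_inf {X K V : Type*} [MeasurableSpace X] (μ : Measure X) [IsProbabilityMeasure μ]
    (S : X → X) (hS : MeasurePreserving S μ μ) (hmix : MixOrd μ S 1) [Field K]
    [AddCommGroup V] [Module K V] [FiniteDimensional K V] [Countable V] (φ : X → (V ≃ₗ[K] V))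
    (hφ : ∀ v v' : V, MeasurableSet {x | φ x v = v'})
    (F : X × X → Finset (Submodule K (V × V))) (hF : ∀ w, MeasurableSet {z | F z = w})
    (heq : ∀ᵐ z ∂(μ.prod μ), F z = imC (φ z.1) (φ z.2) (F (S z.1, S z.2))) :
    ∀ᵐ p ∂(μ.prod μ), ∀ ε : ℝ, 0 < ε → ∃ g : V ≃ₗ[K] V,
      μ.real {a | imF g (F (a, p.1)) ≠ F (a, p.2)} < ε := by sorry
/-- SE -/
theorem separated {X K V : Type*} [MeasurableSpace X] (μ : Measure X) [IsProbabilityMeasure μ]
    (S : X → X) (hS : MeasurePreserving S μ μ) (hmix : MixOrd μ S 1) [Field K]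
    [AddCommGroup V] [Module K V] [FiniteDimensional K V] [Countable V] (φ : X → (V ≃ₗ[K] V))
    (hφ : ∀ v v' : V, MeasurableSet {x | φ x v = v'})
    (F : X × X → Finset (Submodule K (V × V))) (f : ℕ) (hF : ∀ w, MeasurableSet {z | F z = w})
    (hf : ∀ z, (F z).card ≤ f) (hG : ∀ z, ∀ W ∈ F z, W ∈ G2 (K := K) (V := V))
    (heq : ∀ᵐ z ∂(μ.prod μ), F z = imC (φ z.1) (φ z.2) (F (S z.1, S z.2))) :
    ∃ (F₀ : X → Finset (Submodule K (V × V))) (g : X → (V ≃ₗ[K] V)),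
      (∀ w, MeasurableSet {a | F₀ a = w}) ∧ (∀ e, MeasurableSet {x | g x = e}) ∧
      (∀ a, (F₀ a).card ≤ f) ∧ (∀ a, ∀ W ∈ F₀ a, W ∈ G2 (K := K) (V := V)) ∧
      ∀ᵐ z ∂(μ.prod μ), F z = imF (g z.2) (F₀ z.1) := by sorry
/-- FS: only finitely many automorphisms of the span of the second projections -/
theorem fin_stab {X K V : Type*} [MeasurableSpace X] (μ : Measure X) [IsProbabilityMeasure μ]
    [Field K] [AddCommGroup V] [Module K V] [FiniteDimensional K V] [Countable V]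
    (F₀ : X → Finset (Submodule K (V × V))) (f : ℕ) (h0 : ∀ w, MeasurableSet {a | F₀ a = w})
    (hf : ∀ a, (F₀ a).card ≤ f) (hG : ∀ a, ∀ W ∈ F₀ a, W ∈ G2 (K := K) (V := V)) :
    ∃ V₀ : Submodule K V, (∀ᵐ a ∂μ, ∀ W ∈ F₀ a, W.map (LinearMap.snd K V V) ≤ V₀) ∧
      (∀ g : V ≃ₗ[K] V, (∀ᵐ a ∂μ, imF g (F₀ a) = F₀ a) →
        V₀.map (g : V →ₗ[K] V) = V₀) ∧
      {t : V₀ → V | ∃ g : V ≃ₗ[K] V, (∀ᵐ a ∂μ, imF g (F₀ a) = F₀ a) ∧
        ∀ v : V₀, t v = g v}.Finite ∧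
      (∀ V₁ : Submodule K V, (∀ᵐ a ∂μ, ∀ W ∈ F₀ a, W.map (LinearMap.snd K V V) ≤ V₁) →
        V₀ ≤ V₁) := by sorry
/-- VF -/
theorem vc_of_coll {X K V : Type*} [MeasurableSpace X] (μ : Measure X) [IsProbabilityMeasure μ]
    (S : X → X) (hS : MeasurePreserving S μ μ) (hmix : MixOrd μ S 1) [Field K]
    [AddCommGroup V] [Module K V] [FiniteDimensional K V] [Countable V] (φ : X → (V ≃ₗ[K] V))
    (hφ : ∀ v v' : V, MeasurableSet {x | φ x v = v'}) (m : V) (A₀ : Set X)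
    (hA : MeasurableSet A₀) (c : ℝ) (hc : 0 < c) (h : ∀ N₀ : ℕ, ∃ N ≥ N₀, c * N ≤
      ∑ t ∈ Finset.range N, (μ.prod μ).real {z | coc S φ t z.1 m = coc S φ t z.2 m ∧
        S^[t] z.1 ∈ A₀ ∧ S^[t] z.2 ∈ A₀}) :
    ∃ (r : ℕ) (g : X → ((Fin r → K) →ₗ[K] V)), VC μ S φ r g ∧
      μ {x | x ∈ A₀ ∧ m ∈ LinearMap.range (g x)} ≠ 0 := by sorry

/-! ### VS, VM: sums of virtually constant subobjects, the maximal one -/

/-- VS -/
theorem VC_sup {X K V : Type*} [MeasurableSpace X] (μ : Measure X) [IsProbabilityMeasure μ]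
    (S : X → X) (hS : MeasurePreserving S μ μ) (hmix : MixOrd μ S 1) [Field K]
    [AddCommGroup V] [Module K V] [FiniteDimensional K V] [Countable V] [Countable K]
    (φ : X → (V ≃ₗ[K] V))
    (hφ : ∀ v v' : V, MeasurableSet {x | φ x v = v'}) (r₁ r₂ : ℕ)
    (g₁ : X → ((Fin r₁ → K) →ₗ[K] V)) (g₂ : X → ((Fin r₂ → K) →ₗ[K] V))
    (h1 : VC μ S φ r₁ g₁) (h2 : VC μ S φ r₂ g₂) :
    ∃ (r : ℕ) (g : X → ((Fin r → K) →ₗ[K] V)), VC μ S φ r g ∧
      ∀ᵐ x ∂μ, LinearMap.range (g x) = LinearMap.range (g₁ x) ⊔ LinearMap.range (g₂ x) := by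
  sorry
/-- VM -/
theorem VC_max {X K V : Type*} [MeasurableSpace X] (μ : Measure X) [IsProbabilityMeasure μ]
    (S : X → X) (hS : MeasurePreserving S μ μ) (hmix : MixOrd μ S 1) [Field K]
    [AddCommGroup V] [Module K V] [FiniteDimensional K V] [Countable V] [Countable K]
    (φ : X → (V ≃ₗ[K] V)) (hφ : ∀ v v' : V, MeasurableSet {x | φ x v = v'}) :
    ∃ (r : ℕ) (g : X → ((Fin r → K) →ₗ[K] V)), VC μ S φ r g ∧
      ∀ (r' : ℕ) (g' : X → ((Fin r' → K) →ₗ[K] V)), VC μ S φ r' g' →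
        ∀ᵐ x ∂μ, LinearMap.range (g' x) ≤ LinearMap.range (g x) := by sorry

/-! ### GG, GS: the gap lemma -/

/-- GG -/
theorem gap_aut {M : Type*} [AddCommGroup M] [Countable M] (l : M ≃+ M)
    (hl : ∀ r : ℕ, 0 < r → ∀ v : M, l^[r] v = v → v = 0) {s : ℕ} (m : Fin s → M)
    (hm : m ≠ 0) : ∃ G : ℕ, ∀ n : Fin s → ℕ, Gaps G n → ∑ i, l^[n i] (m i) ≠ 0 := by sorry
/-- GS -/
theorem small_vc {X K V : Type*} [MeasurableSpace X] (μ : Measure X) [IsProbabilityMeasure μ]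
    (S : X → X) (hS : MeasurePreserving S μ μ) [Field K] [Countable K]
    [AddCommGroup V] [Module K V] [FiniteDimensional K V] [Countable V] (φ : X → (V ≃ₗ[K] V))
    (hφ : ∀ v v' : V, MeasurableSet {x | φ x v = v'}) (htr : ∀ v : V, v ≠ 0 → NTrans μ S φ v)
    (r : ℕ) (g : X → ((Fin r → K) →ₗ[K] V)) (hg : VC μ S φ r g) {s : ℕ} (m : Fin s → V)
    (hm : m ≠ 0) (ε : ℝ) (hε : 0 < ε) : ∃ G : ℕ, ∀ n : Fin s → ℕ, Gaps G n →
      μ.real {x | (∀ j, m j ∈ LinearMap.range (g (S^[n j] x))) ∧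
        ∑ j, coc S φ (n j) x (m j) = 0} < ε := by sorry

/-! ### SF: the theorem for vector spaces -/

theorem small_field {X K V : Type*} [MeasurableSpace X] (μ : Measure X) [IsProbabilityMeasure μ]
    (S : X → X) (hS : MeasurePreserving S μ μ) (hmix : MixOrd μ S 1) [Field K] [Countable K]
    [AddCommGroup V] [Module K V] [FiniteDimensional K V] [Countable V] (φ : X → (V ≃ₗ[K] V))
    (hφ : ∀ v v' : V, MeasurableSet {x | φ x v = v'}) (htr : ∀ v : V, v ≠ 0 → NTrans μ S φ v)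
    (k : ℕ) (hk : MixOrd μ S k) (m : Fin (k + 1) → V) (hm : m ≠ 0) (ε : ℝ) (hε : 0 < ε) :
    ∃ G : ℕ, ∀ n : Fin (k + 1) → ℕ, n 0 = 0 → (∀ j : Fin k, n j.castSucc + G ≤ n j.succ) →
      μ.real {x | ∑ j, coc S φ (n j) x (m j) = 0} < ε := by sorry

/-! ### R2, SM2: reduction of modules to vector spaces -/

/-- R2 -/
theorem residue2.{u, v} {R : Type u} {M : Type v} [CommRing R] [IsNoetherianRing R]
    [AddCommGroup M] [Module R M] [Module.Finite R M] [Countable M] {s : ℕ} (m : Fin s → M)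
    (hm : m ≠ 0) :
    ∃ (K : Type u) (_ : Field K) (_ : Countable K) (V : Type (max u v)) (_ : AddCommGroup V)
      (_ : Module K V) (_ : FiniteDimensional K V) (F : (M ≃ₗ[R] M) →* (V ≃ₗ[K] V))
      (w : Fin s → V), w ≠ 0 ∧
      (∀ g : Fin s → (M ≃ₗ[R] M), ∑ j, g j (m j) = 0 → ∑ j, F (g j) (w j) = 0) ∧
      (∀ v v' : V, ∃ m' m'' : M, (v ≠ 0 → m' ≠ 0) ∧
        ∀ g : M ≃ₗ[R] M, F g v = v' ↔ g m' = m'') := by sorry
/-- SM2 -/
theorem small_module2 {X R M : Type*} [MeasurableSpace X] (μ : Measure X)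
    [IsProbabilityMeasure μ] (S : X → X) (hS : MeasurePreserving S μ μ) (hmix : MixOrd μ S 1)
    [CommRing R] [IsNoetherianRing R] [AddCommGroup M] [Module R M] [Module.Finite R M]
    [Countable M] (φ : X → (M ≃ₗ[R] M)) (hφ : ∀ v v' : M, MeasurableSet {x | φ x v = v'})
    (htr : ∀ v : M, v ≠ 0 → NTrans μ S φ v) (k : ℕ) (hk : MixOrd μ S k)
    (m : Fin (k + 1) → M) (hm : m ≠ 0) (ε : ℝ) (hε : 0 < ε) :
    ∃ G : ℕ, ∀ n : Fin (k + 1) → ℕ, n 0 = 0 → (∀ j : Fin k, n j.castSucc + G ≤ n j.succ) →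
      μ.real {x | ∑ j, coc S φ (n j) x (m j) = 0} < ε := by sorry

/-! ### NI, NP, NM, NE: the skew product -/

/-- NI -/
theorem nskew_iterate {X R M : Type*} [CommRing R] [AddCommGroup M] [Module R M] (S : X → X)
    (φ : X → (M ≃ₗ[R] M)) (n : ℕ) (x : X) (y : Dual M) :
    (nskew S φ)^[n] (x, y) = (S^[n] x, nact (coc S φ n x) y) := by sorry
/-- NI -/
theorem ncoc_meas {X R M : Type*} [MeasurableSpace X] [CommRing R] [AddCommGroup M]
    [Module R M] [Countable M] (S : X → X) (hS : Measurable S) (φ : X → (M ≃ₗ[R] M))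
    (hφ : ∀ v v' : M, MeasurableSet {x | φ x v = v'}) (n : ℕ) (v v' : M) :
    MeasurableSet {x | coc S φ n x v = v'} := by sorry
/-- NP -/
theorem nskew_mp {X R M : Type*} [MeasurableSpace X] (μ : Measure X)
    [IsProbabilityMeasure μ] (S : X → X) (hS : MeasurePreserving S μ μ)
    [CommRing R] [AddCommGroup M] [Module R M] [Countable M] (φ : X → (M ≃ₗ[R] M))
    (hφ : ∀ v v' : M, MeasurableSet {x | φ x v = v'}) (ν : Measure (Dual M))
    (hν : IsHaarProb ν) : MeasurePreserving (nskew S φ) (μ.prod ν) (μ.prod ν) := by sorry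
/-- NM -/
theorem ntensor_mix {X R M : Type*} [MeasurableSpace X] (μ : Measure X)
    [IsProbabilityMeasure μ] (S : X → X) (hS : MeasurePreserving S μ μ)
    [CommRing R] [AddCommGroup M] [Module R M] [Countable M] (φ : X → (M ≃ₗ[R] M))
    (hφ : ∀ v v' : M, MeasurableSet {x | φ x v = v'}) (ν : Measure (Dual M))
    (hν : IsHaarProb ν) (k : ℕ) (hk : MixOrd μ S k)
    (hsmall : ∀ m : Fin (k + 1) → M, m ≠ 0 → ∀ ε : ℝ, 0 < ε → ∃ G : ℕ,
      ∀ n : Fin (k + 1) → ℕ, n 0 = 0 → (∀ j : Fin k, n j.castSucc + G ≤ n j.succ) →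
      μ.real {x | ∑ j, coc S φ (n j) x (m j) = 0} < ε)
    (A : Fin (k + 1) → Set X) (hA : ∀ j, MeasurableSet (A j)) (m : Fin (k + 1) → M)
    (ε : ℝ) (hε : 0 < ε) : ∃ G : ℕ, ∀ n : Fin (k + 1) → ℕ, n 0 = 0 →
      (∀ j : Fin k, n j.castSucc + G ≤ n j.succ) →
      ‖∫ z, ∏ j, ten (A j) (m j) ((nskew S φ)^[n j] z) ∂(μ.prod ν) -
        ∏ j, ∫ z, ten (A j) (m j) z ∂(μ.prod ν)‖ < ε := by sorry
/-- NE -/
theorem ntrans_of_ergodic {X R M : Type*} [MeasurableSpace X] (μ : Measure X)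
    [IsProbabilityMeasure μ] (S : X → X) (hS : MeasurePreserving S μ μ)
    [CommRing R] [AddCommGroup M] [Module R M] [Countable M] (φ : X → (M ≃ₗ[R] M))
    (hφ : ∀ v v' : M, MeasurableSet {x | φ x v = v'}) (ν : Measure (Dual M))
    (hν : IsHaarProb ν) (h : Ergodic (nskew S φ) (μ.prod ν)) (m : M) (hm : m ≠ 0) :
    NTrans μ S φ m := by sorry

/-! ### M3: the result -/

theorem main3 {X R M : Type*} [MeasurableSpace X] (μ : Measure X)
    [IsProbabilityMeasure μ] (S : X → X) (hS : MeasurePreserving S μ μ)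
    [CommRing R] [IsNoetherianRing R] [AddCommGroup M] [Module R M] [Module.Finite R M]
    [Countable M] (φ : X → (M ≃ₗ[R] M)) (hφ : ∀ m m' : M, MeasurableSet {x | φ x m = m'})
    (ν : Measure (Dual M)) (hν : IsHaarProb ν) (k : ℕ) (hk : MixOrd μ S k)
    (h : Ergodic (nskew S φ) (μ.prod ν)) : MixOrd (μ.prod ν) (nskew S φ) k := by sorry

end H567MM
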