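import Pool.Agent.H567R2.MO.Stubs

/-! VF: virtually constant subobjects from collisions. -/

namespace H567MM.P

open MeasureTheory Filter Topology

section

variable {K V : Type*} [Field K] [AddCommGroup V] [Module K V]

theorem VF_aux_imC_imC (a b a' b' : V ≃ₗ[K] V) (F : Finset (Submodule K (V × V))) :
    imC a b (imC a' b' F) = imC (a * a') (b * b') F := by
  classical
  unfold imC
  rw [Finset.image_image]
  congr 1
  funext W
  rw [Function.comp_apply, ← Submodule.map_comp]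
  congr 1

theorem VF_aux_imF (g : V ≃ₗ[K] V) (F : Finset (Submodule K (V × V))) :
    imF g F = imC 1 g F := rfl

theorem VF_aux_one (F : Finset (Submodule K (V × V))) : imC (1 : V ≃ₗ[K] V) 1 F = F := by
  classical
  unfold imC
  have h : (fun W : Submodule K (V × V) => W.map
      (LinearMap.prodMap ((1 : V ≃ₗ[K] V) : V →ₗ[K] V) ((1 : V ≃ₗ[K] V) : V →ₗ[K] V))) = id := by
    funext W
    have h1 : LinearMap.prodMap ((1 : V ≃ₗ[K] V) : V →ₗ[K] V) ((1 : V ≃ₗ[K] V) : V →ₗ[K] V) =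
        LinearMap.id := by
      apply LinearMap.ext
      intro z
      rfl
    rw [h1, Submodule.map_id]
    rfl
  rw [h]
  exact Finset.image_id

theorem VF_aux_inj (a b : V ≃ₗ[K] V) {F F' : Finset (Submodule K (V × V))}
    (h : imC a b F = imC a b F') : F = F' := by
  have h1 := congrArg (imC a⁻¹ b⁻¹) h
  rw [VF_aux_imC_imC, VF_aux_imC_imC, inv_mul_cancel, inv_mul_cancel, VF_aux_one,
    VF_aux_one] at h1
  exact h1

/-- restriction of an automorphism preserving a subspace -/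
theorem VF_aux_restr {r : ℕ} (V₀ : Submodule K V) (e : (Fin r → K) ≃ₗ[K] V₀) (k : V ≃ₗ[K] V)
    (hk : V₀.map (k : V →ₗ[K] V) = V₀) :
    ∃ t : (Fin r → K) ≃ₗ[K] (Fin r → K), ∀ v, ((e (t v) : V₀) : V) = k (e v) := by
  refine ⟨(e.trans ((k.submoduleMap V₀).trans (LinearEquiv.ofEq _ _ hk))).trans e.symm, ?_⟩
  intro v
  simp only [LinearEquiv.trans_apply, LinearEquiv.apply_symm_apply]
  rfl

end

theorem vc_of_coll {X K V : Type*} [MeasurableSpace X] (μ : Measure X) [IsProbabilityMeasure μ]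
    (S : X → X) (hS : MeasurePreserving S μ μ) (hmix : MixOrd μ S 1) [Field K]
    [AddCommGroup V] [Module K V] [FiniteDimensional K V] [Countable V] (φ : X → (V ≃ₗ[K] V))
    (hφ : ∀ v v' : V, MeasurableSet {x | φ x v = v'}) (m : V) (A₀ : Set X)
    (hA : MeasurableSet A₀) (c : ℝ) (hc : 0 < c) (h : ∀ N₀ : ℕ, ∃ N ≥ N₀, c * N ≤
      ∑ t ∈ Finset.range N, (μ.prod μ).real {z | coc S φ t z.1 m = coc S φ t z.2 m ∧
        S^[t] z.1 ∈ A₀ ∧ S^[t] z.2 ∈ A₀}) :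
    ∃ (r : ℕ) (g : X → ((Fin r → K) →ₗ[K] V)), VC μ S φ r g ∧
      μ {x | x ∈ A₀ ∧ m ∈ LinearMap.range (g x)} ≠ 0 := by
  classical
  obtain ⟨F, f, hF, hf, hG, heq, hpos⟩ := fam_of_coll μ S hS hmix φ hφ m A₀ hA c hc h
  obtain ⟨F₀, g, hF0, hg, hf0, hG0, hsep⟩ := separated μ S hS hmix φ hφ F f hF hf hG heq
  obtain ⟨V₀, hV0, hstabV, hfin, hmin⟩ := fin_stab μ F₀ f hF0 hf0 hG0
  have hcs : Countable (Submodule K (V × V)) := countable_submodule
  have hce : Countable (V ≃ₗ[K] V) := countable_equiv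
  -- the key identity
  set L : X → (V ≃ₗ[K] V) := fun x => (g x)⁻¹ * (φ x * g (S x)) with hL
  have hSS : MeasurePreserving (Prod.map S S) (μ.prod μ) (μ.prod μ) := hS.prod hS
  have hsep2 : ∀ᵐ z ∂(μ.prod μ), F (S z.1, S z.2) = imF (g (S z.2)) (F₀ (S z.1)) :=
    hSS.quasiMeasurePreserving.ae hsep
  have hkey : ∀ᵐ z ∂(μ.prod μ), F₀ z.1 = imC (φ z.1) (L z.2) (F₀ (S z.1)) := by
    filter_upwards [heq, hsep, hsep2] with z h1 h2 h3
    rw [h2, h3, VF_aux_imF, VF_aux_imF, VF_aux_imC_imC] at h1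
    have h4 := congrArg (imC (1 : V ≃ₗ[K] V) (g z.2)⁻¹) h1
    rw [VF_aux_imC_imC, VF_aux_imC_imC, one_mul, inv_mul_cancel, VF_aux_one, one_mul,
      mul_one] at h4
    exact h4
  have hswap : ∀ᵐ x ∂μ, ∀ᵐ a ∂μ, F₀ a = imC (φ a) (L x) (F₀ (S a)) := by
    have h1 := (Measure.measurePreserving_swap (μ := μ) (ν := μ)).quasiMeasurePreserving.ae hkey
    exact Measure.ae_ae_of_ae_prod h1
  obtain ⟨c₁, hc₁⟩ := hswap.exists
  set l₀ : V ≃ₗ[K] V := L c₁ with hl₀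
  -- the stabilizer
  set St : (V ≃ₗ[K] V) → Prop := fun k => ∀ᵐ a ∂μ, imF k (F₀ a) = F₀ a with hSt
  have hSa : ∀ {p : X → Prop}, (∀ᵐ a ∂μ, p a) → ∀ᵐ a ∂μ, p (S a) := fun hp =>
    hS.quasiMeasurePreserving.ae hp
  have hSt1 : St 1 := by
    refine Eventually.of_forall fun a => ?_
    rw [VF_aux_imF, VF_aux_one]
  have hStmul : ∀ k k', St k → St k' → St (k * k') := by
    intro k k' h1 h2
    filter_upwards [h1, h2] with a h3 h4
    rw [VF_aux_imF] at h3 h4 ⊢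
    have h5 : imC (1 : V ≃ₗ[K] V) (k * k') (F₀ a) = imC 1 k (imC 1 k' (F₀ a)) := by
      rw [VF_aux_imC_imC, one_mul]
    rw [h5, h4, h3]
  have hStinv : ∀ k, St k → St k⁻¹ := by
    intro k h1
    filter_upwards [h1] with a h3
    rw [VF_aux_imF] at h3 ⊢
    have h5 := congrArg (imC (1 : V ≃ₗ[K] V) k⁻¹) h3
    rw [VF_aux_imC_imC, one_mul, inv_mul_cancel, VF_aux_one] at h5
    exact h5.symm
  have hLSt : ∀ᵐ x ∂μ, St (L x * l₀⁻¹) := by
    filter_upwards [hswap] with x hx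
    filter_upwards [hx, hc₁] with a h1 h2
    rw [VF_aux_imF]
    nth_rewrite 1 [h2]
    rw [VF_aux_imC_imC, one_mul, inv_mul_cancel_right, ← h1]
  have hconj1 : ∀ k, St k → St (l₀ * k * l₀⁻¹) := by
    intro k hk
    filter_upwards [hc₁, hSa hk] with a h1 h2
    rw [VF_aux_imF] at h2 ⊢
    have h3 : imC (φ a) (l₀ * k) (F₀ (S a)) = imC (φ a) l₀ (imC 1 k (F₀ (S a))) := by
      rw [VF_aux_imC_imC, mul_one]
    nth_rewrite 1 [h1]
    rw [VF_aux_imC_imC, one_mul, inv_mul_cancel_right, h3, h2, ← h1]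
  have hconj2 : ∀ k, St (l₀ * k * l₀⁻¹) → St k := by
    intro k hk
    have hpre : ∀ᵐ a ∂μ, imF k (F₀ (S a)) = F₀ (S a) := by
      filter_upwards [hc₁, hk] with a h1 h2
      rw [VF_aux_imF] at h2 ⊢
      rw [h1, VF_aux_imC_imC, one_mul, inv_mul_cancel_right] at h2
      have h3 : imC (φ a) (l₀ * k) (F₀ (S a)) = imC (φ a) l₀ (imC 1 k (F₀ (S a))) := by
        rw [VF_aux_imC_imC, mul_one]
      rw [h3] at h2
      exact VF_aux_inj _ _ h2
    have hmeas : MeasurableSet {a | ¬ imF k (F₀ a) = F₀ a} := by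
      have h1 : {a | ¬ imF k (F₀ a) = F₀ a} =
          ⋃ w ∈ {w : Finset (Submodule K (V × V)) | ¬ imF k w = w}, {a | F₀ a = w} := by
        ext a
        simp
      rw [h1]
      exact MeasurableSet.biUnion (Set.to_countable _) fun w _ => hF0 w
    show ∀ᵐ a ∂μ, imF k (F₀ a) = F₀ a
    rw [ae_iff] at hpre ⊢
    rw [← hS.measure_preimage hmeas.nullMeasurableSet]
    exact hpre
  -- `l₀` preserves `V₀`
  have hl0V : V₀.map (l₀ : V →ₗ[K] V) = V₀ := by
    have h1 : V₀ ≤ V₀.map (l₀ : V →ₗ[K] V) := by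
      apply hmin
      filter_upwards [hc₁, hSa hV0] with a h1 h2 W hW
      rw [h1] at hW
      unfold imC at hW
      rw [Finset.mem_image] at hW
      obtain ⟨W', hW', rfl⟩ := hW
      rintro _ ⟨_, ⟨z, hz, rfl⟩, rfl⟩
      exact ⟨z.2, h2 W' hW' ⟨z, hz, rfl⟩, rfl⟩
    refine (Submodule.eq_of_le_of_finrank_eq h1 ?_).symm
    exact (LinearEquiv.finrank_map_eq l₀ V₀).symm
  -- coordinates
  set r : ℕ := Module.finrank K V₀ with hr
  set e : (Fin r → K) ≃ₗ[K] V₀ := (Module.finBasis K V₀).equivFun.symm with he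
  obtain ⟨l, hl⟩ := VF_aux_restr V₀ e l₀ hl0V
  have hinj : ∀ v v', ((e v : V₀) : V) = e v' → v = v' := fun v v' hh =>
    e.injective (Subtype.ext hh)
  have hlinv : ∀ v, ((e (l⁻¹ v) : V₀) : V) = l₀⁻¹ (e v) := by
    intro v
    have h1 := hl (l⁻¹ v)
    have h2 : l (l⁻¹ v) = v := l.apply_symm_apply v
    rw [h2] at h1
    rw [h1]
    exact (l₀.symm_apply_apply _).symm
  let H : Subgroup ((Fin r → K) ≃ₗ[K] (Fin r → K)) :=
    { carrier := {t | ∃ k, St k ∧ ∀ v, ((e (t v) : V₀) : V) = k (e v)}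
      mul_mem' := by
        rintro t t' ⟨k, hk, hk2⟩ ⟨k', hk', hk2'⟩
        refine ⟨k * k', hStmul k k' hk hk', fun v => ?_⟩
        rw [LinearEquiv.mul_apply, LinearEquiv.mul_apply, hk2, hk2']
      one_mem' := ⟨1, hSt1, fun v => rfl⟩
      inv_mem' := by
        rintro t ⟨k, hk, hk2⟩
        refine ⟨k⁻¹, hStinv k hk, fun v => ?_⟩
        have h1 := hk2 (t⁻¹ v)
        have h2 : t (t⁻¹ v) = v := t.apply_symm_apply v
        rw [h2] at h1
        rw [h1]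
        exact (k.symm_apply_apply _).symm }
  have hHmem : ∀ t, t ∈ H ↔ ∃ k, St k ∧ ∀ v, ((e (t v) : V₀) : V) = k (e v) := fun t => Iff.rfl
  have hHfin : Finite H := by
    have h1 := hfin.to_subtype
    let T : H → {t : V₀ → V | ∃ g : V ≃ₗ[K] V, (∀ᵐ a ∂μ, imF g (F₀ a) = F₀ a) ∧
        ∀ v : V₀, t v = g v} := fun t => ⟨fun v => ((e (t.1 (e.symm v)) : V₀) : V), by
      obtain ⟨k, hk, hk2⟩ := t.2
      refine ⟨k, hk, fun v => ?_⟩
      show ((e (t.1 (e.symm v)) : V₀) : V) = k v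
      rw [hk2, e.apply_symm_apply]⟩
    refine Finite.of_injective T ?_
    intro t t' htt
    have h2 := congrArg Subtype.val htt
    apply Subtype.ext
    apply LinearEquiv.ext
    intro v
    have h3 := congrFun h2 (e v)
    simp only [T, LinearEquiv.symm_apply_apply] at h3
    exact hinj _ _ h3
  refine ⟨r, fun x => (g x : V →ₗ[K] V) ∘ₗ V₀.subtype ∘ₗ (e : (Fin r → K) →ₗ[K] V₀),
    ⟨?_, ?_, H, l, hHfin, ?_, ?_⟩, ?_⟩
  · -- measurability
    intro v v'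
    have h1 : {x | ((g x : V →ₗ[K] V) ∘ₗ V₀.subtype ∘ₗ (e : (Fin r → K) →ₗ[K] V₀)) v = v'} =
        ⋃ k ∈ {k : V ≃ₗ[K] V | k (e v) = v'}, {x | g x = k} := by
      ext x
      simp
    rw [h1]
    exact MeasurableSet.biUnion (Set.to_countable _) fun w _ => hg w
  · refine Eventually.of_forall fun x => ?_
    intro v v' hvv
    exact hinj _ _ ((g x).injective hvv)
  · intro t
    rw [hHmem, hHmem]
    constructor
    · rintro ⟨k, hk, hk2⟩
      refine ⟨l₀ * k * l₀⁻¹, hconj1 k hk, fun v => ?_⟩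
      show ((e (l (t (l⁻¹ v))) : V₀) : V) = l₀ (k (l₀⁻¹ (e v)))
      rw [hl, hk2, hlinv]
    · rintro ⟨k, hk, hk2⟩
      refine ⟨l₀⁻¹ * k * l₀, ?_, fun v => ?_⟩
      · apply hconj2
        have h1 : l₀ * (l₀⁻¹ * k * l₀) * l₀⁻¹ = k := by group
        rw [h1]
        exact hk
      · have h1 := hk2 (l v)
        have h2 : l⁻¹ (l v) = v := l.symm_apply_apply v
        rw [LinearEquiv.mul_apply, LinearEquiv.mul_apply, h2, hl, hl] at h1
        rw [LinearEquiv.mul_apply, LinearEquiv.mul_apply, ← h1]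
        exact (l₀.symm_apply_apply _).symm
  · -- the equation
    filter_upwards [hLSt] with x hx
    obtain ⟨t, ht⟩ := VF_aux_restr V₀ e (L x * l₀⁻¹) (hstabV _ hx)
    refine ⟨t, (hHmem t).2 ⟨_, hx, ht⟩, fun v => ?_⟩
    show φ x (g (S x) (e v)) = g x (e (t (l v)))
    rw [ht, hl, LinearEquiv.mul_apply]
    have h1 : l₀⁻¹ (l₀ ((e v : V₀) : V)) = e v := l₀.symm_apply_apply _
    rw [h1]
    show φ x (g (S x) (e v)) = g x ((g x)⁻¹ ((φ x * g (S x)) (e v)))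
    have h2 : g x ((g x)⁻¹ ((φ x * g (S x)) ((e v : V₀) : V))) = (φ x * g (S x)) (e v) :=
      (g x).apply_symm_apply _
    rw [h2]
    rfl
  · -- positivity
    intro h0
    apply hpos
    set T : Set X := {x | x ∈ A₀ ∧ m ∈ LinearMap.range
      ((g x : V →ₗ[K] V) ∘ₗ V₀.subtype ∘ₗ (e : (Fin r → K) →ₗ[K] V₀))} with hT
    have hV0z : ∀ᵐ z ∂(μ.prod μ), ∀ W ∈ F₀ z.1, W.map (LinearMap.snd K V V) ≤ V₀ :=
      (Measure.quasiMeasurePreserving_fst (μ := μ) (ν := μ)).ae hV0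
    have h1 : (μ.prod μ) (Set.univ ×ˢ T) = 0 := by
      rw [Measure.prod_prod, h0, mul_zero]
    have h2 : ∀ᵐ z ∂(μ.prod μ), z ∉ (Set.univ ×ˢ T : Set (X × X)) := by
      rw [ae_iff]
      simpa only [not_not, Set.setOf_mem_eq] using h1
    have h3 : ∀ᵐ z ∂(μ.prod μ), ¬ (z.1 ∈ A₀ ∧ z.2 ∈ A₀ ∧ ∃ W ∈ F z, (m, m) ∈ W) := by
      filter_upwards [h2, hV0z, hsep] with z g1 g2 g3
      rintro ⟨-, hz2, W, hW, hmW⟩
      apply g1
      refine ⟨Set.mem_univ _, hz2, ?_⟩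
      rw [g3] at hW
      unfold imF at hW
      rw [Finset.mem_image] at hW
      obtain ⟨W', hW', rfl⟩ := hW
      obtain ⟨u, hu, hum⟩ := hmW
      have h4 : u.2 ∈ V₀ := g2 W' hW' ⟨u, hu, rfl⟩
      have h5 : g z.2 u.2 = m := congrArg Prod.snd hum
      refine ⟨e.symm ⟨u.2, h4⟩, ?_⟩
      show g z.2 ((e (e.symm ⟨u.2, h4⟩) : V₀) : V) = m
      rw [e.apply_symm_apply]
      exact h5
    rw [ae_iff] at h3
    simpa only [not_not] using h3

end H567MM.P
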