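import Pool.Agent.H567R2.MO.Stubs

/-! VS: sums of virtually constant subobjects. -/

namespace H567MM.P

open MeasureTheory Filter Topology

section alg

variable {K U : Type*} [Field K] [AddCommGroup U] [Module K U]

/-- action on subspaces -/
def VS_aux_ac (h : U ≃ₗ[K] U) (W : Submodule K U) : Submodule K U := W.map (h : U →ₗ[K] U)

theorem VS_aux_mem {h : U ≃ₗ[K] U} {W : Submodule K U} {v : U} :
    v ∈ VS_aux_ac h W ↔ h⁻¹ v ∈ W := Submodule.mem_map_equiv _

theorem VS_aux_one (W : Submodule K U) : VS_aux_ac 1 W = W := by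
  ext v
  rw [VS_aux_mem, inv_one]
  rfl

theorem VS_aux_mul (h h' : U ≃ₗ[K] U) (W : Submodule K U) :
    VS_aux_ac (h * h') W = VS_aux_ac h (VS_aux_ac h' W) := by
  ext v
  rw [VS_aux_mem, VS_aux_mem, VS_aux_mem, mul_inv_rev]
  rfl

/-- orbits of subspaces -/
def VS_aux_sr (Γ : Subgroup (U ≃ₗ[K] U)) : Setoid (Submodule K U) where
  r W W' := ∃ h ∈ Γ, W' = VS_aux_ac h W
  iseqv := by
    refine ⟨fun W => ⟨1, Γ.one_mem, (VS_aux_one W).symm⟩, ?_, ?_⟩
    · rintro W W' ⟨h, hh, rfl⟩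
      exact ⟨h⁻¹, Γ.inv_mem hh, by rw [← VS_aux_mul, inv_mul_cancel, VS_aux_one]⟩
    · rintro W W' W'' ⟨h, hh, rfl⟩ ⟨h', hh', rfl⟩
      exact ⟨h' * h, Γ.mul_mem hh' hh, by rw [VS_aux_mul]⟩

theorem VS_aux_countable [FiniteDimensional K U] [Countable U] : Countable (Submodule K U) := by
  have hsur : Function.Surjective fun s : Finset U => Submodule.span K (s : Set U) := by
    intro W
    obtain ⟨s, hs⟩ := IsNoetherian.noetherian W
    exact ⟨s, hs⟩
  exact hsur.countable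

end alg

/-- a countably valued function which is equivariant along a mixing map is constant -/
theorem VS_aux_const {X κ : Type*} [MeasurableSpace X] (μ : Measure X) [IsProbabilityMeasure μ]
    (S : X → X) (hS : MeasurePreserving S μ μ) (hmix : MixOrd μ S 1) [Countable κ] (q : X → κ)
    (hq : ∀ c, MeasurableSet {x | q x = c}) (τ : κ → κ) (hτ : Function.Injective τ)
    (h : ∀ᵐ x ∂μ, q x = τ (q (S x))) : ∃ c, ∀ᵐ x ∂μ, q x = c := by
  -- a value of positive measure
  have hex : ∃ c, μ {x | q x = c} ≠ 0 := by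
    by_contra hcon
    push Not at hcon
    have h1 : μ (⋃ c, {x | q x = c}) = 0 := measure_iUnion_null hcon
    have h2 : (⋃ c, {x | q x = c}) = Set.univ := by
      ext x
      simp
    rw [h2, measure_univ] at h1
    exact one_ne_zero h1
  obtain ⟨c, hc⟩ := hex
  -- iterates
  have hit : ∀ n : ℕ, ∀ᵐ x ∂μ, q x = τ^[n] (q (S^[n] x)) := by
    intro n
    induction n with
    | zero => exact Eventually.of_forall fun x => rfl
    | succ n ih =>
      have h3 : ∀ᵐ x ∂μ, q (S^[n] x) = τ (q (S (S^[n] x))) :=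
        (hS.iterate n).quasiMeasurePreserving.ae h
      filter_upwards [ih, h3] with x h4 h5
      rw [h4, h5, Function.iterate_succ_apply, Function.iterate_succ_apply']
  refine ⟨c, ?_⟩
  -- other values have measure zero
  have hother : ∀ c', c' ≠ c → μ {x | q x = c'} = 0 := by
    intro c' hne
    by_contra hc'
    have hpos : 0 < μ.real {x | q x = c} * μ.real {x | q x = c'} := by
      refine mul_pos ?_ ?_
      · exact (measureReal_nonneg).lt_of_ne' ((measureReal_ne_zero_iff (measure_ne_top _ _)).2 hc)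
      · exact (measureReal_nonneg).lt_of_ne' ((measureReal_ne_zero_iff (measure_ne_top _ _)).2 hc')
    obtain ⟨G, hG⟩ := hmix ![{x | q x = c}, {x | q x = c'}]
      (by intro j; fin_cases j <;> simp [hq]) _ hpos
    have hn : ∀ n, G ≤ n → c = τ^[n] c' := by
      intro n hn
      have h6 := hG ![0, n] rfl (by intro j; fin_cases j; simpa using hn)
      have h7 : (⋂ j : Fin (1 + 1), S^[(![0, n] : Fin (1 + 1) → ℕ) j] ⁻¹'
          ((![{x | q x = c}, {x | q x = c'}] : Fin (1 + 1) → Set X) j)) =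
          {x | q x = c} ∩ S^[n] ⁻¹' {x | q x = c'} := by
        ext x
        simp [Fin.forall_fin_two]
      rw [h7, Fin.prod_univ_two] at h6
      simp only [Matrix.cons_val_zero, Matrix.cons_val_one] at h6
      have h8 : μ ({x | q x = c} ∩ S^[n] ⁻¹' {x | q x = c'}) ≠ 0 := by
        intro h0
        rw [measureReal_def, h0, ENNReal.toReal_zero, zero_sub, abs_neg,
          abs_of_pos hpos] at h6
        exact lt_irrefl _ h6
      have h9 : ∃ x, x ∈ ({x | q x = c} ∩ S^[n] ⁻¹' {x | q x = c'}) ∧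
          q x = τ^[n] (q (S^[n] x)) := by
        by_contra hcon
        push Not at hcon
        apply h8
        have h10 := hit n
        rw [ae_iff] at h10
        exact measure_mono_null (fun x hx => hcon x hx) h10
      obtain ⟨x, ⟨hx1, hx2⟩, hx3⟩ := h9
      have hx1' : q x = c := hx1
      have hx2' : q (S^[n] x) = c' := hx2
      rw [hx1', hx2'] at hx3
      exact hx3
    have e1 := hn G le_rfl
    have e2 := hn (G + 1) (Nat.le_succ G)
    rw [Function.iterate_succ_apply] at e2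
    have e3 : c' = τ c' := (hτ.iterate G) (e1.symm.trans e2)
    have e4 : τ^[G] c' = c' := Function.iterate_fixed e3.symm G
    exact hne (by rw [e1, e4])
  rw [ae_iff]
  have h11 : {x | ¬ q x = c} ⊆ ⋃ c' : {c' // c' ≠ c}, {x | q x = c'.1} := by
    intro x hx
    rw [Set.mem_iUnion]
    exact ⟨⟨q x, hx⟩, rfl⟩
  exact measure_mono_null h11 (measure_iUnion_null fun c' => hother c'.1 c'.2)

/-- the induced automorphisms of a quotient -/
theorem VS_aux_quot {K U : Type*} [Field K] [AddCommGroup U] [Module K U]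
    [FiniteDimensional K U] (N₀ : Submodule K U) :
    ∃ (r : ℕ) (π : U →ₗ[K] (Fin r → K)) (σ : (Fin r → K) →ₗ[K] U),
      (∀ u, π u = 0 ↔ u ∈ N₀) ∧ (∀ w, π (σ w) = w) ∧
      ∀ k : U ≃ₗ[K] U, VS_aux_ac k N₀ = N₀ →
        ∃ k' : (Fin r → K) ≃ₗ[K] (Fin r → K), ∀ u, k' (π u) = π (k u) := by
  let b := (Module.finBasis K (U ⧸ N₀)).equivFun
  have hsurj : Function.Surjective (b.toLinearMap.comp N₀.mkQ) := by
    rw [LinearMap.coe_comp]
    exact b.surjective.comp (Submodule.mkQ_surjective N₀)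
  obtain ⟨σ, hσ⟩ := LinearMap.exists_rightInverse_of_surjective _
    (LinearMap.range_eq_top.2 hsurj)
  refine ⟨_, b.toLinearMap.comp N₀.mkQ, σ, fun u => ?_, fun w => ?_, fun k hk => ?_⟩
  · rw [LinearMap.comp_apply, LinearEquiv.coe_coe, LinearEquiv.map_eq_zero_iff,
      Submodule.mkQ_apply, Submodule.Quotient.mk_eq_zero]
  · exact LinearMap.congr_fun hσ w
  · refine ⟨(b.symm.trans (Submodule.Quotient.equiv N₀ N₀ k hk)).trans b, fun u => ?_⟩
    show b (Submodule.Quotient.equiv N₀ N₀ k hk (b.symm (b (Submodule.Quotient.mk u)))) =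
      b (Submodule.Quotient.mk (k u))
    rw [LinearEquiv.symm_apply_apply]
    rfl

/-- virtually constant families which need not be injective -/
theorem VS_aux_main {X K V U : Type*} [MeasurableSpace X] (μ : Measure X)
    [IsProbabilityMeasure μ] (S : X → X) (hS : MeasurePreserving S μ μ) (hmix : MixOrd μ S 1)
    [Field K] [AddCommGroup V] [Module K V] [Countable V]
    [AddCommGroup U] [Module K U] [FiniteDimensional K U] [Countable U]
    (φ : X → (V ≃ₗ[K] V)) (G : X → (U →ₗ[K] V))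
    (hG : ∀ u v, MeasurableSet {x | G x u = v}) (Γ : Subgroup (U ≃ₗ[K] U)) (l : U ≃ₗ[K] U)
    (hfin : Finite Γ) (hl : ∀ h, h ∈ Γ ↔ l * h * l⁻¹ ∈ Γ)
    (hφ : ∀ᵐ x ∂μ, ∃ h ∈ Γ, ∀ u, φ x (G (S x) u) = G x (h (l u))) :
    ∃ (r : ℕ) (g : X → ((Fin r → K) →ₗ[K] V)), VC μ S φ r g ∧
      ∀ᵐ x ∂μ, LinearMap.range (g x) = LinearMap.range (G x) := by
  classical
  have hcs : Countable (Submodule K U) := VS_aux_countable
  let N : X → Submodule K U := fun x => LinearMap.ker (G x)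
  have hNm : ∀ W, MeasurableSet {x | N x = W} := by
    intro W
    have h1 : {x | N x = W} = ⋂ u : U, {x | G x u = 0 ↔ u ∈ W} := by
      ext x
      simp only [Set.mem_ofPred_eq, Set.mem_iInter]
      constructor
      · intro h u
        rw [← h]
        exact LinearMap.mem_ker.symm
      · intro h
        ext u
        exact (LinearMap.mem_ker).trans (h u)
    rw [h1]
    refine MeasurableSet.iInter fun u => ?_
    by_cases hu : u ∈ W
    · have h2 : {x | G x u = 0 ↔ u ∈ W} = {x | G x u = 0} := by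
        ext x
        simp [hu]
      rw [h2]
      exact hG u 0
    · have h2 : {x | G x u = 0 ↔ u ∈ W} = {x | G x u = 0}ᶜ := by
        ext x
        simp [hu]
      rw [h2]
      exact (hG u 0).compl
  -- equivariance of the kernels
  have hN : ∀ᵐ x ∂μ, ∃ h ∈ Γ, (∀ u, φ x (G (S x) u) = G x (h (l u))) ∧
      N x = VS_aux_ac (h * l) (N (S x)) := by
    filter_upwards [hφ] with x hx
    obtain ⟨h, hh, hu⟩ := hx
    refine ⟨h, hh, hu, ?_⟩
    ext v
    rw [VS_aux_mem]
    show v ∈ LinearMap.ker (G x) ↔ (h * l)⁻¹ v ∈ LinearMap.ker (G (S x))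
    rw [LinearMap.mem_ker, LinearMap.mem_ker]
    have h1 : G x v = φ x (G (S x) ((h * l)⁻¹ v)) := by
      rw [hu]
      congr 1
      exact ((h * l).apply_symm_apply v).symm
    rw [h1, LinearEquiv.map_eq_zero_iff]
  -- the map induced by `l` on the orbits
  let τ : Quotient (VS_aux_sr Γ) → Quotient (VS_aux_sr Γ) := Quotient.map (VS_aux_ac l) (by
    rintro W W' ⟨h, hh, rfl⟩
    refine ⟨l * h * l⁻¹, (hl h).1 hh, ?_⟩
    rw [← VS_aux_mul, ← VS_aux_mul]
    congr 1
    group)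
  have hτ : Function.Injective τ := by
    intro a b
    induction a using Quotient.inductionOn with | _ W => ?_
    induction b using Quotient.inductionOn with | _ W' => ?_
    intro hab
    have h1 : (VS_aux_sr Γ).r (VS_aux_ac l W) (VS_aux_ac l W') := Quotient.exact hab
    obtain ⟨h, hh, he⟩ := h1
    refine Quotient.sound ⟨l⁻¹ * h * l, ?_, ?_⟩
    · rw [hl]
      have : l * (l⁻¹ * h * l) * l⁻¹ = h := by group
      rw [this]
      exact hh
    · rw [VS_aux_mul, VS_aux_mul, ← he, ← VS_aux_mul, inv_mul_cancel, VS_aux_one]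
  obtain ⟨c, hc⟩ := VS_aux_const μ S hS hmix (fun x => Quotient.mk (VS_aux_sr Γ) (N x)) (by
      intro c
      have h1 : {x | Quotient.mk (VS_aux_sr Γ) (N x) = c} =
          ⋃ W : {W : Submodule K U // Quotient.mk (VS_aux_sr Γ) W = c}, {x | N x = W.1} := by
        ext x
        simp only [Set.mem_ofPred_eq, Set.mem_iUnion]
        constructor
        · intro h
          exact ⟨⟨N x, h⟩, rfl⟩
        · rintro ⟨W, hW⟩
          rw [hW]
          exact W.2
      rw [h1]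
      exact MeasurableSet.iUnion fun W => hNm _) τ hτ (by
      filter_upwards [hN] with x hx
      obtain ⟨h, hh, -, he⟩ := hx
      show Quotient.mk (VS_aux_sr Γ) (N x) = Quotient.mk (VS_aux_sr Γ) (VS_aux_ac l (N (S x)))
      refine (Quotient.sound ⟨h, hh, ?_⟩ : Quotient.mk (VS_aux_sr Γ)
        (VS_aux_ac l (N (S x))) = Quotient.mk (VS_aux_sr Γ) (N x)).symm
      rw [he, VS_aux_mul])
  obtain ⟨N₀, rfl⟩ := Quotient.exists_rep c
  -- the choice of the elements of `Γ`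
  let ch : Submodule K U → (U ≃ₗ[K] U) := fun W =>
    if h : ∃ h ∈ Γ, W = VS_aux_ac h N₀ then h.choose else 1
  let η : X → (U ≃ₗ[K] U) := fun x => ch (N x)
  have hη : ∀ᵐ x ∂μ, η x ∈ Γ ∧ N x = VS_aux_ac (η x) N₀ := by
    filter_upwards [hc] with x hx
    have h1 : (VS_aux_sr Γ).r N₀ (N x) := Quotient.exact hx.symm
    have h2 : ∃ h ∈ Γ, N x = VS_aux_ac h N₀ := h1
    have h3 : η x = h2.choose := by
      show ch (N x) = _
      exact dif_pos h2
    rw [h3]
    exact h2.choose_spec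
  have hηS : ∀ᵐ x ∂μ, η (S x) ∈ Γ ∧ N (S x) = VS_aux_ac (η (S x)) N₀ :=
    hS.quasiMeasurePreserving.ae hη
  -- good points
  have hgood : ∀ᵐ x ∂μ, (η x ∈ Γ ∧ N x = VS_aux_ac (η x) N₀) ∧ ∃ k : U ≃ₗ[K] U,
      k * l⁻¹ ∈ Γ ∧ VS_aux_ac k N₀ = N₀ ∧
      ∀ u, φ x (G (S x) (η (S x) u)) = G x (η x (k u)) := by
    filter_upwards [hN, hη, hηS] with x h1 h2 h3
    obtain ⟨h, hh, h4, h5⟩ := h1
    refine ⟨h2, (η x)⁻¹ * (h * l) * η (S x), ?_, ?_, ?_⟩
    · have e1 : (η x)⁻¹ * (h * l) * η (S x) * l⁻¹ = (η x)⁻¹ * h * (l * η (S x) * l⁻¹) := by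
        group
      rw [e1]
      exact Γ.mul_mem (Γ.mul_mem (Γ.inv_mem h2.1) hh) ((hl _).1 h3.1)
    · rw [VS_aux_mul, VS_aux_mul, ← h3.2, ← h5, h2.2, ← VS_aux_mul, inv_mul_cancel, VS_aux_one]
    · intro u
      rw [h4]
      congr 1
      have e2 : h (l (η (S x) u)) = (η x * ((η x)⁻¹ * (h * l) * η (S x))) u := by
        have e3 : η x * ((η x)⁻¹ * (h * l) * η (S x)) = h * l * η (S x) := by group
        rw [e3]
        rfl
      rw [e2]
      rfl
  obtain ⟨x₁, -, k₀, hk₀, hk₀N, -⟩ := hgood.exists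
  obtain ⟨r, π, σ, hπ, hσ, hind⟩ := VS_aux_quot N₀
  have hπs : Function.Surjective π := fun w => ⟨σ w, hσ w⟩
  obtain ⟨l', hl'⟩ := hind k₀ hk₀N
  -- conjugation by `k₀`
  have hconj : ∀ h, h ∈ Γ ↔ k₀ * h * k₀⁻¹ ∈ Γ := by
    intro h
    have e1 : k₀ * h * k₀⁻¹ = (k₀ * l⁻¹) * (l * h * l⁻¹) * (k₀ * l⁻¹)⁻¹ := by group
    rw [e1, hl h]
    constructor
    · intro h1
      exact Γ.mul_mem (Γ.mul_mem hk₀ h1) (Γ.inv_mem hk₀)
    · intro h1
      have e2 : l * h * l⁻¹ = (k₀ * l⁻¹)⁻¹ * ((k₀ * l⁻¹) * (l * h * l⁻¹) * (k₀ * l⁻¹)⁻¹) *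
        (k₀ * l⁻¹) := by group
      rw [e2]
      exact Γ.mul_mem (Γ.mul_mem (Γ.inv_mem hk₀) h1) hk₀
  -- the group
  let H : Subgroup ((Fin r → K) ≃ₗ[K] (Fin r → K)) :=
    { carrier := {h' | ∃ h ∈ Γ, ∀ u, h' (π u) = π (h u)}
      mul_mem' := by
        rintro a b ⟨h, hh, ha⟩ ⟨h', hh', hb⟩
        refine ⟨h * h', Γ.mul_mem hh hh', fun u => ?_⟩
        show a (b (π u)) = π (h (h' u))
        rw [hb, ha]
      one_mem' := ⟨1, Γ.one_mem, fun u => rfl⟩
      inv_mem' := by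
        rintro a ⟨h, hh, ha⟩
        refine ⟨h⁻¹, Γ.inv_mem hh, fun u => ?_⟩
        have e1 : a (π (h⁻¹ u)) = π u := by
          rw [ha]
          congr 1
          exact h.apply_symm_apply u
        rw [← e1]
        exact a.symm_apply_apply _ }
  have hHmem : ∀ h', h' ∈ H ↔ ∃ h ∈ Γ, ∀ u, h' (π u) = π (h u) := fun h' => Iff.rfl
  have hHfin : Finite H := by
    have hch : ∀ h' : H, ∃ h : Γ, ∀ u, h'.1 (π u) = π (h.1 u) := by
      rintro ⟨h', h, hh, hu⟩
      exact ⟨⟨h, hh⟩, hu⟩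
    choose f hf using hch
    refine Finite.of_injective f fun a b hab => ?_
    apply Subtype.ext
    apply LinearEquiv.ext
    intro w
    obtain ⟨u, rfl⟩ := hπs w
    rw [hf a, hf b, hab]
  -- the family
  let g : X → ((Fin r → K) →ₗ[K] V) := fun x => (G x).comp ((η x : U →ₗ[K] U).comp σ)
  have hgπ : ∀ x, N x = VS_aux_ac (η x) N₀ → ∀ u, g x (π u) = G x (η x u) := by
    intro x hx u
    have h1 : σ (π u) - u ∈ N₀ := by
      rw [← hπ, map_sub, hσ, sub_self]
    have h2 : η x (σ (π u) - u) ∈ N x := by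
      rw [hx, VS_aux_mem]
      have : (η x)⁻¹ (η x (σ (π u) - u)) = σ (π u) - u := (η x).symm_apply_apply _
      rw [this]
      exact h1
    have h3 : G x (η x (σ (π u) - u)) = 0 := LinearMap.mem_ker.1 h2
    rw [map_sub, map_sub, sub_eq_zero] at h3
    exact h3
  refine ⟨r, g, ⟨?_, ?_, H, l', hHfin, ?_, ?_⟩, ?_⟩
  · intro w v
    have h1 : {x | g x w = v} = ⋃ W : Submodule K U,
        ({x | N x = W} ∩ {x | G x (ch W (σ w)) = v}) := by
      ext x
      simp only [Set.mem_ofPred_eq, Set.mem_iUnion, Set.mem_inter_iff]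
      constructor
      · intro h
        exact ⟨N x, rfl, h⟩
      · rintro ⟨W, hW, h⟩
        rw [← hW] at h
        exact h
    rw [h1]
    exact MeasurableSet.iUnion fun W => (hNm W).inter (hG _ _)
  · filter_upwards [hgood] with x hx
    obtain ⟨⟨-, hx⟩, -⟩ := hx
    rw [injective_iff_map_eq_zero]
    intro w hw
    have h1 : η x (σ w) ∈ N x := LinearMap.mem_ker.2 hw
    rw [hx, VS_aux_mem] at h1
    have h2 : (η x)⁻¹ (η x (σ w)) = σ w := (η x).symm_apply_apply _
    rw [h2, ← hπ, hσ] at h1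
    exact h1
  · intro h'
    rw [hHmem, hHmem]
    constructor
    · rintro ⟨h, hh, hu⟩
      refine ⟨k₀ * h * k₀⁻¹, (hconj h).1 hh, fun u => ?_⟩
      have e1 : l'⁻¹ (π u) = π (k₀⁻¹ u) := by
        have e2 : l' (π (k₀⁻¹ u)) = π u := by
          rw [hl']
          congr 1
          exact k₀.apply_symm_apply u
        rw [← e2]
        exact l'.symm_apply_apply _
      show l' (h' (l'⁻¹ (π u))) = π (k₀ (h (k₀⁻¹ u)))
      rw [e1, hu, hl']
    · rintro ⟨h, hh, hu⟩
      refine ⟨k₀⁻¹ * h * k₀, ?_, fun u => ?_⟩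
      · rw [hconj]
        have : k₀ * (k₀⁻¹ * h * k₀) * k₀⁻¹ = h := by group
        rw [this]
        exact hh
      · have e1 : l' (h' (π u)) = π (h (k₀ u)) := by
          have e2 := hu (k₀ u)
          rw [← hl'] at e2
          have e3 : (l' * h' * l'⁻¹) (l' (π u)) = l' (h' (π u)) := by
            show l' (h' (l'⁻¹ (l' (π u)))) = _
            congr 2
            exact l'.symm_apply_apply _
          rw [e3] at e2
          exact e2
        have e4 : l' (π (k₀⁻¹ (h (k₀ u)))) = π (h (k₀ u)) := by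
          rw [hl']
          congr 1
          exact k₀.apply_symm_apply _
        exact l'.injective (e1.trans e4.symm)
  · filter_upwards [hgood] with x hx
    obtain ⟨⟨-, hx⟩, k, hk, hkN, hku⟩ := hx
    have hkk : VS_aux_ac (k * k₀⁻¹) N₀ = N₀ := by
      have e1 : VS_aux_ac k₀⁻¹ N₀ = N₀ := by
        conv_lhs => rw [← hk₀N]
        rw [← VS_aux_mul, inv_mul_cancel, VS_aux_one]
      rw [VS_aux_mul, e1, hkN]
    obtain ⟨h', hh'⟩ := hind _ hkk
    refine ⟨h', ⟨k * k₀⁻¹, ?_, hh'⟩, fun w => ?_⟩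
    · have e1 : k * k₀⁻¹ = (k * l⁻¹) * (k₀ * l⁻¹)⁻¹ := by group
      rw [e1]
      exact Γ.mul_mem hk (Γ.inv_mem hk₀)
    · have e1 : h' (l' w) = π (k (σ w)) := by
        have e2 : w = π (σ w) := (hσ w).symm
        conv_lhs => rw [e2]
        rw [hl', hh']
        congr 1
        show k (k₀⁻¹ (k₀ (σ w))) = k (σ w)
        congr 1
        exact k₀.symm_apply_apply _
      rw [e1, hgπ x hx]
      exact hku (σ w)
  · filter_upwards [hgood] with x hx
    obtain ⟨⟨-, hx⟩, -⟩ := hx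
    apply le_antisymm
    · rintro _ ⟨w, rfl⟩
      exact ⟨η x (σ w), rfl⟩
    · rintro _ ⟨u, rfl⟩
      refine ⟨π ((η x)⁻¹ u), ?_⟩
      rw [hgπ x hx]
      congr 1
      exact (η x).apply_symm_apply u

/-- VS -/
theorem VC_sup {X K V : Type*} [MeasurableSpace X] (μ : Measure X) [IsProbabilityMeasure μ]
    (S : X → X) (hS : MeasurePreserving S μ μ) (hmix : MixOrd μ S 1) [Field K]
    [AddCommGroup V] [Module K V] [FiniteDimensional K V] [Countable V] [Countable K]
    (φ : X → (V ≃ₗ[K] V))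
    (hφ : ∀ v v' : V, MeasurableSet {x | φ x v = v'}) (r₁ r₂ : ℕ)
    (g₁ : X → ((Fin r₁ → K) →ₗ[K] V)) (g₂ : X → ((Fin r₂ → K) →ₗ[K] V))
    (h1 : VC μ S φ r₁ g₁) (h2 : VC μ S φ r₂ g₂) :
    ∃ (r : ℕ) (g : X → ((Fin r → K) →ₗ[K] V)), VC μ S φ r g ∧
      ∀ᵐ x ∂μ, LinearMap.range (g x) = LinearMap.range (g₁ x) ⊔ LinearMap.range (g₂ x) := by
  obtain ⟨m1, -, H₁, l₁, f1, n1, e1⟩ := h1
  obtain ⟨m2, -, H₂, l₂, f2, n2, e2⟩ := h2
  let ψ : ((Fin r₁ → K) ≃ₗ[K] (Fin r₁ → K)) × ((Fin r₂ → K) ≃ₗ[K] (Fin r₂ → K)) →*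
      (((Fin r₁ → K) × (Fin r₂ → K)) ≃ₗ[K] ((Fin r₁ → K) × (Fin r₂ → K))) :=
    { toFun := fun p => p.1.prodCongr p.2
      map_one' := rfl
      map_mul' := fun _ _ => rfl }
  obtain ⟨r, g, hg, hr⟩ := VS_aux_main μ S hS hmix φ (fun x => (g₁ x).coprod (g₂ x)) (by
      intro u v
      have h3 : {x | (g₁ x).coprod (g₂ x) u = v} = ⋃ v₁ : V,
          ({x | g₁ x u.1 = v₁} ∩ {x | g₂ x u.2 = v - v₁}) := by
        ext x
        simp only [Set.mem_ofPred_eq, Set.mem_iUnion, Set.mem_inter_iff, LinearMap.coprod_apply]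
        constructor
        · intro h
          exact ⟨g₁ x u.1, rfl, by rw [← h]; abel⟩
        · rintro ⟨v₁, h, h'⟩
          rw [h, h']
          abel
      rw [h3]
      exact MeasurableSet.iUnion fun v₁ => (m1 _ _).inter (m2 _ _))
    ((H₁.prod H₂).map ψ) (ψ (l₁, l₂)) (by
      have h3 : Finite (H₁.prod H₂) := Finite.of_equiv _ (Subgroup.prodEquiv H₁ H₂).symm.toEquiv
      have h4 : Set.Finite (((H₁.prod H₂).map ψ : Subgroup _) : Set
          (((Fin r₁ → K) × (Fin r₂ → K)) ≃ₗ[K] ((Fin r₁ → K) × (Fin r₂ → K)))) := by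
        rw [Subgroup.coe_map]
        exact Set.Finite.image _ (Set.toFinite _)
      exact h4.to_subtype) (by
      intro h
      constructor
      · rintro ⟨p, hp, rfl⟩
        refine ⟨(l₁, l₂) * p * (l₁, l₂)⁻¹, ?_, ?_⟩
        · have hp' : p.1 ∈ H₁ ∧ p.2 ∈ H₂ := Subgroup.mem_prod.1 hp
          exact Subgroup.mem_prod.2 ⟨(n1 p.1).1 hp'.1, (n2 p.2).1 hp'.2⟩
        · rw [map_mul, map_mul, map_inv]
      · rintro ⟨p, hp, hpe⟩
        have hp' : p.1 ∈ H₁ ∧ p.2 ∈ H₂ := Subgroup.mem_prod.1 hp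
        refine ⟨(l₁, l₂)⁻¹ * p * (l₁, l₂), ?_, ?_⟩
        · refine Subgroup.mem_prod.2 ⟨(n1 _).2 ?_, (n2 _).2 ?_⟩
          · have : l₁ * ((l₁, l₂)⁻¹ * p * (l₁, l₂)).1 * l₁⁻¹ = p.1 := by
              show l₁ * (l₁⁻¹ * p.1 * l₁) * l₁⁻¹ = p.1
              group
            rw [this]
            exact hp'.1
          · have : l₂ * ((l₁, l₂)⁻¹ * p * (l₁, l₂)).2 * l₂⁻¹ = p.2 := by
              show l₂ * (l₂⁻¹ * p.2 * l₂) * l₂⁻¹ = p.2
              group
            rw [this]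
            exact hp'.2
        · rw [map_mul, map_mul, map_inv, hpe]
          group) (by
      filter_upwards [e1, e2] with x hx1 hx2
      obtain ⟨a, ha, ha'⟩ := hx1
      obtain ⟨b, hb, hb'⟩ := hx2
      refine ⟨ψ (a, b), ⟨(a, b), Subgroup.mem_prod.2 ⟨ha, hb⟩, rfl⟩, fun u => ?_⟩
      rw [LinearMap.coprod_apply, map_add, ha', hb', LinearMap.coprod_apply]
      rfl)
  refine ⟨r, g, hg, ?_⟩
  filter_upwards [hr] with x hx
  rw [hx, LinearMap.range_coprod]

end H567MM.P
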